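import Mathlib
import Pool.Agent.Lib.MP_caab05_ag.LT.Base

/-! Vector extensions of an abelian variety: definitions for the multiplicity estimate. -/

namespace Pool.Agent.Lib.MP_caab05_ag.ZE

open MvPolynomial Filter Topology Asymptotics Complex
open Pool.Agent.Lib.MP_caab05_ag.LT (E AbVar)

/-- An abelian variety with an explicit factor of automorphy and the second order addition
formula. -/
structure VX (d M : ℕ) extends AbVar d M where
  H : E d →ₗ[ℝ] E d
  β : E d → ℂ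
  law : ∀ l ∈ Λ, ∀ z, θ (z + l) = cexp (H l ⬝ᵥ z + β l) • θ z
  B : Fin (M + 1) → Fin (M + 1) → MvPolynomial (Fin (M + 1) ⊕ Fin (M + 1)) ℂ
  scal : ∀ a b (r s : ℂ) (x y : Fin (M + 1) → ℂ), eval (Sum.elim (r • x) (s • y)) (B a b) =
    r ^ 2 * s ^ 2 * eval (Sum.elim x y) (B a b)
  add2 : ∀ u v a b, θ (u + v) a * θ (u - v) b = eval (Sum.elim (θ u) (θ v)) (B a b)

/-! ### Generalities -/

section Gen

variable {Y : Type} [NormedAddCommGroup Y] [NormedSpace ℂ Y] {ι : Type}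

/-- `F` vanishes to order at least `k` at `z` along every line of `W` -/
def Ord (W : Submodule ℂ Y) (F : Y → ℂ) (z : Y) (k : ℕ) : Prop :=
  ∀ u ∈ W, (fun τ : ℂ => F (z + τ • u)) =O[𝓝 0] fun τ : ℂ => τ ^ k

/-- a polynomial evaluated at the coordinates `Θ` -/
noncomputable def ev {Y : Type} (Θ : Y → ι → ℂ) (P : MvPolynomial ι ℂ) (z : Y) : ℂ := eval (Θ z) P

/-- irreducible subsets for the Zariski topology -/
def Irr {Y : Type} (Θ : Y → ι → ℂ) (V : Set Y) : Prop :=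
  V.Nonempty ∧ ∀ (P Q : MvPolynomial ι ℂ) (k l : ℕ), P.IsHomogeneous k → Q.IsHomogeneous l →
    (∀ z ∈ V, ev Θ P z * ev Θ Q z = 0) → (∀ z ∈ V, ev Θ P z = 0) ∨ (∀ z ∈ V, ev Θ Q z = 0)

/-- Zariski closure -/
def cl {Y : Type} (Θ : Y → ι → ℂ) (V : Set Y) : Set Y :=
  {z | ∀ (P : MvPolynomial ι ℂ) (k : ℕ), P.IsHomogeneous k → (∀ v ∈ V, ev Θ P v = 0) →
    ev Θ P z = 0}

/-- translations are continuous for the Zariski topology -/
def Transl {Y : Type} [Add Y] (Θ : Y → ι → ℂ) : Prop :=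
  ∀ (P : MvPolynomial ι ℂ) (k : ℕ), P.IsHomogeneous k → ∀ a z₀ : Y,
    ∃ (P' : MvPolynomial ι ℂ) (k' : ℕ), P'.IsHomogeneous k' ∧
      (∀ z, ev Θ P (z + a) = 0 → ev Θ P' z = 0) ∧ (ev Θ P (z₀ + a) ≠ 0 → ev Θ P' z₀ ≠ 0)

/-- the Hilbert function grows at most like `m ^ n` -/
def HilB {Y : Type} (Θ : Y → ι → ℂ) (n : ℕ) : Prop :=
  ∃ C : ℝ, ∀ (m : ℕ) (κ : Type) [Fintype κ] (P : κ → MvPolynomial ι ℂ),
    (∀ i, (P i).IsHomogeneous m) → LinearIndependent ℂ (fun i => ev Θ (P i)) →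
    (Fintype.card κ : ℝ) ≤ C * ((m : ℝ) + 1) ^ n

/-- near `z₀` the function `F` is a quotient of forms, of degree `n` -/
def Loc {Y : Type} (Θ : Y → ι → ℂ) (n : ℕ) (F : Y → ℂ) (z₀ : Y) : Prop :=
  ∃ (m : ℕ) (Q P : MvPolynomial ι ℂ), Q.IsHomogeneous m ∧ P.IsHomogeneous (n + m) ∧
    ev Θ Q z₀ ≠ 0 ∧ ∀ z, ev Θ Q z * F z = ev Θ P z

/-- the test curves -/
noncomputable def gam (T : ℕ) (u v : Y) (τ : ℂ) : Y := τ • u + τ ^ (T + 1) • v

/-- vanishing to order `a` along the test curves -/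
def Jf (W : Submodule ℂ Y) (T a : ℕ) (φ : Y → ℂ) : Prop :=
  ∀ u ∈ W, ∀ v, (fun τ : ℂ => φ (gam T u v τ)) =O[𝓝 0] fun τ : ℂ => τ ^ a

end Gen

/-! ### The vector extension attached to a family of directions -/

/-- the Lie algebra of the extension -/
abbrev Sp (d e : ℕ) : Type := E d × E e

/-- the index set of the projective coordinates -/
abbrev Ic (e M : ℕ) : Type := Option (Fin e) × Fin (M + 1)

variable {d M e : ℕ}

noncomputable def dir (σ : Fin e → E d) (t : E e) : E d := ∑ j, t j • σ j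

/-- the generating function of the Landau levels -/
noncomputable def Psi (A : VX d M) (σ : Fin e → E d) (c : Fin (M + 1)) (z : Sp d e) (t : E e) :
    ℂ :=
  A.θ (z.1 + dir σ t) c * cexp (-(z.2 ⬝ᵥ t))

/-- the Landau levels -/
noncomputable def lan (A : VX d M) (σ : Fin e → E d) (c : Fin (M + 1)) (j : ℕ) (t : E e)
    (z : Sp d e) : ℂ :=
  iteratedDeriv j (fun τ : ℂ => Psi A σ c z (τ • t)) 0

/-- the projective coordinates of the extension -/
noncomputable def Th (A : VX d M) (σ : Fin e → E d) (z : Sp d e) (i : Ic e M) : ℂ :=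
  match i.1 with
  | none => A.θ z.1 i.2
  | some j => lan A σ i.2 1 (Pi.single j 1) z

/-- the real section; it maps the periods of `A` to the periods of the extension -/
noncomputable def lift (A : VX d M) (σ : Fin e → E d) (x : E d) : Sp d e :=
  (x, fun j => A.H x ⬝ᵥ σ j)

/-- the periods of the extension -/
def Per (A : VX d M) (σ : Fin e → E d) : Set (Sp d e) := lift A σ '' (A.Λ : Set (E d))

/-- entire functions of weight `n` which are polynomials of degree at most `k` on the fibres -/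
structure InQ (A : VX d M) (σ : Fin e → E d) (n k : ℕ) (F : Sp d e → ℂ) : Prop where
  diff : Differentiable ℂ F
  aut : ∀ l ∈ A.Λ, ∀ z, F (z + lift A σ l) = cexp (A.H l ⬝ᵥ z.1 + A.β l) ^ n * F z
  poly : ∀ (z : Sp d e) (u : E e), ∃ p : Polynomial ℂ, p.natDegree ≤ k ∧
    ∀ τ : ℂ, F (z + τ • ((0, u) : Sp d e)) = p.eval τ

/-- the same, and locally rational in the projective coordinates -/
def InP (A : VX d M) (σ : Fin e → E d) (n k : ℕ) (F : Sp d e → ℂ) : Prop :=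
  InQ A σ n k F ∧ ∀ z₀, Loc (Th A σ) n F z₀

/-- a polynomial in the affine coordinates -/
noncomputable def Fp (A : VX d M) (σ : Fin e → E d) (P : MvPolynomial (Ic e M) ℂ) (z : Sp d e) :
    ℂ :=
  eval (fun i => Th A σ z i / A.θ z.1 0) P

/-- tangent spaces of abelian subvarieties -/
def Rat (A : VX d M) (U : Submodule ℂ (E d)) : Prop :=
  Submodule.span ℝ ((U : Set (E d)) ∩ (A.Λ : Set (E d))) = U.restrictScalars ℝ

/-- admissible subspaces -/
structure Adm (A : VX d M) (σ : Fin e → E d) (W : Submodule ℂ (Sp d e)) : Prop where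
  dim : e ≤ Module.finrank ℂ W
  hor : ∃ w ∈ W, w.1 ≠ 0
  top : ∀ U, Rat A U → U ≠ ⊥ → W ⊔ Submodule.span ℂ (lift A σ '' (U : Set (E d))) = ⊤

/-- the multiplicity estimate on the extension attached to `σ` -/
def ZES : Prop :=
  ∀ (d M : ℕ) (A : VX d M) (e : ℕ), ∃ C : ℕ, ∀ (σ : Fin e → E d) (W : Submodule ℂ (Sp d e))
    (D : ℕ) (F : Sp d e → ℂ), Adm A σ W → InP A σ 1 D F → Ord W F 0 (C * (D + 1)) → F = 0

/-- the span of the Landau levels of order at most `D` on the universal extension -/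
noncomputable def Lan (A : VX d M) (D : ℕ) : Submodule ℂ (E d × E d → ℂ) :=
  Submodule.span ℂ {f | ∃ (c : Fin (M + 1)) (j : ℕ) (s : E d), j ≤ D ∧ f = fun z =>
    iteratedDeriv j (fun τ : ℂ => A.θ (z.1 + τ • s) c * cexp (-(z.2 ⬝ᵥ τ • s))) 0}

/-- the multiplicity estimate on the universal extension -/
def ZE2S : Prop :=
  ∀ (d M : ℕ) (A : VX d M), ∃ C : ℕ, ∀ (W : Submodule ℂ (E d × E d)) (D : ℕ),
    d ≤ Module.finrank ℂ W → (∃ w ∈ W, w.1 ≠ 0) →
    (∀ U, Rat A U → U ≠ ⊥ →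
      W ⊔ Submodule.span ℂ ((fun x => (x, A.H x)) '' (U : Set (E d))) = ⊤) →
    ∀ f ∈ Lan A D, Ord W f 0 (C * (D + 1)) → f = 0

end Pool.Agent.Lib.MP_caab05_ag.ZE
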