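import Mathlib
import Pool.Agent.Lib.MP_caab05_ag.ZE.Defs
import Pool.Agent.Lib.MP_caab05_ag.LT.Iso1

/-! Statements of the steps of the multiplicity estimate on vector extensions. -/

namespace Pool.Agent.Lib.MP_caab05_ag.ZE

open MvPolynomial Filter Topology Asymptotics Complex
open Pool.Agent.Lib.MP_caab05_ag.LT (E AbVar Pol)
open Pool.Agent.Lib.MP_caab05_ag.LT.IsoAux (Ld)
open scoped Pointwise

/-! ### General statements -/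

/-- elementary Zariski topology -/
structure ZarP {Y ι : Type} [AddCommGroup Y] (Θ : Y → ι → ℂ) : Prop where
  univ : Irr Θ Set.univ
  add : ∀ V H, Irr Θ V → Irr Θ H → Irr Θ (V + H)
  dich : ∀ Z S : Set Y, (0 : Y) ∈ S → (∃ H ⊆ S, Irr Θ H ∧ (0 : Y) ∈ H ∧ ¬ H ⊆ Z) ∨
    ∃ (U : MvPolynomial ι ℂ) (k : ℕ), U.IsHomogeneous k ∧ ev Θ U 0 ≠ 0 ∧
      ∀ z ∈ S, z ∈ Z ∨ ev Θ U z = 0
  chain : ∀ n, HilB Θ n → ∀ V : ℕ → Set Y, (∀ i ≤ n + 1, Irr Θ (V i)) →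
    (∀ i ≤ n, V i ⊆ V (i + 1)) → (∀ i ≤ n, ¬ V (i + 1) ⊆ cl Θ (V i)) → False
  stab : ∀ (V : Set Y) (h : Y), (∀ v ∈ V, v + h ∈ cl Θ V) → ∀ z ∈ cl Θ V, z + h ∈ cl Θ V

def ZarS : Prop :=
  ∀ (Y ι : Type) [NormedAddCommGroup Y] [NormedSpace ℂ Y] [Fintype ι] (Θ : Y → ι → ℂ),
    Differentiable ℂ Θ → (∀ z, Θ z ≠ 0) → Transl Θ → ZarP Θ

/-- the algebra of locally rational functions -/
structure LocP {Y ι : Type} (Θ : Y → ι → ℂ) (z₀ : Y) : Prop where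
  form : ∀ (P : MvPolynomial ι ℂ) n, P.IsHomogeneous n → Loc Θ n (ev Θ P) z₀
  zero : ∀ n, Loc Θ n (fun _ => 0) z₀
  add : ∀ n F G, Loc Θ n F z₀ → Loc Θ n G z₀ → Loc Θ n (fun z => F z + G z) z₀
  smul : ∀ n (a : ℂ) F, Loc Θ n F z₀ → Loc Θ n (fun z => a * F z) z₀
  sum : ∀ n (κ : Type) (s : Finset κ) (F : κ → Y → ℂ), (∀ i ∈ s, Loc Θ n (F i) z₀) →
    Loc Θ n (fun z => ∑ i ∈ s, F i z) z₀
  mul : ∀ n m F G, Loc Θ n F z₀ → Loc Θ m G z₀ → Loc Θ (n + m) (fun z => F z * G z) z₀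
  div : ∀ n m F Q, Loc Θ m Q z₀ → Q z₀ ≠ 0 → Loc Θ (n + m) (fun z => Q z * F z) z₀ →
    Loc Θ n F z₀
  quo : ∀ (n m j : ℕ) (Q G : ℂ → Y → ℂ), (∀ z, Differentiable ℂ fun τ => Q τ z) →
    (∀ z, Differentiable ℂ fun τ => G τ z) → Q 0 z₀ ≠ 0 →
    (∀ i ≤ j, Loc Θ m (fun z => iteratedDeriv i (fun τ => Q τ z) 0) z₀) →
    (∀ i ≤ j, Loc Θ (n + m) (fun z => iteratedDeriv i (fun τ => Q τ z * G τ z) 0) z₀) →
    Loc Θ n (fun z => iteratedDeriv j (fun τ => G τ z) 0) z₀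
  zero_cl : ∀ n F (V : Set Y), Loc Θ n F z₀ → (∀ v ∈ V, F v = 0) → z₀ ∈ cl Θ V → F z₀ = 0

structure LocS : Prop where
  loc : ∀ (Y ι : Type) (Θ : Y → ι → ℂ) (z₀ : Y), LocP Θ z₀
  /-- derivatives of a holomorphic family of forms -/
  fam : ∀ (ι κ : Type) [Fintype ι] [Fintype κ] (B : MvPolynomial (ι ⊕ κ) ℂ) (k : ℕ),
    (∀ (r : ℂ) x y, eval (Sum.elim (r • x) y) B = r ^ k * eval (Sum.elim x y) B) →
    ∀ γ : ℂ → κ → ℂ, Differentiable ℂ γ →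
      (∀ x, Differentiable ℂ fun τ => eval (Sum.elim x (γ τ)) B) ∧
      ∀ j, ∃ G : MvPolynomial ι ℂ, G.IsHomogeneous k ∧
        ∀ x, eval x G = iteratedDeriv j (fun τ => eval (Sum.elim x (γ τ)) B) 0
  /-- derivatives in a parameter -/
  dif : ∀ (Y : Type) [NormedAddCommGroup Y] [NormedSpace ℂ Y] [FiniteDimensional ℂ Y]
    (G : Y × ℂ → ℂ), Differentiable ℂ G →
    ∀ j, Differentiable ℂ fun z => iteratedDeriv j (fun τ => G (z, τ)) 0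
  /-- derivatives of a family of polynomials of bounded degree -/
  pol : ∀ (G : ℂ → ℂ → ℂ) (k j : ℕ), (∀ ρ, Differentiable ℂ fun τ => G τ ρ) →
    (∀ τ, ∃ p : Polynomial ℂ, p.natDegree ≤ k ∧ ∀ ρ, G τ ρ = p.eval ρ) →
    ∃ p : Polynomial ℂ, p.natDegree ≤ k ∧ ∀ ρ, iteratedDeriv j (fun τ => G τ ρ) 0 = p.eval ρ

/-- the leading coefficient along a line is a finite difference -/
def LeadS : Prop :=
  ∀ (Y : Type) [AddCommGroup Y] [Module ℂ Y] (F : Y → ℂ) (n : Y) (D : ℕ), F ≠ 0 →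
    (∀ z, ∃ p : Polynomial ℂ, p.natDegree ≤ D ∧ ∀ τ : ℂ, F (z + τ • n) = p.eval τ) →
    ∃ j ≤ D, ∃ (a : ℕ → ℂ) (F' : Y → ℂ), F' ≠ 0 ∧ (∀ z (τ : ℂ), F' (z + τ • n) = F' z) ∧
      ∀ z (h : ℂ), h ^ j * F' z = ∑ i ∈ Finset.range (j + 1), a i * F (z + ((i : ℂ) * h) • n)

/-- closed subgroups containing the periods -/
def GrpS : Prop :=
  ∀ (d M : ℕ) (A : VX d M) (G : AddSubgroup (E d)), IsClosed (G : Set (E d)) →
    (∀ l ∈ A.Λ, l ∈ G) → (∀ u : E d, (∀ t : ℝ, t • u ∈ G) → ∀ τ : ℂ, τ • u ∈ G) →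
    (∃ U, Rat A U ∧ U ≠ ⊥ ∧ ∀ u ∈ U, u ∈ G) ∨
      ∃ F : Set (E d), F.Finite ∧ ∀ g ∈ G, ∃ f ∈ F, g - f ∈ A.Λ

/-- approximation of linear forms by polynomials in the coordinates of an immersion -/
def ApprS : Prop :=
  ∀ (Y ι : Type) [NormedAddCommGroup Y] [NormedSpace ℂ Y] [FiniteDimensional ℂ Y] [Fintype ι]
    (f : Y → ι → ℂ), (∀ᶠ z in 𝓝 (0 : Y), DifferentiableAt ℂ f z) →
    Function.Injective (fderiv ℂ f 0) → ∀ (l : Y →ₗ[ℂ] ℂ) (T : ℕ), ∃ p : MvPolynomial ι ℂ,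
      ∀ u v, Ld (fun τ => eval (f (gam T u v τ)) p - l u * τ) (l v) (T + 1)

/-- many polynomials which are independent modulo a high order of vanishing -/
def CntS : Prop :=
  ∀ (Y ι : Type) [NormedAddCommGroup Y] [NormedSpace ℂ Y] [FiniteDimensional ℂ Y] [Fintype ι]
    (f : Y → ι → ℂ), (∀ᶠ z in 𝓝 (0 : Y), DifferentiableAt ℂ f z) →
    Function.Injective (fderiv ℂ f 0) → ∀ (W : Submodule ℂ Y) (T s : ℕ),
    ∃ (κ : Type) (_ : Fintype κ) (P : κ → MvPolynomial ι ℂ),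
      Fintype.card κ = s ^ Module.finrank ℂ Y * (T + 1) ^ Module.finrank ℂ W ∧
      ∀ c : κ → ℂ, Jf W T ((Module.finrank ℂ Y * s + 1) * (T + 1))
        (fun z => ∑ α, c α * eval (f z) (P α)) → c = 0

/-! ### The extension -/

variable {d M e : ℕ}

/-- the affine coordinates -/
noncomputable def aff (A : VX d M) (σ : Fin e → E d) (z : Sp d e) (i : Ic e M) : ℂ :=
  Th A σ z i / A.θ z.1 0

/-- elementary facts -/
structure BasP (A : VX d M) (σ : Fin e → E d) : Prop where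
  th_some : ∀ z j c, Th A σ z (some j, c) = fderiv ℂ A.θ z.1 (σ j) c - z.2 j * A.θ z.1 c
  diff : Differentiable ℂ (Th A σ)
  ne : ∀ z, Th A σ z ≠ 0
  psi_aut : ∀ l ∈ A.Λ, ∀ c z t,
    Psi A σ c (z + lift A σ l) t = cexp (A.H l ⬝ᵥ z.1 + A.β l) * Psi A σ c z t
  aut : ∀ l ∈ A.Λ, ∀ z, Th A σ (z + lift A σ l) = cexp (A.H l ⬝ᵥ z.1 + A.β l) • Th A σ z
  lift_add : ∀ x y, lift A σ (x + y) = lift A σ x + lift A σ y
  lift_smul : ∀ (t : ℝ) x, lift A σ (t • x) = (t : ℂ) • lift A σ x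
  lift_cont : Continuous (lift A σ)
  form : ∀ (P : MvPolynomial (Ic e M) ℂ) m, P.IsHomogeneous m → InP A σ m m (ev (Th A σ) P)
  theta : ∀ c, InP A σ 1 0 fun z => A.θ z.1 c
  qzero : ∀ n k, InQ A σ n k fun _ => 0
  qone : InQ A σ 0 0 fun _ => 1
  qadd : ∀ n k F G, InQ A σ n k F → InQ A σ n k G → InQ A σ n k fun z => F z + G z
  qsmul : ∀ n k (a : ℂ) F, InQ A σ n k F → InQ A σ n k fun z => a * F z
  qsum : ∀ n k (κ : Type) (s : Finset κ) (F : κ → Sp d e → ℂ), (∀ i ∈ s, InQ A σ n k (F i)) →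
    InQ A σ n k fun z => ∑ i ∈ s, F i z
  qmul : ∀ n k m l F G, InQ A σ n k F → InQ A σ m l G →
    InQ A σ (n + m) (k + l) fun z => F z * G z
  qmono : ∀ n k l F, k ≤ l → InQ A σ n k F → InQ A σ n l F
  /-- translation along the fibres -/
  qvt : ∀ n k F (u : E e), InQ A σ n k F → InQ A σ n k fun z => F (z + (0, u))
  vt : ∀ n k F (u : E e), InP A σ n k F → InP A σ n k fun z => F (z + (0, u))

def BasS : Prop := ∀ (d M e : ℕ) (A : VX d M) (σ : Fin e → E d), BasP A σ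

/-- the addition formula and the Wronskians -/
structure AddP (A : VX d M) (σ : Fin e → E d) : Prop where
  add : ∃ B : Ic e M → Fin (M + 1) → MvPolynomial (Ic e M ⊕ Ic e M) ℂ,
    (∀ i b (r : ℂ) x y, eval (Sum.elim (r • x) y) (B i b) = r ^ 2 * eval (Sum.elim x y) (B i b)) ∧
    ∀ i b z v, Th A σ (z + v) i * A.θ (z.1 - v.1) b = eval (Sum.elim (Th A σ z) (Th A σ v)) (B i b)
  wr : ∀ (s : E d) a c, ∃ R : Pol M, R.IsHomogeneous 2 ∧ ∀ x,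
    A.θ x a * fderiv ℂ A.θ x s c - A.θ x c * fderiv ℂ A.θ x s a = eval (A.θ x) R

def AddS : Prop := ∀ (d M e : ℕ) (A : VX d M) (σ : Fin e → E d), AddP A σ

/-- translates -/
structure TrP (A : VX d M) (σ : Fin e → E d) : Prop where
  transl : Transl (Th A σ)
  tr : ∀ k F, InP A σ 1 k F → ∀ (v w : Sp d e) b j, InP A σ 2 k fun z =>
    iteratedDeriv j (fun τ : ℂ => F (z + v + τ • w) * A.θ (z.1 - v.1 - τ • w.1) b) 0

def TrS : Prop := ∀ (d M e : ℕ) (A : VX d M) (σ : Fin e → E d), TrP A σ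

/-- the Landau levels are locally rational -/
def LanS : Prop :=
  ∀ (d M e : ℕ) (A : VX d M) (σ : Fin e → E d) c j t, InP A σ 1 j (lan A σ c j t)

/-- the dimension of the space of theta functions of weight `n` -/
def Hil0S : Prop :=
  ∀ (d M : ℕ) (A : VX d M), ∃ C : ℝ, 1 ≤ C ∧ ∀ (n : ℕ) (κ : Type) [Fintype κ]
    (F : κ → E d → ℂ), (∀ i, Differentiable ℂ (F i)) →
    (∀ i, ∀ l ∈ A.Λ, ∀ z, F i (z + l) = cexp (A.H l ⬝ᵥ z + A.β l) ^ n * F i z) →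
    LinearIndependent ℂ F → (Fintype.card κ : ℝ) ≤ C * ((n : ℝ) + 1) ^ d

/-- the order at the origin of a theta function of weight one -/
def Top0S : Prop :=
  ∀ (d M : ℕ) (A : VX d M), ∃ C : ℕ, ∀ (F : E d → ℂ) (m : ℕ), Differentiable ℂ F →
    (∀ l ∈ A.Λ, ∀ z, F (z + l) = cexp (A.H l ⬝ᵥ z + A.β l) * F z) → F ≠ 0 →
    Ord ⊤ F 0 m → m ≤ C

/-- the Hilbert function in two variables -/
def HilS : Prop :=
  ∀ (d M : ℕ) (A : VX d M), ∃ C : ℝ, 1 ≤ C ∧ ∀ (e : ℕ) (σ : Fin e → E d) (n k : ℕ) (κ : Type)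
    [Fintype κ] (F : κ → Sp d e → ℂ), (∀ i, InQ A σ n k (F i)) → LinearIndependent ℂ F →
    (Fintype.card κ : ℝ) ≤ C * ((n : ℝ) + 1) ^ d * ((k : ℝ) + 1) ^ e

/-- the order at the origin along all lines -/
def TopS : Prop :=
  ∀ (d M : ℕ) (A : VX d M), ∃ C : ℕ, ∀ (e : ℕ) (σ : Fin e → E d) (D m : ℕ) (F : Sp d e → ℂ),
    InQ A σ 1 D F → F ≠ 0 → Ord ⊤ F 0 m → m ≤ C + e * D

/-- passage to the quotient by a line of the fibre -/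
def DescS : Prop :=
  ∀ (d M e : ℕ) (A : VX d M) (σ : Fin (e + 1) → E d) (n : E (e + 1)), n ≠ 0 →
    ∃ (σ' : Fin e → E d) (π : Sp d (e + 1) →ₗ[ℂ] Sp d e),
      (∀ W, Adm A σ W → Adm A σ' (W.map π)) ∧
      ∀ k F, InP A σ 1 k F → (∀ z (τ : ℂ), F (z + τ • ((0, n) : Sp d (e + 1))) = F z) →
        ∃ F', InP A σ' 1 k F' ∧ ∀ z, F z = F' (π z)

/-- the fibre component of an element of the stabiliser generates a line of the stabiliser -/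
def LineS : Prop :=
  ∀ (d M e : ℕ) (A : VX d M) (σ : Fin e → E d) (V : Set (Sp d e)) (x : E d) (n : E e),
    (∀ z ∈ cl (Th A σ) V, z + (lift A σ x + (0, n)) ∈ cl (Th A σ) V) →
    ∀ z ∈ cl (Th A σ) V, ∀ τ : ℂ, z + τ • ((0, n) : Sp d e) ∈ cl (Th A σ) V

/-- the structure of the stabiliser -/
def StabS : Prop :=
  ∀ (d M e : ℕ) (A : VX d M) (σ : Fin e → E d) (V : Set (Sp d e)),
    (∃ n : E e, n ≠ 0 ∧ ∀ z ∈ cl (Th A σ) V, ∀ τ : ℂ, z + τ • ((0, n) : Sp d e) ∈ cl (Th A σ) V) ∨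
    (∃ U, Rat A U ∧ U ≠ ⊥ ∧ ∀ x ∈ Submodule.span ℂ (lift A σ '' (U : Set (E d))),
      ∀ z ∈ cl (Th A σ) V, z + x ∈ cl (Th A σ) V) ∨
    ∀ H, Irr (Th A σ) H → (0 : Sp d e) ∈ H → V + H ⊆ cl (Th A σ) V → H ⊆ Per A σ

/-- equations for the points where the order is large -/
def EqsS : Prop :=
  ∀ (d M e : ℕ) (A : VX d M) (σ : Fin e → E d) (D : ℕ) (F : Sp d e → ℂ), InP A σ 1 D F →
    ∀ (W : Submodule ℂ (Sp d e)) (v : Sp d e) (N : ℕ), ∃ 𝒢 : Set (Sp d e → ℂ),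
      (∀ G ∈ 𝒢, InP A σ 2 D G) ∧ (∀ z, (∀ G ∈ 𝒢, G z = 0) ↔ Ord W F (z + v) N) ∧
      ∀ T, Ord W F v (N + T) → ∀ G ∈ 𝒢, Ord W G 0 (T + 1)

/-- the affine chart at the origin -/
structure ChartP (A : VX d M) (σ : Fin e → E d) : Prop where
  dif : ∀ᶠ z in 𝓝 (0 : Sp d e), DifferentiableAt ℂ (aff A σ) z
  imm : Function.Injective (fderiv ℂ (aff A σ) 0)
  img : ∃ S : Set (MvPolynomial (Ic e M) ℂ),
    (∀ P ∈ S, ∀ z : Sp d e, A.θ z.1 0 ≠ 0 → eval (aff A σ z) P = 0) ∧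
    ∀ x, (∀ P ∈ S, eval x P = 0) → ∃ z : Sp d e, A.θ z.1 0 ≠ 0 ∧ x = aff A σ z

def ChartS : Prop := ∀ (d M e : ℕ) (A : VX d M) (σ : Fin e → E d), ChartP A σ

/-- the origin is an isolated zero of the equations `𝒢`, which vanish to order `T + 1` -/
structure Isol (A : VX d M) (σ : Fin e → E d) (W : Submodule ℂ (Sp d e)) (T D : ℕ)
    (𝒢 : Set (Sp d e → ℂ)) : Prop where
  mem : ∀ G ∈ 𝒢, InP A σ 2 D G
  ord : ∀ G ∈ 𝒢, Ord W G 0 (T + 1)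
  iso : ∃ (U : MvPolynomial (Ic e M) ℂ) (k : ℕ), U.IsHomogeneous k ∧ ev (Th A σ) U 0 ≠ 0 ∧
    ∀ z, (∀ G ∈ 𝒢, G z = 0) → z ∈ Per A σ ∨ ev (Th A σ) U z = 0

/-- the Nullstellensatz step: representation with a fixed degree modulo the equations -/
def Null1S : Prop :=
  ∀ (d M e : ℕ) (A : VX d M) (σ : Fin e → E d) (W : Submodule ℂ (Sp d e)) (T D : ℕ)
    (𝒢 : Set (Sp d e → ℂ)), Isol A σ W T D 𝒢 → ∃ s₁ : ℕ, ∀ (a : ℕ) (P : MvPolynomial (Ic e M) ℂ),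
      ∃ (P₀ : MvPolynomial (Ic e M) ℂ) (m : ℕ) (Q : Fin m → MvPolynomial (Ic e M) ℂ)
        (G : Fin m → Sp d e → ℂ), P₀.IsHomogeneous s₁ ∧ (∀ i, G i ∈ 𝒢) ∧
        Jf W T a fun z => Fp A σ P z - Fp A σ P₀ z - ∑ i, Fp A σ (Q i) z * (G i z / A.θ z.1 0 ^ 2)

/-- reduction to functions of controlled bidegree -/
def NullS : Prop :=
  ∀ (d M e : ℕ) (A : VX d M) (σ : Fin e → E d) (W : Submodule ℂ (Sp d e)) (T D : ℕ)
    (𝒢 : Set (Sp d e → ℂ)), Isol A σ W T D 𝒢 → ∃ s₁ : ℕ, ∀ (s : ℕ) (P : MvPolynomial (Ic e M) ℂ),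
      ∃ F, InQ A σ (s₁ + 2 * s) (s₁ + D * s) F ∧
        Jf W T (s * (T + 1)) fun z => Fp A σ P z - F z / A.θ z.1 0 ^ (s₁ + 2 * s)

/-- the multiplicity of an isolated zero -/
def IsoS : Prop :=
  ∀ (d M : ℕ) (A : VX d M) (e : ℕ), ∃ C : ℕ, ∀ (σ : Fin e → E d) (W : Submodule ℂ (Sp d e))
    (T D : ℕ) (𝒢 : Set (Sp d e → ℂ)), Isol A σ W T D 𝒢 →
    (T + 1) ^ Module.finrank ℂ W ≤ C * (D + 1) ^ e

end Pool.Agent.Lib.MP_caab05_ag.ZE
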