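import Mathlib
import Pool.Agent.Lib.MP_caab05_ag.ZE.Stmt

/-! The addition formula on the extension and the Wronskians. -/

namespace Pool.Agent.Lib.MP_caab05_ag.ZE

open MvPolynomial Filter Topology Asymptotics Complex
open Pool.Agent.Lib.MP_caab05_ag.LT (E AbVar Pol)

namespace AddAux

lemma hasDerivAt_eval {κ : Type} [Fintype κ] (P : MvPolynomial κ ℂ) (γ : ℂ → κ → ℂ)
    (γ' : κ → ℂ) (t : ℂ) (h : ∀ i, HasDerivAt (fun τ => γ τ i) (γ' i) t) :
    HasDerivAt (fun τ => eval (γ τ) P) (∑ i, eval (γ t) (pderiv i P) * γ' i) t := by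
  classical
  induction P using MvPolynomial.induction_on with
  | C a => simpa using hasDerivAt_const t a
  | add p q hp hq =>
    simp only [map_add, add_mul, Finset.sum_add_distrib]
    exact hp.add hq
  | mul_X p i hp =>
    have e : ∀ j, eval (γ t) (pderiv j (p * X i)) * γ' j =
        eval (γ t) (pderiv j p) * γ' j * γ t i + if i = j then eval (γ t) p * γ' j else 0 := by
      intro j
      rw [pderiv_mul, pderiv_X]
      by_cases hij : i = j
      · subst hij
        simp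
        ring
      · simp [hij]
        ring
    simp only [e, Finset.sum_add_distrib, Finset.sum_ite_eq, Finset.mem_univ, if_true,
      ← Finset.sum_mul, map_mul, eval_X]
    exact hp.mul (h i)

variable {d M e : ℕ}

/-- the variables of one level -/
def lev (o : Option (Fin e)) : Fin (M + 1) ⊕ Fin (M + 1) → Ic e M ⊕ Ic e M :=
  Sum.map (fun a => (o, a)) (fun a => (o, a))

/-- the derived addition polynomial -/
noncomputable def der (j : Fin e) (B : MvPolynomial (Fin (M + 1) ⊕ Fin (M + 1)) ℂ) :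
    MvPolynomial (Ic e M ⊕ Ic e M) ℂ :=
  ∑ k, rename (lev none) (pderiv k B) * (C (1 / 2 : ℂ) * X (lev (some j) k))

lemma hasDerivAt_der (j : Fin e) (B : MvPolynomial (Fin (M + 1) ⊕ Fin (M + 1)) ℂ)
    (w : Ic e M ⊕ Ic e M → ℂ) (γ : ℂ → Fin (M + 1) ⊕ Fin (M + 1) → ℂ)
    (h0 : γ 0 = w ∘ lev none)
    (h : ∀ k, HasDerivAt (fun τ => γ τ k) (1 / 2 * w (lev (some j) k)) 0) :
    HasDerivAt (fun τ => eval (γ τ) B) (eval w (der j B)) 0 := by
  have h1 := hasDerivAt_eval B γ _ 0 h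
  rw [h0] at h1
  simpa only [der, map_sum, map_mul, eval_rename, eval_C, eval_X] using h1

lemma line (x y : ℂ) : HasDerivAt (fun τ : ℂ => x + τ * y) y 0 := by
  simpa using ((hasDerivAt_id (0 : ℂ)).mul_const y).const_add x

lemma der_scal (j : Fin e) (B : MvPolynomial (Fin (M + 1) ⊕ Fin (M + 1)) ℂ)
    (hB : ∀ (r : ℂ) x y, eval (Sum.elim (r • x) y) B = r ^ 2 * eval (Sum.elim x y) B)
    (r : ℂ) (x y : Ic e M → ℂ) :
    eval (Sum.elim (r • x) y) (der j B) = r ^ 2 * eval (Sum.elim x y) (der j B) := by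
  have key : ∀ x : Ic e M → ℂ, HasDerivAt (fun τ : ℂ => eval (Sum.elim
      (fun a => x (none, a) + τ * (1 / 2 * x (some j, a)))
      (fun a => y (none, a) + τ * (1 / 2 * y (some j, a)))) B)
      (eval (Sum.elim x y) (der j B)) 0 := by
    intro x
    refine hasDerivAt_der j B _ _ ?_ ?_
    · funext k
      rcases k with a | a <;> simp [lev]
    · rintro (a | a)
      · exact line _ _
      · exact line _ _
  refine (key (r • x)).unique ?_
  refine ((key x).const_mul (r ^ 2)).congr_of_eventuallyEq (Eventually.of_forall fun τ => ?_)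
  simp only
  rw [← hB]
  congr 3
  funext a
  simp only [Pi.smul_apply, smul_eq_mul]
  ring

lemma theta_line (A : VX d M) (x s : E d) (c : Fin (M + 1)) (a : ℂ) :
    HasDerivAt (fun τ : ℂ => A.θ (x + (τ * a) • s) c) (a * fderiv ℂ A.θ x s c) 0 := by
  have h1 : HasDerivAt (fun τ : ℂ => x + (τ * a) • s) (a • s) 0 := by
    simpa using (((hasDerivAt_id (0 : ℂ)).mul_const a).smul_const s).const_add x
  have h2 : HasFDerivAt A.θ (fderiv ℂ A.θ x) ((fun τ : ℂ => x + (τ * a) • s) 0) := by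
    simpa using (A.holo x).hasFDerivAt
  have h3 := hasDerivAt_pi.1 (h2.comp_hasDerivAt (0 : ℂ) h1) c
  simpa using h3

/-- the generating function along one direction -/
noncomputable def gen (A : VX d M) (σ : Fin e → E d) (j : Fin e) (z : Sp d e) (a τ : ℂ)
    (c : Fin (M + 1)) : ℂ :=
  cexp (-(τ * a * z.2 j)) * A.θ (z.1 + (τ * a) • σ j) c

lemma gen_deriv (A : VX d M) (σ : Fin e → E d) (hb : BasP A σ) (j : Fin e) (z : Sp d e) (a : ℂ)
    (c : Fin (M + 1)) :
    HasDerivAt (fun τ => gen A σ j z a τ c) (a * Th A σ z (some j, c)) 0 := by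
  have h1 : HasDerivAt (fun τ : ℂ => -(τ * a * z.2 j)) (-(a * z.2 j)) 0 := by
    simpa using (((hasDerivAt_id (0 : ℂ)).mul_const a).mul_const (z.2 j)).fun_neg
  have h2 := h1.cexp.fun_mul (theta_line A z.1 (σ j) c a)
  rw [hb.th_some]
  refine h2.congr_deriv ?_
  simp
  ring

lemma gen_add (A : VX d M) (σ : Fin e → E d) (j : Fin e) (z v : Sp d e) (τ : ℂ)
    (c b : Fin (M + 1)) :
    gen A σ j (z + v) 1 τ c * A.θ (z.1 - v.1) b =
      eval (Sum.elim (gen A σ j z (1 / 2) τ) (gen A σ j v (1 / 2) τ)) (A.B c b) := by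
  have e : ∀ z : Sp d e, gen A σ j z (1 / 2) τ =
      cexp (-(τ * (1 / 2) * z.2 j)) • A.θ (z.1 + (τ * (1 / 2)) • σ j) := fun z => rfl
  rw [e, e, A.scal, ← A.add2]
  have e1 : z.1 + (τ * (1 / 2)) • σ j + (v.1 + (τ * (1 / 2)) • σ j) =
      (z + v).1 + (τ * 1) • σ j := by
    rw [Prod.fst_add]
    module
  have e2 : z.1 + (τ * (1 / 2)) • σ j - (v.1 + (τ * (1 / 2)) • σ j) = z.1 - v.1 := by
    module
  have e3 : cexp (-(τ * (1 / 2) * z.2 j)) ^ 2 * cexp (-(τ * (1 / 2) * v.2 j)) ^ 2 =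
      cexp (-(τ * 1 * (z + v).2 j)) := by
    rw [← Complex.exp_nat_mul, ← Complex.exp_nat_mul, ← Complex.exp_add, Prod.snd_add,
      Pi.add_apply]
    congr 1
    push_cast
    ring
  rw [e1, e2, e3, gen, mul_assoc]

lemma scal1 (A : VX d M) (a b : Fin (M + 1)) (r : ℂ) (x y : Fin (M + 1) → ℂ) :
    eval (Sum.elim (r • x) y) (A.B a b) = r ^ 2 * eval (Sum.elim x y) (A.B a b) := by
  simpa using A.scal a b r 1 x y

/-- the addition polynomials of the extension -/
noncomputable def BB (A : VX d M) (i : Ic e M) (b : Fin (M + 1)) :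
    MvPolynomial (Ic e M ⊕ Ic e M) ℂ :=
  match i.1 with
  | none => rename (lev none) (A.B i.2 b)
  | some j => der j (A.B i.2 b)

lemma elim_lev (x y : Ic e M → ℂ) (o : Option (Fin e)) :
    Sum.elim x y ∘ lev o = Sum.elim (fun a => x (o, a)) (fun a => y (o, a)) := by
  funext k
  rcases k with a | a <;> rfl

lemma add (A : VX d M) (σ : Fin e → E d) (hb : BasP A σ) :
    ∃ B : Ic e M → Fin (M + 1) → MvPolynomial (Ic e M ⊕ Ic e M) ℂ,
      (∀ i b (r : ℂ) x y,
        eval (Sum.elim (r • x) y) (B i b) = r ^ 2 * eval (Sum.elim x y) (B i b)) ∧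
      ∀ i b z v,
        Th A σ (z + v) i * A.θ (z.1 - v.1) b = eval (Sum.elim (Th A σ z) (Th A σ v)) (B i b) := by
  refine ⟨BB A, ?_, ?_⟩
  · rintro ⟨_ | j, c⟩ b r x y
    · simp only [BB, eval_rename, elim_lev]
      exact scal1 A c b r (fun a => x (none, a)) _
    · exact der_scal j _ (scal1 A c b) r x y
  · rintro ⟨_ | j, c⟩ b z v
    · simp only [BB, eval_rename, elim_lev]
      exact A.add2 z.1 v.1 c b
    · have h1 := (gen_deriv A σ hb j (z + v) 1 c).mul_const (A.θ (z.1 - v.1) b)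
      rw [one_mul] at h1
      refine h1.unique ?_
      simp only [gen_add]
      refine hasDerivAt_der j _ _ _ ?_ ?_
      · funext k
        rcases k with a | a <;> simp [gen, lev, Th]
      · rintro (a | a)
        · exact gen_deriv A σ hb j z (1 / 2) a
        · exact gen_deriv A σ hb j v (1 / 2) a

lemma wr (h : LocS) (A : VX d M) (s : E d) (a c : Fin (M + 1)) :
    ∃ R : Pol M, R.IsHomogeneous 2 ∧ ∀ x,
      A.θ x a * fderiv ℂ A.θ x s c - A.θ x c * fderiv ℂ A.θ x s a = eval (A.θ x) R := by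
  have hγ : Differentiable ℂ fun τ : ℂ => A.θ (τ • s) :=
    A.holo.comp (differentiable_id.smul_const s)
  obtain ⟨G, hG, hG'⟩ := (h.fam _ _ (A.B c a) 2 (scal1 A c a) _ hγ).2 1
  refine ⟨G, hG, fun x => ?_⟩
  rw [hG', iteratedDeriv_one]
  have h1 := (theta_line A x s c 1).mul (theta_line A x s a (-1))
  have e : (fun τ : ℂ => eval (Sum.elim (A.θ x) (A.θ (τ • s))) (A.B c a)) =
      (fun τ : ℂ => A.θ (x + (τ * 1) • s) c) * fun τ : ℂ => A.θ (x + (τ * -1) • s) a := by
    funext τ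
    rw [← A.add2, Pi.mul_apply, mul_one, mul_neg_one, neg_smul, sub_eq_add_neg]
  rw [e, h1.deriv]
  simp
  ring

end AddAux

theorem addS (h : LocS) (hb : BasS) : AddS := fun d M e A σ =>
  ⟨AddAux.add A σ (hb d M e A σ), AddAux.wr h A⟩

end Pool.Agent.Lib.MP_caab05_ag.ZE
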