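import Pool.Agent.Lib.MP_caab05_ag.ZE.Stmt
import Pool.Agent.Lib.MP_caab05_ag.GB.Osg

/-! Approximation of linear forms by polynomials in the coordinates of an immersion. -/

namespace Pool.Agent.Lib.MP_caab05_ag.ZE

open MvPolynomial Filter Topology Asymptotics Complex
open Pool.Agent.Lib.MP_caab05_ag.LT (E AbVar Pol)
open Pool.Agent.Lib.MP_caab05_ag.LT.IsoAux (Ld ld_of_isBigO ld_of_hasDerivAt pow_isBigO)

namespace ApprAux

variable {Y ι : Type} [NormedAddCommGroup Y] [NormedSpace ℂ Y]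

lemma line_tendsto (u : Y) : Tendsto (fun τ : ℂ => τ • u) (𝓝 0) (𝓝 0) :=
  (continuous_id.smul continuous_const).tendsto' 0 0 (by simp)

lemma line_deriv (u : Y) (τ : ℂ) : HasDerivAt (fun τ : ℂ => τ • u) u τ := by
  simpa using (hasDerivAt_id τ).smul_const u

lemma line_analytic {φ : Y → ℂ} (h : ∀ᶠ z in 𝓝 (0 : Y), DifferentiableAt ℂ φ z) (u : Y) :
    AnalyticAt ℂ (fun τ : ℂ => φ (τ • u)) 0 :=
  Complex.analyticAt_iff_eventually_differentiableAt.2 <|
    ((line_tendsto u).eventually h).mono fun τ h =>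
      DifferentiableAt.comp (g := φ) τ h (line_deriv u τ).differentiableAt

lemma gam_tendsto (T : ℕ) (u v : Y) : Tendsto (gam T u v) (𝓝 0) (𝓝 0) :=
  Continuous.tendsto' (by unfold gam; fun_prop) 0 0 (by simp [gam])

lemma pair_tendsto (T : ℕ) (u v : Y) :
    Tendsto (fun τ : ℂ => (gam T u v τ, τ • u)) (𝓝 0) (𝓝 (0, 0)) :=
  (gam_tendsto T u v).prodMk_nhds (line_tendsto u)

lemma smul_isBigO (k : ℕ) (v : Y) :
    (fun τ : ℂ => τ ^ k • v) =O[𝓝 0] fun τ : ℂ => τ ^ k :=
  IsBigO.of_bound ‖v‖ (Eventually.of_forall fun τ => by rw [norm_smul, mul_comm])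

lemma gam_sub (T : ℕ) (u v : Y) :
    (fun τ : ℂ => gam T u v τ - τ • u) =O[𝓝 0] fun τ : ℂ => τ ^ (T + 1) :=
  (smul_isBigO (T + 1) v).congr_left fun τ => by simp [gam]

/-- the Taylor coefficients along lines are forms in the coordinates of the direction -/
lemma jet [FiniteDimensional ℂ Y] {n : ℕ} (b : Module.Basis (Fin n) ℂ Y) {φ : Y → ℂ}
    (h : ∀ᶠ z in 𝓝 (0 : Y), DifferentiableAt ℂ φ z) (j : ℕ) :
    ∃ c : (Fin j → Fin n) → ℂ, ∀ u : Y, iteratedDeriv j (fun τ : ℂ => φ (τ • u)) 0 =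
      ∑ r, c r * ∏ k, b.coord (r k) u := by
  obtain ⟨U, hU, hO, h0⟩ := eventually_nhds_iff.1 h
  refine ⟨fun r => iteratedFDeriv ℂ j φ 0 fun k => b (r k), fun u => ?_⟩
  have h1 := GB.OsgAux.line hO (fun z hz => (hU z hz).differentiableWithinAt) 0 u j 0
    (by simpa using h0)
  simp only [zero_add, zero_smul] at h1
  rw [h1]
  have h2 : (fun _ : Fin j => u) = fun _ => ∑ i, b.coord i u • b i := by
    funext k
    exact (b.sum_repr u).symm
  rw [h2, ContinuousMultilinearMap.map_sum]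
  refine Finset.sum_congr rfl fun r _ => ?_
  rw [ContinuousMultilinearMap.map_smul_univ, smul_eq_mul, mul_comm]

variable [Fintype ι] {f : Y → ι → ℂ}

lemma ev_diff (hf : ∀ᶠ z in 𝓝 (0 : Y), DifferentiableAt ℂ f z) (P : MvPolynomial ι ℂ) :
    ∀ᶠ z in 𝓝 (0 : Y), DifferentiableAt ℂ (fun z => eval (f z) P) z :=
  hf.mono fun z hz => (LT.differentiable_eval P (f z)).comp z hz

lemma approx_one (hf : ∀ᶠ z in 𝓝 (0 : Y), DifferentiableAt ℂ f z)
    (hi : Function.Injective (fderiv ℂ f 0)) (l : Y →ₗ[ℂ] ℂ) :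
    ∃ g : MvPolynomial ι ℂ, ∀ u : Y, Ld (fun τ => eval (f (τ • u)) g) (l u) 1 := by
  classical
  obtain ⟨L, hL⟩ := (fderiv ℂ f 0).toLinearMap.exists_leftInverse_of_injective
    (LinearMap.ker_eq_bot.2 hi)
  let lL : (ι → ℂ) →L[ℂ] ℂ := LinearMap.toContinuousLinearMap (l ∘ₗ L)
  refine ⟨∑ i, C (lL (Pi.single i 1)) * (X i - C (f 0 i)), fun u => ?_⟩
  have h1 : ∀ z, eval (f z) (∑ i, C (lL (Pi.single i 1)) * (X i - C (f 0 i)))
      = lL (f z - f 0) := fun z => by
    conv_rhs => rw [pi_eq_sum_univ' (f z - f 0), map_sum]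
    simp [mul_comm]
  simp only [h1]
  refine ld_of_hasDerivAt ?_ (by simp)
  have h2 : HasFDerivAt f (fderiv ℂ f 0) ((0 : ℂ) • u) := by
    rw [zero_smul]; exact hf.self_of_nhds.hasFDerivAt
  have h3 := lL.hasFDerivAt.comp_hasDerivAt (0 : ℂ)
    ((h2.comp_hasDerivAt (0 : ℂ) (line_deriv u 0)).sub_const (f 0))
  refine h3.congr_deriv ?_
  exact congrArg l (LinearMap.congr_fun hL u)

lemma approx [FiniteDimensional ℂ Y] (hf : ∀ᶠ z in 𝓝 (0 : Y), DifferentiableAt ℂ f z)
    (hi : Function.Injective (fderiv ℂ f 0)) (l : Y →ₗ[ℂ] ℂ) (a : ℕ) :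
    ∃ p : MvPolynomial ι ℂ, ∀ u : Y, Ld (fun τ => eval (f (τ • u)) p - l u * τ) 0 (a + 1) := by
  induction a with
  | zero =>
    obtain ⟨g, hg⟩ := approx_one hf hi l
    exact ⟨g, fun u => by simpa [Ld] using hg u⟩
  | succ a ih =>
    obtain ⟨p, hp⟩ := ih
    let b := Module.finBasis ℂ Y
    choose g hg using fun j => approx_one hf hi (b.coord j)
    obtain ⟨c, hc⟩ := jet b (ev_diff hf p) (a + 2)
    have h1 : ∀ u : Y, Ld (fun τ => eval (f (τ • u)) p - l u * τ)
        (∑ r, c r / ((a + 2).factorial : ℂ) * ∏ k, b.coord (r k) u) (a + 2) := fun u => by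
      have hl : AnalyticAt ℂ (fun τ : ℂ => l u * τ) 0 := by fun_prop
      have hp' := line_analytic (ev_diff hf p) u
      have han := hp'.sub hl
      have h2 := ld_of_isBigO han ((hp u).isBigO_succ han)
      rw [iteratedDeriv_sub hp'.contDiffAt hl.contDiffAt, hc u,
        iteratedDeriv_const_mul_field, iteratedDeriv_fun_id_zero, if_neg (by omega)] at h2
      have h3 : (∑ r, c r / ((a + 2).factorial : ℂ) * ∏ k, b.coord (r k) u) =
          (∑ r, c r * ∏ k, b.coord (r k) u - l u * 0) / ((a + 1 + 1).factorial : ℂ) := by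
        rw [mul_zero, sub_zero, Finset.sum_div]
        exact Finset.sum_congr rfl fun r _ => by ring
      rw [h3]; exact h2
    refine ⟨p - ∑ r, C (c r / ((a + 2).factorial : ℂ)) * ∏ k, g (r k), fun u => ?_⟩
    have h2 : Ld (fun τ => ∑ r, c r / ((a + 2).factorial : ℂ) * ∏ k, eval (f (τ • u)) (g (r k)))
        (∑ r, c r / ((a + 2).factorial : ℂ) * ∏ k, b.coord (r k) u) (a + 2) := by
      refine Ld.sum _ fun r _ => Ld.const_mul ?_ _
      have h4 := Ld.prod Finset.univ fun (k : Fin (a + 2)) _ => hg (r k) u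
      simpa using h4
    have h5 := (h1 u).sub h2
    rw [sub_self] at h5
    convert h5 using 2 with τ
    simp only [map_sub, map_sum, map_mul, eval_C, map_prod]; ring

end ApprAux

open ApprAux in
theorem appr : ApprS := by
  intro Y ι _ _ _ _ f hf hi l T
  obtain ⟨p, hp⟩ := approx hf hi l T
  refine ⟨p, fun u v => ?_⟩
  have hs := LT.CoordAux.hasStrictFDerivAt_of_eventually (ev_diff hf p)
  have hD : ∀ u, fderiv ℂ (fun z => eval (f z) p) 0 u = l u := fun u => by
    have h0 : eval (f 0) p = 0 := by simpa using (hp u).isBigO.eq_zero_imp.self_of_nhds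
    have h2 : HasFDerivAt (fun z => eval (f z) p) (fderiv ℂ (fun z => eval (f z) p) 0)
        ((0 : ℂ) • u) := by
      rw [zero_smul]; exact hs.hasFDerivAt
    have h3 := ld_of_hasDerivAt (h2.comp_hasDerivAt (0 : ℂ) (line_deriv u 0)) (by simpa using h0)
    refine h3.unique ?_
    exact ((IsLittleO.trans_isBigO (hp u) (pow_isBigO (show 1 ≤ T + 1 by omega))).congr_left
      fun τ => by simp)
  have h1 := (hs.isLittleO.comp_tendsto (pair_tendsto T u v)).trans_isBigO (gam_sub T u v)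
  refine (h1.add (hp u)).congr_left fun τ => ?_
  simp [hD, gam]
  ring

end Pool.Agent.Lib.MP_caab05_ag.ZE
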