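import Mathlib
import Pool.Agent.Lib.MP_caab05_ag.ZE.Stmt

/-! Elementary facts on the coordinates of the extension. -/

namespace Pool.Agent.Lib.MP_caab05_ag.ZE

open MvPolynomial Filter Topology Asymptotics Complex
open Pool.Agent.Lib.MP_caab05_ag.LT (E AbVar Pol)

namespace BasAux

set_option maxHeartbeats 400000

variable {d M e : ℕ} {A : VX d M} {σ : Fin e → E d}

theorem th_some (z : Sp d e) (j : Fin e) (c : Fin (M + 1)) :
    Th A σ z (some j, c) = fderiv ℂ A.θ z.1 (σ j) c - z.2 j * A.θ z.1 c := by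
  have e1 : (fun τ : ℂ => Psi A σ c z (τ • Pi.single j 1)) =
      fun τ : ℂ => A.θ (z.1 + τ • σ j) c * cexp (-(z.2 j * τ)) := by
    funext τ
    simp [Psi, dir, Pi.single_apply, ← Pi.single_smul]
  have h1 : HasDerivAt (fun τ : ℂ => z.1 + τ • σ j) (σ j) 0 := by
    simpa using ((hasDerivAt_id (0 : ℂ)).smul_const (σ j)).const_add z.1
  have h2 : HasDerivAt (fun τ : ℂ => A.θ (z.1 + τ • σ j)) (fderiv ℂ A.θ z.1 (σ j)) 0 :=
    (A.holo z.1).hasFDerivAt.comp_hasDerivAt_of_eq 0 h1 (by simp)
  have h3 := (hasDerivAt_pi.1 h2 c).fun_mul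
    (((hasDerivAt_id (0 : ℂ)).const_mul (z.2 j)).fun_neg.cexp)
  change iteratedDeriv 1 (fun τ : ℂ => Psi A σ c z (τ • Pi.single j 1)) 0 = _
  rw [iteratedDeriv_one, e1]
  refine h3.deriv.trans ?_
  simp
  ring

theorem diff_theta (c : Fin (M + 1)) : Differentiable ℂ fun z : Sp d e => A.θ z.1 c :=
  (differentiable_pi.1 A.holo c).comp differentiable_fst

theorem diff (h : LocS) : Differentiable ℂ (Th A σ) := by
  refine differentiable_pi.2 ?_
  rintro ⟨_ | j, c⟩
  · exact diff_theta c
  · have h1 : Differentiable ℂ fun p : Sp d e × ℂ =>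
        p.1.1 + dir σ (p.2 • (Pi.single j 1 : E e)) := by
      unfold dir
      fun_prop
    have h2 : Differentiable ℂ fun p : Sp d e × ℂ =>
        -(p.1.2 ⬝ᵥ p.2 • (Pi.single j 1 : E e)) := by
      unfold dotProduct
      fun_prop
    have h3 : Differentiable ℂ fun p : Sp d e × ℂ =>
        Psi A σ c p.1 (p.2 • (Pi.single j 1 : E e)) :=
      ((differentiable_pi.1 A.holo c).comp h1).mul h2.cexp
    have h4 := h.dif (Sp d e) _ h3 1
    exact h4

theorem psi_aut {l : E d} (hl : l ∈ A.Λ) (c : Fin (M + 1)) (z : Sp d e) (t : E e) :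
    Psi A σ c (z + lift A σ l) t = cexp (A.H l ⬝ᵥ z.1 + A.β l) * Psi A σ c z t := by
  have e1 : (fun j => A.H l ⬝ᵥ σ j) ⬝ᵥ t = A.H l ⬝ᵥ dir σ t := by
    rw [dir, dotProduct_sum, dotProduct]
    simp [mul_comm]
  simp only [Psi, lift, Prod.fst_add, Prod.snd_add, add_dotProduct, e1]
  rw [add_right_comm, A.law l hl, Pi.smul_apply, smul_eq_mul, dotProduct_add, mul_right_comm,
    ← Complex.exp_add, mul_left_comm, ← Complex.exp_add, mul_comm]
  congr 2
  ring

theorem aut {l : E d} (hl : l ∈ A.Λ) (z : Sp d e) :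
    Th A σ (z + lift A σ l) = cexp (A.H l ⬝ᵥ z.1 + A.β l) • Th A σ z := by
  funext ⟨i, c⟩
  rcases i with _ | j
  · exact congrFun (A.law l hl z.1) c
  · change lan A σ c 1 _ _ = _ * lan A σ c 1 _ _
    simp only [lan, psi_aut hl, iteratedDeriv_const_mul_field]

theorem th_vt (z : Sp d e) (u : E e) (j : Fin e) (c : Fin (M + 1)) :
    Th A σ (z + (0, u)) (some j, c) = Th A σ z (some j, c) - u j * A.θ z.1 c := by
  simp only [th_some, Prod.fst_add, Prod.snd_add, add_zero, Pi.add_apply]
  ring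

theorem qconst (n k : ℕ) : InQ A σ n k fun _ => 0 :=
  ⟨differentiable_const _, fun _ _ _ => by simp, fun _ _ => ⟨0, by simp, by simp⟩⟩

theorem qone : InQ A σ 0 0 fun _ => 1 :=
  ⟨differentiable_const _, fun _ _ _ => by simp, fun _ _ => ⟨1, by simp, by simp⟩⟩

theorem qadd {n k : ℕ} {F G : Sp d e → ℂ} (hF : InQ A σ n k F) (hG : InQ A σ n k G) :
    InQ A σ n k fun z => F z + G z := by
  refine ⟨hF.diff.add hG.diff, fun l hl z => by rw [hF.aut l hl, hG.aut l hl, mul_add],
    fun z u => ?_⟩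
  obtain ⟨p, h1, h2⟩ := hF.poly z u
  obtain ⟨q, h3, h4⟩ := hG.poly z u
  exact ⟨p + q, Polynomial.natDegree_add_le_of_degree_le h1 h3, fun τ => by
    rw [h2, h4, Polynomial.eval_add]⟩

theorem qmul {n k m l : ℕ} {F G : Sp d e → ℂ} (hF : InQ A σ n k F) (hG : InQ A σ m l G) :
    InQ A σ (n + m) (k + l) fun z => F z * G z := by
  refine ⟨hF.diff.mul hG.diff, fun l hl z => by rw [hF.aut l hl, hG.aut l hl]; ring,
    fun z u => ?_⟩
  obtain ⟨p, h1, h2⟩ := hF.poly z u
  obtain ⟨q, h3, h4⟩ := hG.poly z u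
  exact ⟨p * q, Polynomial.natDegree_mul_le_of_le h1 h3, fun τ => by
    rw [h2, h4, Polynomial.eval_mul]⟩

theorem qsmul {n k : ℕ} (a : ℂ) {F : Sp d e → ℂ} (hF : InQ A σ n k F) :
    InQ A σ n k fun z => a * F z := by
  have h : InQ A σ 0 0 fun _ => a :=
    ⟨differentiable_const _, fun _ _ _ => by simp, fun _ _ => ⟨Polynomial.C a, by simp, by simp⟩⟩
  simpa only [zero_add] using qmul h hF

theorem qsum {n k : ℕ} {κ : Type} (s : Finset κ) {F : κ → Sp d e → ℂ}
    (h : ∀ i ∈ s, InQ A σ n k (F i)) : InQ A σ n k fun z => ∑ i ∈ s, F i z := by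
  classical
  induction s using Finset.induction_on with
  | empty => simpa using qconst n k
  | insert a s ha ih =>
    simp only [Finset.sum_insert ha]
    exact qadd (h a (by simp)) (ih fun i hi => h i (by simp [hi]))

theorem qmono {n k l : ℕ} {F : Sp d e → ℂ} (hk : k ≤ l) (hF : InQ A σ n k F) : InQ A σ n l F :=
  ⟨hF.diff, hF.aut, fun z u => (hF.poly z u).imp fun _ h => ⟨h.1.trans hk, h.2⟩⟩

theorem qtheta (c : Fin (M + 1)) : InQ A σ 1 0 fun z => A.θ z.1 c :=
  ⟨diff_theta c, fun l hl z => by rw [pow_one]; exact congrFun (A.law l hl z.1) c,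
    fun z _ => ⟨Polynomial.C (A.θ z.1 c), by simp, by simp⟩⟩

theorem qth (h : LocS) (i : Ic e M) : InQ A σ 1 1 fun z => Th A σ z i := by
  obtain ⟨_ | j, c⟩ := i
  · exact qmono zero_le_one (qtheta c)
  · refine ⟨differentiable_pi.1 (diff h) _, fun l hl z => by rw [pow_one, aut hl]; rfl,
      fun z u => ⟨Polynomial.C (-(u j * A.θ z.1 c)) * Polynomial.X +
        Polynomial.C (Th A σ z (some j, c)), Polynomial.natDegree_linear_le, fun τ => ?_⟩⟩
    rw [Prod.smul_mk, smul_zero, th_vt]
    simp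
    ring

theorem qpow {F : Sp d e → ℂ} (hF : InQ A σ 1 1 F) (n : ℕ) : InQ A σ n n fun z => F z ^ n := by
  induction n with
  | zero => simpa using qone
  | succ n ih => simpa only [pow_succ] using qmul ih hF

theorem qform (h : LocS) {P : MvPolynomial (Ic e M) ℂ} {m : ℕ} (hP : P.IsHomogeneous m) :
    InQ A σ m m (ev (Th A σ) P) := by
  classical
  have key : ∀ (f : Ic e M → ℕ) (s : Finset (Ic e M)),
      InQ A σ (∑ i ∈ s, f i) (∑ i ∈ s, f i) fun z => ∏ i ∈ s, Th A σ z i ^ f i := fun f s => by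
    induction s using Finset.induction_on with
    | empty => simpa using qone
    | insert a s ha ih =>
      simp only [Finset.sum_insert ha, Finset.prod_insert ha]
      exact qmul (qpow (qth h a) _) ih
  have : ev (Th A σ) P = fun z => ∑ s ∈ P.support, coeff s P *
      ∏ i ∈ s.support, Th A σ z i ^ s i := funext fun z => eval_eq _ _
  rw [this]
  exact qsum _ fun s hs => qsmul _ (hP.degree_eq_sum_deg_support hs ▸ key s s.support)

theorem qvt {n k : ℕ} {F : Sp d e → ℂ} (u : E e) (hF : InQ A σ n k F) :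
    InQ A σ n k fun z => F (z + (0, u)) := by
  refine ⟨hF.diff.comp (differentiable_id.add_const _), fun l hl z => ?_, fun z v => ?_⟩
  · rw [add_right_comm, hF.aut l hl, Prod.fst_add, add_zero]
  · simpa only [add_right_comm] using hF.poly (z + (0, u)) v

/-- the linear substitution of a translation along the fibres -/
noncomputable def sub (u : E e) : Ic e M → MvPolynomial (Ic e M) ℂ
  | (none, c) => X (none, c)
  | (some j, c) => X (some j, c) - C (u j) * X (none, c)

theorem sub_hom (u : E e) {P : MvPolynomial (Ic e M) ℂ} {m : ℕ} (hP : P.IsHomogeneous m) :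
    (aeval (sub u) P : MvPolynomial (Ic e M) ℂ).IsHomogeneous m := by
  have := hP.aeval (n := 1) (sub u) (by
    rintro ⟨_ | j, c⟩
    exacts [isHomogeneous_X _ _, (isHomogeneous_X _ _).sub (isHomogeneous_C_mul_X _ _)])
  rwa [one_mul] at this

theorem ev_sub (u : E e) (P : MvPolynomial (Ic e M) ℂ) (z : Sp d e) :
    ev (Th A σ) (aeval (sub u) P) z = ev (Th A σ) P (z + (0, u)) := by
  have : (fun i => eval (Th A σ z) (sub u i)) = Th A σ (z + (0, u)) := by
    funext ⟨i, c⟩
    rcases i with _ | j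
    · simp [sub, Th]
    · rw [th_vt]
      simp [sub, Th]
  unfold ev
  rw [← this]
  clear this
  induction P using MvPolynomial.induction_on with
  | C a => simp
  | add p q hp hq => simp only [map_add, hp, hq]
  | mul_X p i hp => simp only [map_mul, hp, aeval_X, eval_X]

end BasAux

open BasAux in
theorem bas (h : LocS) : BasS := fun d M e A σ =>
  { th_some := th_some
    diff := diff h
    ne := fun z h0 => A.ne_zero z.1 (funext fun c => congrFun h0 (none, c))
    psi_aut := fun _ hl => psi_aut hl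
    aut := fun _ hl => aut hl
    lift_add := fun x y => by
      ext <;> simp [lift]
    lift_smul := fun t x => by
      ext <;> simp [lift]
    lift_cont := by
      have := LinearMap.continuous_of_finiteDimensional A.H
      unfold lift dotProduct
      fun_prop
    form := fun P m hP => ⟨qform h hP, fun z₀ => (h.loc _ _ _ z₀).form P m hP⟩
    theta := fun c => ⟨qtheta c, fun z₀ => by
      have := (h.loc _ _ (Th A σ) z₀).form (X (none, c)) 1 (isHomogeneous_X _ _)
      rwa [show ev (Th A σ) (X (none, c)) = fun z => A.θ z.1 c from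
        funext fun z => eval_X _] at this⟩
    qzero := qconst
    qone := qone
    qadd := fun _ _ _ _ => qadd
    qsmul := fun _ _ a _ => qsmul a
    qsum := fun _ _ _ s _ => qsum s
    qmul := fun _ _ _ _ _ _ => qmul
    qmono := fun _ _ _ _ => qmono
    qvt := fun _ _ _ u => qvt u
    vt := fun n k F u hF => ⟨qvt u hF.1, fun z₀ => by
      obtain ⟨m, Q, P, h1, h2, h3, h4⟩ := hF.2 (z₀ + (0, u))
      exact ⟨m, _, _, sub_hom u h1, sub_hom u h2, by rwa [ev_sub], fun z => by
        rw [ev_sub, ev_sub, h4]⟩⟩ }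

end Pool.Agent.Lib.MP_caab05_ag.ZE
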