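import Pool.Agent.Lib.MP_caab05_ag.ZE.Stmt

/-! The affine chart at the origin of the vector extension. -/

namespace Pool.Agent.Lib.MP_caab05_ag.ZE

open MvPolynomial Filter Topology Asymptotics Complex
open Pool.Agent.Lib.MP_caab05_ag.LT (E AbVar Pol)

namespace ChartAux

variable {d M e : ℕ} {A : VX d M} {σ : Fin e → E d}

theorem aff_none (z : Sp d e) (c : Fin (M + 1)) : aff A σ z (none, c) = A.θ z.1 c / A.θ z.1 0 :=
  rfl

theorem aff_some (hb : BasP A σ) (z : Sp d e) (j : Fin e) (c : Fin (M + 1)) :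
    aff A σ z (some j, c) = (fderiv ℂ A.θ z.1 (σ j) c - z.2 j * A.θ z.1 c) / A.θ z.1 0 := by
  rw [aff, hb.th_some]

theorem dif_th (c : Fin (M + 1)) : Differentiable ℂ fun x => A.θ x c :=
  differentiable_pi.1 A.holo c

theorem dif_at (hb : BasP A σ) {z : Sp d e} (hz : A.θ z.1 0 ≠ 0) :
    DifferentiableAt ℂ (aff A σ) z :=
  differentiableAt_pi.2 fun i => by
    have h1 : DifferentiableAt ℂ (fun z => Th A σ z i) z := differentiable_pi.1 hb.diff i z
    have h2 : DifferentiableAt ℂ (fun z : Sp d e => A.θ z.1 0) z :=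
      ((dif_th 0).comp differentiable_fst) z
    simpa only [aff, div_eq_mul_inv] using h1.fun_mul (h2.fun_inv hz)

theorem dif (hb : BasP A σ) : ∀ᶠ z in 𝓝 (0 : Sp d e), DifferentiableAt ℂ (aff A σ) z := by
  have h : ContinuousAt (fun z : Sp d e => A.θ z.1 0) 0 :=
    ((dif_th 0).comp differentiable_fst).continuous.continuousAt
  exact (h.eventually_ne A.origin).mono fun z hz => dif_at hb hz

theorem line {Y Z : Type} [NormedAddCommGroup Y] [NormedSpace ℂ Y] [NormedAddCommGroup Z]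
    [NormedSpace ℂ Z] {f : Y → Z} (h : DifferentiableAt ℂ f 0) (v : Y) :
    HasDerivAt (fun τ : ℂ => f (τ • v)) (fderiv ℂ f 0 v) 0 := by
  have h1 : HasDerivAt (fun τ : ℂ => τ • v) v 0 := by
    simpa using (hasDerivAt_id (0 : ℂ)).smul_const v
  exact h.hasFDerivAt.comp_hasDerivAt_of_eq 0 h1 (by simp)

theorem imm (hb : BasP A σ) : Function.Injective (fderiv ℂ (aff A σ) 0) := by
  refine (injective_iff_map_eq_zero _).2 ?_
  rintro ⟨x, u⟩ hv
  have h1 := line (dif_at hb (z := 0) A.origin) (x, u)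
  rw [hv] at h1
  have h2 := line (f := fun z i => A.θ z i / A.θ z 0) (differentiableAt_pi.2 fun i => by
    have h1 := dif_th (A := A) i 0
    have h2 := dif_th (A := A) 0 0
    simpa only [div_eq_mul_inv] using h1.fun_mul (h2.fun_inv A.origin)) x
  have h3 : x = 0 := (injective_iff_map_eq_zero _).1 A.immersion x (funext fun c =>
    (hasDerivAt_pi.1 h2 c).unique (hasDerivAt_pi.1 h1 (none, c)))
  subst h3
  refine Prod.ext rfl (funext fun j => ?_)
  have h4 : HasDerivAt (fun τ : ℂ => aff A σ (τ • ((0, u) : Sp d e)) (some j, 0)) (-u j) 0 := by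
    have h5 := (((hasDerivAt_id (0 : ℂ)).mul_const (u j * A.θ 0 0)).const_sub
      (fderiv ℂ A.θ 0 (σ j) 0)).div_const (A.θ 0 0)
    have h0 := A.origin
    have h6 : -(1 * (u j * A.θ 0 0)) / A.θ 0 0 = -u j := by field_simp
    rw [h6] at h5
    refine h5.congr_of_eventuallyEq (Eventually.of_forall fun τ => ?_)
    show aff A σ _ _ = _
    rw [aff_some hb]
    simp [mul_assoc]
  exact neg_eq_zero.1 (h4.unique (hasDerivAt_pi.1 h1 (some j, 0)))

theorem img (hb : BasP A σ) (ha : AddP A σ) : ∃ S : Set (MvPolynomial (Ic e M) ℂ),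
    (∀ P ∈ S, ∀ z : Sp d e, A.θ z.1 0 ≠ 0 → eval (aff A σ z) P = 0) ∧
    ∀ x, (∀ P ∈ S, eval x P = 0) → ∃ z : Sp d e, A.θ z.1 0 ≠ 0 ∧ x = aff A σ z := by
  obtain ⟨S, -, hS⟩ := A.image
  choose R R1 R2 using fun j c => ha.wr (σ j) 0 c
  have hR : ∀ j c (x : E d), eval ((A.θ x 0)⁻¹ • A.θ x) (R j c) = (A.θ x 0)⁻¹ ^ 2 *
      (A.θ x 0 * fderiv ℂ A.θ x (σ j) c - A.θ x c * fderiv ℂ A.θ x (σ j) 0) := fun j c x => by
    rw [R2, LT.eval_smul_of_hom (R1 j c)]
  refine ⟨{X (none, 0) - 1} ∪ rename (fun c => (none, c)) '' S ∪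
    Set.range fun p : Fin e × Fin (M + 1) => X (none, 0) * X (some p.1, p.2) -
      X (none, p.2) * X (some p.1, 0) - rename (fun c => (none, c)) (R p.1 p.2), ?_, ?_⟩
  · intro P hP z hz
    have e1 : (aff A σ z ∘ fun c => (none, c)) = (A.θ z.1 0)⁻¹ • A.θ z.1 := funext fun c => by
      simp [aff_none, div_eq_inv_mul]
    rcases hP with (rfl | ⟨Q, hQ, rfl⟩) | ⟨⟨j, c⟩, rfl⟩
    · simp [aff_none, hz]
    · rw [eval_rename, e1]
      exact (Set.ext_iff.1 hS _).2 ⟨_, _, rfl⟩ Q hQ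
    · simp only [map_sub, map_mul, eval_X, eval_rename, e1, hR, aff_none, aff_some hb]
      field_simp
      ring
  · intro x hx
    have h0 : x (none, 0) = 1 := by
      have := hx _ (Or.inl (Or.inl rfl))
      simpa [sub_eq_zero] using this
    obtain ⟨r, y, hy⟩ := (Set.ext_iff.1 hS (x ∘ fun c => (none, c))).1 fun Q hQ => by
      rw [← eval_rename]
      exact hx _ (Or.inl (Or.inr ⟨Q, hQ, rfl⟩))
    have h1 : r * A.θ y 0 = 1 := (congrFun hy 0).symm.trans h0
    have h2 : A.θ y 0 ≠ 0 := right_ne_zero_of_mul_eq_one h1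
    have h3 : r = (A.θ y 0)⁻¹ := eq_inv_of_mul_eq_one_left h1
    subst h3
    have h4 : ∀ c, x (none, c) = (A.θ y 0)⁻¹ * A.θ y c := fun c => congrFun hy c
    refine ⟨(y, fun j => fderiv ℂ A.θ y (σ j) 0 / A.θ y 0 - x (some j, 0)), h2, funext ?_⟩
    rintro ⟨_ | j, c⟩
    · rw [h4, aff_none, div_eq_inv_mul]
    · have h5 := hx _ (Or.inr ⟨(j, c), rfl⟩)
      simp only [map_sub, map_mul, eval_X, eval_rename, hy, hR, h0, h4 c, one_mul] at h5
      rw [aff_some hb, sub_sub, sub_eq_zero] at *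
      rw [h5]
      field_simp
      ring

end ChartAux

theorem chart (hb : BasS) (ha : AddS) : ChartS := fun d M e A σ =>
  ⟨ChartAux.dif (hb d M e A σ), ChartAux.imm (hb d M e A σ),
    ChartAux.img (hb d M e A σ) (ha d M e A σ)⟩

end Pool.Agent.Lib.MP_caab05_ag.ZE
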