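import Mathlib
import Pool.Agent.Lib.MP_caab05_ag.ZE.Stmt

/-! Many polynomials which are independent modulo a high order of vanishing. -/

namespace Pool.Agent.Lib.MP_caab05_ag.ZE

open MvPolynomial Filter Topology Asymptotics Complex
open Pool.Agent.Lib.MP_caab05_ag.LT (E AbVar Pol)
open Pool.Agent.Lib.MP_caab05_ag.LT.IsoAux (Ld pow_isBigO)

namespace CntAux

/-- independence of monomials in functions with independent leading terms -/
lemma indep {ι κ : Type} [Fintype ι] [Fintype κ] {N : ℕ} {wt : ι → ℕ}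
    {g : (ι → ℂ) → ι → ℂ → ℂ} (hp : ∀ ζ k, Ld (g ζ k) (ζ k) (wt k))
    {e : κ → ι → ℕ} (he : Function.Injective e) (hN : ∀ α, ∑ k, e α k * wt k < N)
    {c : κ → ℂ}
    (hc : ∀ ζ, (fun τ => ∑ β, c β * ∏ k, g ζ k τ ^ e β k) =O[𝓝 0] fun τ : ℂ => τ ^ N)
    (α : κ) : c α = 0 := by
  classical
  generalize hm : ∑ k, e α k * wt k = m
  induction m using Nat.strong_induction_on generalizing α with
  | _ m ih =>
  have hmono : ∀ ζ β, Ld (fun τ => ∏ k, g ζ k τ ^ e β k) (∏ k, ζ k ^ e β k)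
      (∑ k, e β k * wt k) := fun ζ β => Ld.prod _ fun k _ => (hp ζ k).pow _
  have h1 : ∀ ζ : ι → ℂ, ∑ β, (if ∑ k, e β k * wt k = m then c β * ∏ k, ζ k ^ e β k else 0) = 0 :=
    fun ζ => by
    refine Ld.unique (m := m) ?_ (Ld.of_lt (hc ζ) (hm ▸ hN α))
    refine Ld.sum _ fun β _ => ?_
    rcases lt_trichotomy (∑ k, e β k * wt k) m with h | h | h
    · rw [if_neg h.ne, ih _ h β rfl]; simpa using Ld.zero
    · rw [if_pos h, ← h]; exact (hmono ζ β).const_mul _
    · rw [if_neg h.ne']; simpa using (Ld.of_lt (hmono ζ β).isBigO h).const_mul (c β)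
  have h3 : (∑ β, monomial (Finsupp.equivFunOnFinite.symm (e β))
      (if ∑ k, e β k * wt k = m then c β else 0) : MvPolynomial ι ℂ) = 0 := by
    refine MvPolynomial.funext fun ζ => ?_
    rw [map_zero, map_sum]
    refine (Finset.sum_congr rfl fun β _ => ?_).trans (h1 ζ)
    rw [eval_monomial, Finsupp.prod_fintype _ _ (by simp)]
    split_ifs <;> simp
  have h4 := congrArg (coeff (Finsupp.equivFunOnFinite.symm (e α))) h3
  simp only [coeff_sum, coeff_monomial, EmbeddingLike.apply_eq_iff_eq, he.eq_iff,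
    Finset.sum_ite_eq', Finset.mem_univ, if_true, hm, coeff_zero] at h4
  exact h4

/-- a basis adapted to a subspace -/
lemma exists_ext {Y : Type} [AddCommGroup Y] [Module ℂ Y] [FiniteDimensional ℂ Y]
    (W : Submodule ℂ Y) :
    ∃ (e : ℕ) (b : Module.Basis (Fin (Module.finrank ℂ W) ⊕ Fin e) ℂ Y),
      Module.finrank ℂ W + e = Module.finrank ℂ Y ∧ ∀ k, b (Sum.inl k) ∈ W := by
  obtain ⟨W', hW'⟩ := W.exists_isCompl
  let b := ((Module.finBasis ℂ W).prod (Module.finBasis ℂ W')).map (W.prodEquivOfIsCompl W' hW')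
  refine ⟨_, b, Submodule.finrank_add_eq_of_isCompl hW', fun k => ?_⟩
  simp [b]

end CntAux

open CntAux in
theorem cnt (h : ApprS) : CntS := by
  classical
  intro Y ι _ _ _ _ f hf hinj W T s
  obtain ⟨e, b, hde, hb⟩ := exists_ext W
  generalize Module.finrank ℂ W = n at b hde hb ⊢
  choose p hp using fun i => h Y ι f hf hinj (b.coord i) T
  let wt : Fin n ⊕ Fin e → ℕ := Sum.elim (fun _ => 1) fun _ => T + 1
  let bd : Fin n ⊕ Fin e → ℕ := Sum.elim (fun _ => s * (T + 1)) fun _ => s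
  let u : (Fin n ⊕ Fin e → ℂ) → Y := fun ζ => ∑ i, ζ (Sum.inl i) • b (Sum.inl i)
  let v : (Fin n ⊕ Fin e → ℂ) → Y := fun ζ => ∑ i, ζ (Sum.inr i) • b (Sum.inr i)
  have hu : ∀ ζ, u ζ ∈ W := fun ζ => Submodule.sum_mem _ fun i _ =>
    Submodule.smul_mem _ _ (hb i)
  have hp' : ∀ ζ i, Ld (fun τ => eval (f (gam T (u ζ) (v ζ) τ)) (p i)) (ζ i) (wt i) := by
    intro ζ i
    have h := hp i (u ζ) (v ζ)
    rcases i with i | i
    · have h1 : b.coord (Sum.inl i) (u ζ) = ζ (Sum.inl i) := by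
        simp [u, Finsupp.single_apply]
      have h2 : b.coord (Sum.inl i) (v ζ) = 0 := by simp [v]
      rw [h1, h2] at h
      exact (IsLittleO.trans_isBigO h (pow_isBigO (show 1 ≤ T + 1 by omega))).congr_left
        fun τ => by simp [wt]
    · have h1 : b.coord (Sum.inr i) (u ζ) = 0 := by simp [u]
      have h2 : b.coord (Sum.inr i) (v ζ) = ζ (Sum.inr i) := by
        simp [v, Finsupp.single_apply]
      rw [h1, h2] at h
      simpa [wt] using h
  refine ⟨(i : Fin n ⊕ Fin e) → Fin (bd i), inferInstance, fun α => ∏ i, p i ^ (α i : ℕ), ?_, ?_⟩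
  · simp [bd, ← hde, mul_pow, pow_add]; ring
  · intro c hc
    funext α
    refine indep (N := (Module.finrank ℂ Y * s + 1) * (T + 1)) hp' (e := fun α i => (α i : ℕ))
      (fun α β h => funext fun i => Fin.ext (congrFun h i)) (fun α => ?_) (fun ζ => ?_) α
    · calc _ ≤ ∑ _i : Fin n ⊕ Fin e, s * (T + 1) := Finset.sum_le_sum fun i _ => by
            have := (α i).2
            rcases i with i | i
            · exact (mul_one _).le.trans this.le
            · exact Nat.mul_le_mul_right _ this.le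
        _ = Module.finrank ℂ Y * s * (T + 1) := by simp [hde, mul_assoc]
        _ < _ := by rw [add_mul _ 1]; omega
    · exact (hc (u ζ) (hu ζ) (v ζ)).congr_left fun τ => by simp

end Pool.Agent.Lib.MP_caab05_ag.ZE
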