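import Mathlib
import Pool.Agent.Lib.MP_caab05_ag.ZE.Stmt

/-! Passage to the quotient of a vector extension by a line of the fibre. -/

namespace Pool.Agent.Lib.MP_caab05_ag.ZE

open MvPolynomial Filter Topology Asymptotics Complex
open Pool.Agent.Lib.MP_caab05_ag.LT (E AbVar Pol)

namespace DescAux

variable {d M e : ℕ} (j : Fin (e + 1)) (r : Fin e → ℂ)

/-- the new directions -/
noncomputable def sg (σ : Fin (e + 1) → E d) (i : Fin e) : E d := σ (j.succAbove i) - r i • σ j

/-- the projection -/
noncomputable def pr (d : ℕ) : Sp d (e + 1) →ₗ[ℂ] Sp d e where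
  toFun z := (z.1, fun i => z.2 (j.succAbove i) - r i * z.2 j)
  map_add' z w := by
    refine Prod.ext rfl (funext fun i => ?_)
    simp only [Prod.snd_add, Pi.add_apply]
    ring
  map_smul' c z := by
    refine Prod.ext rfl (funext fun i => ?_)
    simp only [Prod.smul_snd, Pi.smul_apply, smul_eq_mul, RingHom.id_apply]
    ring

theorem pr_apply (z : Sp d (e + 1)) :
    pr j r d z = (z.1, fun i => z.2 (j.succAbove i) - r i * z.2 j) := rfl

/-- the point above `z` with given coordinate `j` -/
noncomputable def up (z : Sp d e) (t : ℂ) : Sp d (e + 1) :=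
  (z.1, j.insertNth t fun i => z.2 i + r i * t)

theorem up_same (z : Sp d e) (t : ℂ) : (up j r z t).2 j = t := by simp [up]

theorem up_succ (z : Sp d e) (t : ℂ) (i : Fin e) :
    (up j r z t).2 (j.succAbove i) = z.2 i + r i * t := by simp [up]

theorem pr_up (z : Sp d e) (t : ℂ) : pr j r d (up j r z t) = z := by
  refine Prod.ext rfl (funext fun i => ?_)
  simp only [pr_apply, up_same, up_succ]
  ring

theorem pr_inj {z w : Sp d (e + 1)} (h : pr j r d z = pr j r d w) (h' : z.2 j = w.2 j) :
    z = w := by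
  refine Prod.ext (congrArg Prod.fst h :) (funext fun k => ?_)
  induction k using j.succAboveCases with
  | x => exact h'
  | p i =>
    have h1 := congrFun (congrArg Prod.snd h) i
    simp only [pr_apply, h'] at h1
    exact sub_left_injective h1

theorem pr_lift (A : VX d M) (σ : Fin (e + 1) → E d) (x : E d) :
    pr j r d (lift A σ x) = lift A (sg j r σ) x := by
  refine Prod.ext rfl (funext fun i => ?_)
  simp [pr_apply, lift, sg]

theorem diff_up : Differentiable ℂ fun z : Sp d e => up j r z 0 := by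
  refine differentiable_fst.prodMk (differentiable_pi.2 fun k => ?_)
  induction k using j.succAboveCases with
  | x => simp
  | p i =>
    simp only [Fin.insertNth_apply_succAbove]
    fun_prop

theorem adm (A : VX d M) (σ : Fin (e + 1) → E d) (W : Submodule ℂ (Sp d (e + 1)))
    (h : Adm A σ W) : Adm A (sg j r σ) (W.map (pr j r d)) := by
  refine ⟨?_, ?_, fun U hU hU' => ?_⟩
  · have h1 := LinearMap.finrank_le_finrank_of_injective
      (f := ((pr j r d).submoduleMap W).prod
        ((LinearMap.proj j : E (e + 1) →ₗ[ℂ] ℂ) ∘ₗ LinearMap.snd ℂ _ _ ∘ₗ W.subtype))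
      fun z w hzw => Subtype.ext (pr_inj j r (congrArg (fun x => x.1.1) hzw :)
        (congrArg Prod.snd hzw :))
    rw [Module.finrank_prod, Module.finrank_self] at h1
    have h2 := h.dim
    omega
  · obtain ⟨w, hw, hw'⟩ := h.hor
    exact ⟨_, Submodule.mem_map_of_mem hw, hw'⟩
  · have h1 := congrArg (Submodule.map (pr j r d)) (h.top U hU hU')
    rw [Submodule.map_sup, Submodule.map_span, Set.image_image, Submodule.map_top,
      LinearMap.range_eq_top.2 fun z => ⟨_, pr_up j r z 0⟩] at h1
    simpa only [pr_lift] using h1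

/-- a function which is constant along the line is constant on the fibres of the projection -/
theorem const {n : E (e + 1)} (hn : n j ≠ 0) {F : Sp d (e + 1) → ℂ}
    (hF : ∀ z (τ : ℂ), F (z + τ • ((0, n) : Sp d (e + 1))) = F z) {z w : Sp d (e + 1)}
    (h : pr j (fun i => n (j.succAbove i) / n j) d z =
      pr j (fun i => n (j.succAbove i) / n j) d w) : F z = F w := by
  rw [← hF w ((z.2 j - w.2 j) / n j)]
  congr 1
  refine pr_inj j (fun i => n (j.succAbove i) / n j) ?_ ?_
  · have h0 : pr j (fun i => n (j.succAbove i) / n j) d (0, n) = 0 := by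
      refine Prod.ext rfl (funext fun i => ?_)
      simp only [pr_apply, Prod.snd_zero, Pi.zero_apply]
      field_simp
      ring
    rw [map_add, map_smul, h0, smul_zero, add_zero, h]
  · simp only [Prod.snd_add, Prod.smul_snd, Pi.add_apply, Pi.smul_apply, smul_eq_mul]
    field_simp
    ring

theorem eval_aeval' {ι κ : Type} (x : κ → ℂ) (R : ι → MvPolynomial κ ℂ) (Q : MvPolynomial ι ℂ) :
    eval x (aeval R Q) = eval (fun i => eval x (R i)) Q := by
  induction Q using MvPolynomial.induction_on with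
  | C a => simp
  | add p q hp hq => simp only [map_add, hp, hq]
  | mul_X p i hp => simp only [map_mul, hp, aeval_X, eval_X]

/-- a rational section near a point -/
theorem sect (hb : BasS) (ha : AddS) (A : VX d M) (σ : Fin (e + 1) → E d) (a : Fin (M + 1)) :
    ∃ (R : Ic (e + 1) M → MvPolynomial (Ic e M) ℂ) (t : Sp d e → ℂ),
      (∀ i, (R i).IsHomogeneous 2) ∧ ∀ z : Sp d e, A.θ z.1 a ≠ 0 →
        (fun i => eval (Th A (sg j r σ) z) (R i)) = A.θ z.1 a • Th A σ (up j r z (t z)) := by
  choose wr hwr hwr' using (ha d M _ A σ).wr (σ j) a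
  have hX : ∀ i i' : Ic e M, (X i * X i' : MvPolynomial (Ic e M) ℂ).IsHomogeneous 2 :=
    fun i i' => (isHomogeneous_X ℂ i).mul (isHomogeneous_X ℂ i')
  have hW : ∀ c, (rename (fun b => ((none, b) : Ic e M)) (wr c)).IsHomogeneous 2 :=
    fun c => (hwr c).rename_isHomogeneous
  refine ⟨fun i => i.1.elim (X (none, a) * X (none, i.2)) (j.insertNth
      (rename (fun b => (none, b)) (wr i.2)) fun k => X (none, a) * X (some k, i.2) +
        C (r k) * rename (fun b => (none, b)) (wr i.2)),
    fun z => fderiv ℂ A.θ z.1 (σ j) a / A.θ z.1 a, ?_, fun z hz => funext ?_⟩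
  · rintro ⟨_ | k, c⟩
    · exact hX _ _
    · simp only [Option.elim_some]
      induction k using j.succAboveCases with
      | x =>
        rw [Fin.insertNth_apply_same]
        exact hW c
      | p i =>
        rw [Fin.insertNth_apply_succAbove]
        exact (hX _ _).add (by simpa using (isHomogeneous_C _ (r i)).mul (hW c))
  · have e1 : ∀ c, eval (Th A (sg j r σ) z) (rename (fun b => ((none, b) : Ic e M)) (wr c)) =
        A.θ z.1 a * fderiv ℂ A.θ z.1 (σ j) c - A.θ z.1 c * fderiv ℂ A.θ z.1 (σ j) a := by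
      intro c
      rw [eval_rename, hwr']
      rfl
    have e2 : ∀ c, Th A (sg j r σ) z (none, c) = A.θ z.1 c := fun c => rfl
    have e3 : ∀ t, (up j r z t).1 = z.1 := fun t => rfl
    rintro ⟨_ | k, c⟩
    · simp only [Option.elim_none, map_mul, eval_X]
      rfl
    · simp only [Option.elim_some, Pi.smul_apply, smul_eq_mul, (hb d M _ A σ).th_some, e3]
      induction k using j.succAboveCases with
      | x =>
        rw [Fin.insertNth_apply_same, e1, up_same]
        field_simp
      | p i =>
        rw [Fin.insertNth_apply_succAbove, up_succ, map_add, map_mul, map_mul, eval_X, eval_X,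
          eval_C, e1, e2, (hb d M _ A _).th_some, sg, map_sub, map_smul]
        simp only [Pi.sub_apply, Pi.smul_apply, smul_eq_mul]
        field_simp
        ring

theorem loc (hb : BasS) (ha : AddS) (A : VX d M) (σ : Fin (e + 1) → E d) {F : Sp d (e + 1) → ℂ}
    {F' : Sp d e → ℂ} (hF : ∀ z, Loc (Th A σ) 1 F z) (hF' : ∀ z, F z = F' (pr j r d z))
    (z₀ : Sp d e) : Loc (Th A (sg j r σ)) 1 F' z₀ := by
  obtain ⟨a, h0⟩ := Function.ne_iff.1 (A.ne_zero z₀.1)
  replace h0 : A.θ z₀.1 a ≠ 0 := h0
  obtain ⟨R, t, hR, hR'⟩ := sect j r hb ha A σ a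
  obtain ⟨m, Q, P, hQ, hP, h1, h2⟩ := hF (up j r z₀ (t z₀))
  have e2 : ∀ z, Th A (sg j r σ) z (none, a) = A.θ z.1 a := fun z => rfl
  refine ⟨2 + 2 * m, X (none, a) ^ 2 * aeval R Q, X (none, a) * aeval R P,
    (isHomogeneous_X_pow _ _).mul (hQ.aeval R hR), ?_, ?_, fun z => ?_⟩
  · rw [show 1 + (2 + 2 * m) = 1 + 2 * (1 + m) by ring]
    exact (isHomogeneous_X ℂ _).mul (hP.aeval R hR)
  · rw [ev, map_mul, map_pow, eval_X, e2, eval_aeval', hR' _ h0, LT.eval_smul_of_hom hQ]
    exact mul_ne_zero (pow_ne_zero _ h0) (mul_ne_zero (pow_ne_zero _ h0) h1)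
  · rw [ev, ev, map_mul, map_mul, map_pow, eval_X, e2]
    by_cases hz : A.θ z.1 a = 0
    · simp [hz]
    · have h3 := h2 (up j r z (t z))
      rw [hF', pr_up, ev, ev] at h3
      rw [eval_aeval', eval_aeval', hR' _ hz, LT.eval_smul_of_hom hQ, LT.eval_smul_of_hom hP, ← h3]
      ring

end DescAux

open DescAux in
theorem desc (_h : LocS) (hb : BasS) (ha : AddS) : DescS := by
  intro d M e A σ n hn
  obtain ⟨j, hj⟩ := Function.ne_iff.1 hn
  replace hj : n j ≠ 0 := hj
  set r : Fin e → ℂ := fun i => n (j.succAbove i) / n j with hr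
  refine ⟨sg j r σ, pr j r d, adm j r A σ, fun k F hF hF' => ?_⟩
  have h1 : ∀ z, F z = F (up j r (pr j r d z) 0) := fun z => const j hj hF' (pr_up j r _ 0).symm
  refine ⟨fun z => F (up j r z 0), ⟨⟨hF.1.diff.comp (diff_up j r), fun l hl z => ?_,
    fun z u => ?_⟩, loc j r hb ha A σ hF.2 h1⟩, h1⟩
  · rw [const j hj hF' (z := up j r (z + lift A (sg j r σ) l) 0) (w := up j r z 0 + lift A σ l)
      (by rw [map_add, pr_up, pr_up, pr_lift]), hF.1.aut l hl]
    rfl
  · obtain ⟨p, hp, hp'⟩ := hF.1.poly (up j r z 0) (up j r ((0, u) : Sp d e) 0).2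
    refine ⟨p, hp, fun τ => ?_⟩
    rw [← hp']
    refine const j hj hF' ?_
    rw [map_add, map_smul, pr_up, pr_up]
    exact congrArg (fun w => z + τ • w) (pr_up j r ((0, u) : Sp d e) 0).symm

end Pool.Agent.Lib.MP_caab05_ag.ZE
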