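import Mathlib
import Pool.Agent.Lib.MP_caab05_ag.ZE.Stmt
import Pool.Agent.Lib.MP_caab05_ag.LT.Eqs

/-! Equations for the loci of high vanishing order on a vector extension. -/

namespace Pool.Agent.Lib.MP_caab05_ag.ZE

open MvPolynomial Filter Topology Asymptotics Complex
open Pool.Agent.Lib.MP_caab05_ag.LT (E AbVar Pol)

namespace EqsAux

/-- a continuous factor does not lower the order -/
lemma mul_isBigO {f g : ℂ → ℂ} (hg : Continuous g) :
    (fun τ => f τ * g τ) =O[𝓝 0] f := by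
  have h2 : g =O[𝓝 0] fun _ => (1 : ℂ) := hg.continuousAt.isBigO_one ℂ
  simpa only [mul_one] using (isBigO_refl f (𝓝 0)).mul h2

/-- a continuous factor which does not vanish does not raise the order -/
lemma isBigO_mul {f g : ℂ → ℂ} (hg : Continuous g) (h0 : g 0 ≠ 0) :
    f =O[𝓝 0] fun τ => f τ * g τ := by
  have h2 : (fun τ => (g τ)⁻¹) =O[𝓝 0] fun _ => (1 : ℂ) :=
    (hg.continuousAt.inv₀ h0).isBigO_one ℂ
  have h3 := (isBigO_refl (fun τ => f τ * g τ) (𝓝 0)).mul h2
  simp only [mul_one] at h3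
  refine h3.congr' ?_ EventuallyEq.rfl
  filter_upwards [hg.continuousAt.eventually_ne h0] with τ hτ
  rw [mul_inv_cancel_right₀ hτ]

end EqsAux

open EqsAux in
theorem eqs (ht : TrS) : EqsS := by
  intro d M e A σ D F hF W v N
  have hFd : Differentiable ℂ F := hF.1.diff
  have hθ : ∀ b, Differentiable ℂ fun x => A.θ x b := fun b => differentiable_pi.1 A.holo b
  have hg : ∀ (z w : Sp d e) b, Differentiable ℂ fun τ : ℂ => A.θ (z.1 - v.1 - τ • w.1) b :=
    fun z w b => (hθ b).comp (f := fun τ : ℂ => z.1 - v.1 - τ • w.1) (by fun_prop)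
  have hdiff : ∀ (z w : Sp d e) b, Differentiable ℂ fun τ : ℂ =>
      F (z + v + τ • w) * A.θ (z.1 - v.1 - τ • w.1) b :=
    fun z w b => (hFd.comp (f := fun τ : ℂ => z + v + τ • w) (by fun_prop)).mul (hg z w b)
  refine ⟨{G | ∃ w b j, w ∈ W ∧ j < N ∧ G = fun z => iteratedDeriv j (fun τ : ℂ =>
      F (z + v + τ • w) * A.θ (z.1 - v.1 - τ • w.1) b) 0}, ?_, ?_, ?_⟩
  · rintro G ⟨w, b, j, -, -, rfl⟩
    exact (ht d M e A σ).tr D F hF v w b j
  · intro z
    constructor
    · intro h w hw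
      obtain ⟨b, hb⟩ : ∃ b, A.θ (z.1 - v.1) b ≠ 0 := by
        by_contra hcon
        push Not at hcon
        exact A.ne_zero _ (funext hcon)
      have h1 : (fun τ : ℂ => F (z + v + τ • w) * A.θ (z.1 - v.1 - τ • w.1) b) =O[𝓝 0]
          fun τ : ℂ => τ ^ N := by
        refine (LT.isBigO_pow_iff ((hdiff z w b).analyticAt 0) N).2 fun j hj => ?_
        exact h _ ⟨w, b, j, hw, hj, rfl⟩
      exact (isBigO_mul (hg z w b).continuous (by simpa using hb)).trans h1
    · rintro h G ⟨w, b, j, hw, hj, rfl⟩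
      refine (LT.isBigO_pow_iff ((hdiff z w b).analyticAt 0) N).1 ?_ j hj
      exact (mul_isBigO (hg z w b).continuous).trans (h w hw)
  · rintro T h G ⟨w, b, j, hw, hj, rfl⟩ u hu
    simp only [zero_add]
    refine LT.EqsAux.deriv_isBigO (H := fun p : ℂ × ℂ =>
      F (p.1 • u + v + p.2 • w) * A.θ ((p.1 • u).1 - v.1 - p.2 • w.1) b) ?_ (n := N + T)
      (by omega) fun a c => ?_
    · exact (hFd.comp (f := fun p : ℂ × ℂ => p.1 • u + v + p.2 • w) (by fun_prop)).mul
        ((hθ b).comp (f := fun p : ℂ × ℂ => (p.1 • u).1 - v.1 - p.2 • w.1) (by fun_prop))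
    · have h2 : Continuous fun s : ℂ => A.θ (((s * a) • u).1 - v.1 - (s * c) • w.1) b :=
        (hθ b).continuous.comp (f := fun s : ℂ => ((s * a) • u).1 - v.1 - (s * c) • w.1)
          (by fun_prop)
      refine (mul_isBigO h2).trans ?_
      have h3 := h (a • u + c • w) (W.add_mem (W.smul_mem a hu) (W.smul_mem c hw))
      refine h3.congr_left fun s => ?_
      congr 1
      module

end Pool.Agent.Lib.MP_caab05_ag.ZE
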