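import Mathlib
import Pool.Agent.Lib.MP_caab05_ag.ZE.Stmt
import Pool.Agent.Lib.MP_caab05_ag.LT.Stab

/-! Closed subgroups containing the periods. -/

namespace Pool.Agent.Lib.MP_caab05_ag.ZE

open MvPolynomial Filter Topology Asymptotics Complex
open Pool.Agent.Lib.MP_caab05_ag.LT (E AbVar Pol)

namespace GrpAux

variable {d M : ℕ}

/-- the union of the complex lines inside `G` -/
def lines (G : AddSubgroup (E d)) : Submodule ℂ (E d) where
  carrier := {u | ∀ t : ℂ, t • u ∈ G}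
  zero_mem' := fun t => by simp
  add_mem' := fun {a b} ha hb t => by
    rw [smul_add]
    exact G.add_mem (ha t) (hb t)
  smul_mem' := fun c u hu t => by
    rw [smul_smul]
    exact hu _

lemma lines_le {G : AddSubgroup (E d)} {u : E d} (hu : u ∈ lines G) : u ∈ G := by
  simpa using hu 1

/-- a bounded piece of `G` lies in finitely many cosets of `lines G` -/
lemma exists_cosets (G : AddSubgroup (E d)) (hG : IsClosed (G : Set (E d)))
    (hr : ∀ u : E d, (∀ t : ℝ, t • u ∈ G) → ∀ τ : ℂ, τ • u ∈ G) (R : ℝ) :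
    ∃ F : Set (E d), F.Finite ∧ ∀ g ∈ G, ‖g‖ ≤ R → ∃ f ∈ F, g - f ∈ lines G := by
  obtain ⟨U', hU'⟩ := (lines G).exists_isCompl
  let π : E d →L[ℂ] E d := LinearMap.toContinuousLinearMap (U'.projection (lines G) hU'.symm)
  let G' : AddSubgroup (E d) := G ⊓ U'.toAddSubgroup
  have hG' : IsClosed (G' : Set (E d)) := hG.inter U'.closed_of_finiteDimensional
  have hfin := LT.StabAux.finite_of_no_line G' hG' (fun u hu => by
    have h1 : u ∈ lines G := hr u fun t => (hu t).1
    have h2 : u ∈ U' := by simpa using (hu 1).2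
    exact (Submodule.disjoint_def.1 hU'.disjoint) u h1 h2) (‖π‖ * R)
  refine ⟨_, hfin, fun g hg hR => ?_⟩
  have h1 : g - π g ∈ lines G := Submodule.sub_projection_mem hU'.symm g
  refine ⟨π g, ⟨?_, ?_, Submodule.projection_apply_mem hU'.symm g⟩, h1⟩
  · rw [mem_closedBall_zero_iff]
    exact (π.le_opNorm g).trans (mul_le_mul_of_nonneg_left hR (norm_nonneg _))
  · have := G.sub_mem hg (lines_le h1)
    rwa [sub_sub_cancel] at this

/-- the periods inside `lines G` span it over the reals -/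
lemma span_lines (A : AbVar d M) (G : AddSubgroup (E d)) (hGc : IsClosed (G : Set (E d)))
    (hΛ : ∀ l ∈ A.Λ, l ∈ G) (hr : ∀ u : E d, (∀ t : ℝ, t • u ∈ G) → ∀ τ : ℂ, τ • u ∈ G) :
    Submodule.span ℝ ((lines G : Set (E d)) ∩ (A.Λ : Set (E d))) =
      (lines G).restrictScalars ℝ := by
  refine le_antisymm (Submodule.span_le.2 fun x hx => hx.1) fun u hu => ?_
  set S := Submodule.span ℝ ((lines G : Set (E d)) ∩ (A.Λ : Set (E d))) with hS
  obtain ⟨R, hR⟩ := LT.exists_fund A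
  obtain ⟨F, hF, hF'⟩ := exists_cosets G hGc hr R
  have key : ∀ v ∈ lines G, ∃ m : ℝ, 1 ≤ m ∧ ∃ s ∈ S, ‖m • v - s‖ ≤ 2 * R := by
    intro v hv
    choose l hl hlR using fun k : ℕ => hR (k • v)
    have hG : ∀ k : ℕ, k • v - l k ∈ G := fun k =>
      G.sub_mem (G.nsmul_mem (lines_le hv) k) (hΛ _ (hl k))
    choose f hf hfU using fun k : ℕ => hF' _ (hG k) (hlR k)
    obtain ⟨a, b, hab, e⟩ := hF.exists_lt_map_eq_of_forall_mem hf
    obtain ⟨m, rfl⟩ := Nat.exists_eq_add_of_lt hab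
    have e1 : ((m : ℝ) + 1) • v - (l (a + m + 1) - l a) =
        ((a + m + 1) • v - l (a + m + 1)) - (a • v - l a) := by
      rw [add_smul, one_smul, Nat.cast_smul_eq_nsmul, add_nsmul, add_nsmul, one_nsmul]
      abel
    refine ⟨m + 1, by simp, l (a + m + 1) - l a,
      Submodule.subset_span ⟨?_, A.Λ.sub_mem (hl _) (hl _)⟩, ?_⟩
    · have h1 := (lines G).sub_mem (hfU (a + m + 1)) (hfU a)
      rw [e, sub_sub_sub_cancel_right, ← e1] at h1
      have h2 : ((m : ℝ) + 1) • v ∈ lines G := ((lines G).restrictScalars ℝ).smul_mem _ hv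
      have h3 := (lines G).sub_mem h2 h1
      rwa [sub_sub_cancel] at h3
    · rw [e1]
      exact (norm_sub_le _ _).trans (by linarith [hlR (a + m + 1), hlR a])
  have hcl : IsClosed (S : Set (E d)) := S.closed_of_finiteDimensional
  have hR0 : 0 ≤ R := by
    obtain ⟨l, -, hl⟩ := hR 0
    exact (norm_nonneg _).trans hl
  have : u ∈ closure (S : Set (E d)) := by
    rw [Metric.mem_closure_iff]
    intro ε hε
    obtain ⟨m, hm, s, hs, hb⟩ := key (((2 * R + 1) / ε : ℝ) • u)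
      (((lines G).restrictScalars ℝ).smul_mem _ hu)
    rw [smul_smul] at hb
    have hc0 : 0 < (2 * R + 1) / ε := by positivity
    have hc : 0 < m * ((2 * R + 1) / ε) := by positivity
    refine ⟨(m * ((2 * R + 1) / ε))⁻¹ • s, S.smul_mem _ hs, ?_⟩
    have e : u - (m * ((2 * R + 1) / ε))⁻¹ • s =
        (m * ((2 * R + 1) / ε))⁻¹ • ((m * ((2 * R + 1) / ε)) • u - s) := by
      rw [smul_sub, smul_smul, inv_mul_cancel₀ hc.ne', one_smul]
    rw [dist_eq_norm, e, norm_smul, Real.norm_eq_abs, abs_of_pos (inv_pos.2 hc),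
      inv_mul_lt_iff₀ hc]
    have h1 : m * ((2 * R + 1) / ε) * ε = m * (2 * R + 1) := by field_simp
    rw [h1]
    nlinarith
  rwa [hcl.closure_eq] at this

end GrpAux

open GrpAux in
theorem grp : GrpS := by
  intro d M A G hG hΛ hr
  by_cases hU : lines G = ⊥
  · right
    obtain ⟨R, hR⟩ := LT.exists_fund A.toAbVar
    obtain ⟨F, hF, hF'⟩ := exists_cosets G hG hr R
    refine ⟨F, hF, fun g hg => ?_⟩
    obtain ⟨l, hl, hlR⟩ := hR g
    obtain ⟨f, hf, hf'⟩ := hF' _ (G.sub_mem hg (hΛ l hl)) hlR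
    rw [hU, Submodule.mem_bot, sub_eq_zero] at hf'
    refine ⟨f, hf, ?_⟩
    rw [← hf', sub_sub_cancel]
    exact hl
  · exact Or.inl ⟨lines G, span_lines A.toAbVar G hG hΛ hr, hU, fun u hu => lines_le hu⟩

end Pool.Agent.Lib.MP_caab05_ag.ZE
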