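import Mathlib
import Pool.Agent.Lib.MP_caab05_ag.ZE.Stmt

/-! The Hilbert function in two variables, by finite differences along the fibres. -/

namespace Pool.Agent.Lib.MP_caab05_ag.ZE

open MvPolynomial Filter Topology Asymptotics Complex
open Pool.Agent.Lib.MP_caab05_ag.LT (E AbVar Pol)

namespace HilAux

theorem rank_pow {V : Type} [AddCommGroup V] [Module ℂ V] (Δ : Module.End ℂ V)
    (K : Submodule ℂ V) (hK : ∀ v ∈ K, Δ v ∈ K) (i : ℕ) :
    Module.rank ℂ (K ⊓ LinearMap.ker (Δ ^ i) : Submodule ℂ V)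
      ≤ i * Module.rank ℂ (K ⊓ LinearMap.ker Δ : Submodule ℂ V) := by
  have hKi : ∀ (i : ℕ), ∀ v ∈ K, (Δ ^ i) v ∈ K := by
    intro i v hv
    induction i with
    | zero => simpa using hv
    | succ i ih => rw [pow_succ', Module.End.mul_apply]; exact hK _ ih
  induction i with
  | zero =>
    rw [pow_zero, Module.End.one_eq_id, LinearMap.ker_id, inf_bot_eq, rank_bot]
    exact zero_le
  | succ i ih =>
    let g := (Δ ^ i).domRestrict (K ⊓ LinearMap.ker (Δ ^ (i + 1)))
    have h1 := LinearMap.rank_range_add_rank_ker g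
    have h2 : LinearMap.range g ≤ K ⊓ LinearMap.ker Δ := by
      rintro _ ⟨⟨v, hv1, hv2⟩, rfl⟩
      refine ⟨hKi i v hv1, ?_⟩
      have h : (Δ ^ (i + 1)) v = 0 := hv2
      rw [pow_succ', Module.End.mul_apply] at h
      exact h
    have h3 : Module.rank ℂ (LinearMap.ker g)
        ≤ Module.rank ℂ (K ⊓ LinearMap.ker (Δ ^ i) : Submodule ℂ V) := by
      let j : LinearMap.ker g →ₗ[ℂ] (K ⊓ LinearMap.ker (Δ ^ i) : Submodule ℂ V) :=
        LinearMap.codRestrict _ ((Submodule.subtype _).comp (Submodule.subtype _))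
          fun v => ⟨v.1.2.1, v.2⟩
      refine j.rank_le_of_injective fun a b hab => ?_
      have h := congrArg Subtype.val hab
      exact Subtype.ext (Subtype.ext h)
    rw [← h1, Nat.cast_succ, add_mul, one_mul, add_comm]
    exact add_le_add (h3.trans ih) (Submodule.rank_mono h2)

variable {d M e : ℕ}

/-- the unit vectors of the fibre -/
noncomputable def un (d : ℕ) (j : Fin e) : Sp d e := (0, Pi.single j 1)

/-- functions invariant along the first `r` coordinate lines of the fibre -/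
def KK (A : VX d M) (σ : Fin e → E d) (hb : BasP A σ) (n k r : ℕ) :
    Submodule ℂ (Sp d e → ℂ) where
  carrier := {F | InQ A σ n k F ∧ ∀ j : Fin e, j.val < r → ∀ z (τ : ℂ), F (z + τ • un d j) = F z}
  add_mem' := fun {F G} hF hG => ⟨hb.qadd n k F G hF.1 hG.1, fun j hj z τ => by
    simp only [Pi.add_apply, hF.2 j hj, hG.2 j hj]⟩
  zero_mem' := ⟨hb.qzero n k, fun _ _ _ _ => rfl⟩
  smul_mem' := fun c F hF => ⟨hb.qsmul n k c F hF.1, fun j hj z τ => by
    simp only [Pi.smul_apply, hF.2 j hj]⟩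

/-- the finite difference -/
def Dl (v : Sp d e) : Module.End ℂ (Sp d e → ℂ) where
  toFun := fun F z => F (z + v) - F z
  map_add' := fun F G => by ext z; simp only [Pi.add_apply]; ring
  map_smul' := fun c F => by ext z; simp only [Pi.smul_apply, smul_eq_mul, RingHom.id_apply]; ring

theorem Dl_pow (v : Sp d e) (i : ℕ) (F : Sp d e → ℂ) (z : Sp d e) :
    (fun τ : ℂ => ((Dl v ^ i) F) (z + τ • v))
      = (fwdDiff (1 : ℂ))^[i] fun τ : ℂ => F (z + τ • v) := by
  induction i with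
  | zero => rfl
  | succ i ih =>
    rw [Function.iterate_succ_apply', ← ih, pow_succ', Module.End.mul_apply]
    ext τ
    simp only [fwdDiff, Dl, LinearMap.coe_mk, AddHom.coe_mk, add_smul, one_smul, add_assoc]

theorem const_of_periodic (p : Polynomial ℂ) (h : ∀ τ, p.eval (τ + 1) = p.eval τ) (τ : ℂ) :
    p.eval τ = p.eval 0 := by
  have h1 : ∀ m : ℕ, p.eval (m : ℂ) = p.eval 0 := by
    intro m
    induction m with
    | zero => simp
    | succ m ih => rw [Nat.cast_succ, h, ih]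
  have h2 : p = Polynomial.C (p.eval 0) := by
    refine Polynomial.eq_of_infinite_eval_eq _ _ ?_
    refine (Set.infinite_range_of_injective (Nat.cast_injective (R := ℂ))).mono ?_
    rintro _ ⟨m, rfl⟩
    simp [h1 m]
  rw [h2, Polynomial.eval_C, Polynomial.eval_C]

theorem step (A : VX d M) (σ : Fin e → E d) (hb : BasP A σ) (n k r : ℕ) (hr : r < e) :
    Module.rank ℂ (KK A σ hb n k r) ≤ (k + 1 : ℕ) * Module.rank ℂ (KK A σ hb n k (r + 1)) := by
  set v : Sp d e := un d ⟨r, hr⟩ with hv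
  have h1 : ∀ F ∈ KK A σ hb n k r, Dl v F ∈ KK A σ hb n k r := by
    intro F hF
    refine ⟨?_, fun j hj z τ => ?_⟩
    · have := hb.qadd n k _ _ (hb.qvt n k F (Pi.single ⟨r, hr⟩ 1) hF.1) (hb.qsmul n k (-1) F hF.1)
      simpa only [neg_one_mul, ← sub_eq_add_neg] using! this
    · change F (z + τ • un d j + v) - F (z + τ • un d j) = F (z + v) - F z
      rw [add_right_comm, hF.2 j hj, hF.2 j hj]
  have h2 := rank_pow (Dl v) _ h1 (k + 1)
  have h3 : KK A σ hb n k r ⊓ LinearMap.ker (Dl v ^ (k + 1)) = KK A σ hb n k r := by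
    refine inf_eq_left.mpr fun F hF => ?_
    ext z
    obtain ⟨p, hp, hF'⟩ := hF.1.poly z (Pi.single ⟨r, hr⟩ 1)
    have h4 := congrFun (Dl_pow v (k + 1) F z) 0
    have h5 : (fun τ : ℂ => F (z + τ • v)) = p.eval := funext hF'
    rw [h5, Polynomial.fwdDiff_iter_eq_zero_of_degree_lt (Nat.lt_succ_of_le hp), zero_smul,
      add_zero] at h4
    exact h4
  have h4 : KK A σ hb n k r ⊓ LinearMap.ker (Dl v) ≤ KK A σ hb n k (r + 1) := by
    rintro F ⟨hF, hF0⟩
    refine ⟨hF.1, fun j hj z τ => ?_⟩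
    rcases Nat.lt_succ_iff_lt_or_eq.mp hj with h | h
    · exact hF.2 j h z τ
    · have hj' : j = ⟨r, hr⟩ := Fin.ext h
      obtain ⟨p, -, hF'⟩ := hF.1.poly z (Pi.single ⟨r, hr⟩ 1)
      have h5 : ∀ τ : ℂ, F (z + τ • v) = p.eval τ := hF'
      have h6 : ∀ τ, p.eval (τ + 1) = p.eval τ := by
        intro τ
        have h7 : F (z + τ • v + v) - F (z + τ • v) = 0 := congrFun hF0 (z + τ • v)
        rw [← h5, ← h5, add_smul, one_smul, ← add_assoc]
        exact sub_eq_zero.mp h7
      have h8 := h5 0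
      rw [zero_smul, add_zero] at h8
      rw [hj', ← hv, h5, const_of_periodic p h6, h8]
  rw [h3] at h2
  exact h2.trans (mul_le_mul_right (Submodule.rank_mono h4) _)

theorem inv_all {A : VX d M} {σ : Fin e → E d} {hb : BasP A σ} {n k : ℕ} {F : Sp d e → ℂ}
    (hF : F ∈ KK A σ hb n k e) (x : E d) (u : E e) : F (x, u) = F (x, 0) := by
  classical
  have h : ∀ s : Finset (Fin e), F ((x, 0) + ∑ j ∈ s, u j • un d j) = F (x, 0) := by
    intro s
    induction s using Finset.induction_on with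
    | empty => simp
    | insert j s hj ih => rw [Finset.sum_insert hj, add_comm (u j • _), ← add_assoc,
        hF.2 j j.2, ih]
  rw [← h Finset.univ]
  congr 1
  ext i
  · simp [un, Prod.fst_sum]
  · simp [un, Prod.snd_sum, Pi.single_apply]

theorem base (A : VX d M) (σ : Fin e → E d) (hb : BasP A σ) (n k : ℕ) (C : ℝ)
    (h0 : ∀ (κ : Type) [Fintype κ] (F : κ → E d → ℂ), (∀ i, Differentiable ℂ (F i)) →
      (∀ i, ∀ l ∈ A.Λ, ∀ z, F i (z + l) = cexp (A.H l ⬝ᵥ z + A.β l) ^ n * F i z) →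
      LinearIndependent ℂ F → (Fintype.card κ : ℝ) ≤ C) :
    Module.rank ℂ (KK A σ hb n k e) ≤ ⌊C⌋₊ := by
  let res : KK A σ hb n k e →ₗ[ℂ] (E d → ℂ) :=
    { toFun := fun F x => F.1 (x, 0)
      map_add' := fun _ _ => rfl
      map_smul' := fun _ _ => rfl }
  have hres : LinearMap.ker res = ⊥ := by
    rw [LinearMap.ker_eq_bot']
    intro F hF
    ext ⟨x, u⟩
    rw [inv_all F.2]
    exact congrFun hF x
  refine rank_le fun s hs => Nat.le_floor ?_
  have := h0 s (fun i => res i) (fun i => ?_) (fun i l hl z => ?_) (hs.map' res hres)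
  · simpa using this
  · exact i.1.2.1.diff.comp (differentiable_id.prodMk (differentiable_const _))
  · have h1 := i.1.2.1.aut l hl (z, 0)
    change i.1.1 (z + l, 0) = _ * i.1.1 (z, 0)
    rw [← h1, ← inv_all i.1.2 (z + l) (0 + (lift A σ l).2)]
    rfl

end HilAux

theorem hil (h0 : Hil0S) (hb : BasS) : HilS := by
  intro d M A
  obtain ⟨C, hC, h0⟩ := h0 d M A
  refine ⟨C, hC, fun e σ n k κ _ F hF hli => ?_⟩
  have hb := hb d M e A σ
  have h1 : ∀ s r : ℕ, r + s = e → Module.rank ℂ (HilAux.KK A σ hb n k r)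
      ≤ (((k + 1) ^ s * ⌊C * ((n : ℝ) + 1) ^ d⌋₊ : ℕ) : Cardinal) := by
    intro s
    induction s with
    | zero =>
      intro r hr
      obtain rfl : r = e := hr
      rw [pow_zero, one_mul]
      exact HilAux.base A σ hb n k _ (h0 n)
    | succ s ih =>
      intro r hr
      refine (HilAux.step A σ hb n k r (by omega)).trans ?_
      rw [pow_succ', mul_assoc, Nat.cast_mul (k + 1)]
      exact mul_le_mul_right (ih (r + 1) (by omega)) _
  let G : κ → HilAux.KK A σ hb n k 0 := fun i => ⟨F i, hF i, fun j hj => absurd hj (by omega)⟩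
  have hG : LinearIndependent ℂ G := LinearIndependent.of_comp (Submodule.subtype _) hli
  have h2 := hG.cardinal_le_rank.trans (h1 e 0 (zero_add e))
  rw [Cardinal.mk_fintype] at h2
  have h3 : Fintype.card κ ≤ (k + 1) ^ e * ⌊C * ((n : ℝ) + 1) ^ d⌋₊ := by exact_mod_cast h2
  have h4 : (⌊C * ((n : ℝ) + 1) ^ d⌋₊ : ℝ) ≤ C * ((n : ℝ) + 1) ^ d :=
    Nat.floor_le (by positivity)
  calc (Fintype.card κ : ℝ) ≤ ((k : ℝ) + 1) ^ e * ⌊C * ((n : ℝ) + 1) ^ d⌋₊ := by exact_mod_cast h3
    _ ≤ ((k : ℝ) + 1) ^ e * (C * ((n : ℝ) + 1) ^ d) := by gcongr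
    _ = _ := by ring

end Pool.Agent.Lib.MP_caab05_ag.ZE
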