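import Mathlib
import Pool.Agent.Lib.MP_caab05_ag.ZE.Stmt
import Pool.Agent.Lib.MP_caab05_ag.LT.ZeroC

/-! Dimension and order at the origin of theta functions. -/

namespace Pool.Agent.Lib.MP_caab05_ag.ZE

open MvPolynomial Filter Topology Asymptotics Complex
open Pool.Agent.Lib.MP_caab05_ag.LT (E AbVar Pol)

namespace Hil0Aux

variable {d M : ℕ}

lemma norm_factor {A : VX d M} {q : E d → ℝ}
    (hq : ∀ l ∈ A.Λ, ∀ z, ∃ κ : ℂ, A.θ (z + l) = κ • A.θ z ∧ ‖κ‖ = Real.exp (q (z + l) - q z))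
    {l : E d} (hl : l ∈ A.Λ) (z : E d) :
    ‖cexp (A.H l ⬝ᵥ z + A.β l)‖ = Real.exp (q (z + l) - q z) := by
  obtain ⟨κ, h1, h2⟩ := hq l hl z
  rw [A.law l hl z] at h1
  rw [smul_left_injective ℂ (A.ne_zero z) h1, h2]

lemma period {A : VX d M} {q : E d → ℝ}
    (hq : ∀ l ∈ A.Λ, ∀ z, ∃ κ : ℂ, A.θ (z + l) = κ • A.θ z ∧ ‖κ‖ = Real.exp (q (z + l) - q z))
    {F : E d → ℂ} {m : ℕ}
    (hF : ∀ l ∈ A.Λ, ∀ z, F (z + l) = cexp (A.H l ⬝ᵥ z + A.β l) ^ m * F z) {l : E d}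
    (hl : l ∈ A.Λ) (z : E d) :
    ‖F (z + l)‖ * Real.exp (-(m * q (z + l))) = ‖F z‖ * Real.exp (-(m * q z)) := by
  rw [hF l hl z, norm_mul, norm_pow, norm_factor hq hl, ← Real.exp_nat_mul, mul_right_comm,
    ← Real.exp_add, mul_comm]
  congr 2
  ring

/-- the normalised absolute value has a maximum on the fundamental ball -/
lemma exists_max {A : VX d M} {q : E d → ℝ} (hqc : Continuous q)
    (hq : ∀ l ∈ A.Λ, ∀ z, ∃ κ : ℂ, A.θ (z + l) = κ • A.θ z ∧ ‖κ‖ = Real.exp (q (z + l) - q z))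
    {R : ℝ} (hR : ∀ z : E d, ∃ l ∈ A.Λ, ‖z - l‖ ≤ R) {F : E d → ℂ} {m : ℕ} (hc : Continuous F)
    (hF : ∀ l ∈ A.Λ, ∀ z, F (z + l) = cexp (A.H l ⬝ᵥ z + A.β l) ^ m * F z) (h0 : F ≠ 0) :
    ∃ (z₀ : E d) (μ : ℝ), ‖z₀‖ ≤ R ∧ 0 < μ ∧ ‖F z₀‖ = μ * Real.exp (m * q z₀) ∧
      ∀ z, ‖F z‖ ≤ μ * Real.exp (m * q z) := by
  have hR0 : 0 ≤ R := by
    obtain ⟨l, -, hl⟩ := hR 0
    exact (norm_nonneg _).trans hl
  let φ : E d → ℝ := fun z => ‖F z‖ * Real.exp (-(m * q z))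
  have hφ : Continuous φ :=
    hc.norm.mul (Real.continuous_exp.comp (continuous_const.mul hqc).neg)
  obtain ⟨z₀, hz₀, hmax⟩ := (isCompact_closedBall (0 : E d) R).exists_isMaxOn
    ⟨0, by simpa using hR0⟩ hφ.continuousOn
  have hall : ∀ z, φ z ≤ φ z₀ := by
    intro z
    obtain ⟨l, hl, hz⟩ := hR z
    have h1 := period hq hF hl (z - l)
    rw [sub_add_cancel] at h1
    have h2 : φ (z - l) ≤ φ z₀ := hmax (mem_closedBall_zero_iff.2 hz)
    exact h1.le.trans h2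
  have hev : ∀ z, ‖F z‖ = φ z * Real.exp (m * q z) := fun z => by
    simp only [φ]
    rw [mul_assoc, ← Real.exp_add, neg_add_cancel, Real.exp_zero, mul_one]
  refine ⟨z₀, φ z₀, mem_closedBall_zero_iff.1 hz₀, ?_, hev z₀, fun z => ?_⟩
  · obtain ⟨z, hz⟩ := Function.ne_iff.1 h0
    exact (mul_pos (norm_pos_iff.2 hz) (Real.exp_pos _)).trans_le (hall z)
  · rw [hev]
    exact mul_le_mul_of_nonneg_right (hall z) (Real.exp_pos _).le

end Hil0Aux

open Hil0Aux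

theorem hil0 : Hil0S := by
  classical
  intro d M A
  obtain ⟨q, c, hc, hqc, hq, hper, -⟩ := LT.exists_quad A.toAbVar
  obtain ⟨R, hR⟩ := LT.exists_fund A.toAbVar
  obtain ⟨C, hC, hnet⟩ := LT.net (∅ : Finset (Fin d))
    (c * ‖ContinuousLinearMap.id ℂ (E d)‖ ^ 2) R (by positivity)
  refine ⟨C, hC, fun m ι _ F hd hF hli => ?_⟩
  have hm : (0 : ℝ) ≤ m := Nat.cast_nonneg m
  have ha : 1 ≤ √((m : ℝ) + 1) := Real.one_le_sqrt.2 (by linarith)
  have ha2 : √((m : ℝ) + 1) ^ 2 = m + 1 := Real.sq_sqrt (by linarith)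
  obtain ⟨s, -, hs, hG⟩ := hnet _ _ ha le_rfl
  rw [Finset.card_empty, pow_zero, mul_one, Nat.sub_zero, pow_mul, ha2] at hs
  refine le_trans ?_ hs
  by_contra hlt
  have hlt' : s.card < Fintype.card ι := by exact_mod_cast not_le.1 hlt
  obtain ⟨lam, hlam, hne⟩ : ∃ lam : ι → ℂ, (∀ p ∈ s, ∑ i, lam i * F i p = 0) ∧ lam ≠ 0 := by
    let f : (ι → ℂ) →ₗ[ℂ] s → ℂ := (Matrix.of fun (p : s) i => F i p).mulVecLin
    have h1 : LinearMap.ker f ≠ ⊥ := LinearMap.ker_ne_bot_of_finrank_lt (by simpa using hlt')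
    obtain ⟨lam, h2, h3⟩ := (Submodule.ne_bot_iff _).1 h1
    refine ⟨lam, fun p hp => ?_, h3⟩
    have h4 := congrFun (LinearMap.mem_ker.1 h2) ⟨p, hp⟩
    simpa [f, Matrix.mulVec, dotProduct, mul_comm] using h4
  let G : E d → ℂ := fun z => ∑ i, lam i * F i z
  have hGd : Differentiable ℂ G := Differentiable.fun_sum fun i _ => (hd i).const_mul _
  have hGF : ∀ l ∈ A.Λ, ∀ z, G (z + l) = cexp (A.H l ⬝ᵥ z + A.β l) ^ m * G z := by
    intro l hl z
    simp only [G, Finset.mul_sum]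
    refine Finset.sum_congr rfl fun i _ => ?_
    rw [hF i l hl z]
    ring
  have hG0 : G ≠ 0 := by
    intro h
    apply hne
    funext i
    refine Fintype.linearIndependent_iff.1 hli lam ?_ i
    funext z
    simpa [G] using congrFun h z
  obtain ⟨z0, μ, -, hμ0, h5, hle⟩ := exists_max hqc hper hR hGd.continuous hGF hG0
  have hn : ∀ z, ‖((μ⁻¹ : ℝ) : ℂ) * G z‖ = μ⁻¹ * ‖G z‖ := by
    intro z
    rw [norm_mul, Complex.norm_real, Real.norm_of_nonneg (by positivity)]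
  have key := hG (fun z => ((μ⁻¹ : ℝ) : ℂ) * G z) (fun z => m * (q z + 0)) (1 / 2)
    (hGd.const_mul _)
    (LT.AuxPAux.quadr_comp (by linarith) hq (ContinuousLinearMap.id ℂ (E d)) 0 hm (by
      rw [ha2, mul_comm]
      gcongr
      linarith))
    (fun z => by
      rw [hn, inv_mul_le_iff₀ hμ0]
      refine (hle z).trans ?_
      gcongr
      rw [add_zero]
      linarith [sq_nonneg √((m : ℝ) + 1)])
    (fun u _ => by
      obtain ⟨l, hl, h1⟩ := hR u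
      refine ⟨u - l, by simp [LT.Ur], h1, ?_⟩
      have h2 := period hper hGF hl (u - l)
      rw [sub_add_cancel] at h2
      simp only [hn, add_zero, mul_assoc, h2])
    (by
      rw [ha2, Real.exp_neg, one_div]
      exact inv_anti₀ (by norm_num) (by linarith [Real.add_one_le_exp ((m : ℝ) + 1)]))
    (fun p hp => by
      have h1 : G p = 0 := hlam p hp
      rw [hn, h1, norm_zero, mul_zero]
      positivity)
    z0 (by simp [LT.Ur])
  rw [hn, inv_mul_le_iff₀ hμ0, h5, add_zero] at key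
  have h6 := mul_pos hμ0 (Real.exp_pos (m * q z0))
  nlinarith

theorem top0 : Top0S := by
  intro d M A
  obtain ⟨q, c, -, hq, -, hper, -⟩ := LT.exists_quad A.toAbVar
  obtain ⟨R, hR⟩ := LT.exists_fund A.toAbVar
  have hR0 : 0 ≤ R := by
    obtain ⟨l, -, hl⟩ := hR 0
    exact (norm_nonneg _).trans hl
  obtain ⟨Q, hQ⟩ := (isCompact_closedBall (0 : E d) (2 * R)).exists_bound_of_continuousOn
    hq.continuousOn
  refine ⟨⌈4 * Q⌉₊, fun F m hd hF hF0 hO => ?_⟩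
  rcases m with _ | k
  · exact Nat.zero_le _
  obtain ⟨z₀, μ, hz₀, hpos, hev, hall⟩ := exists_max (m := 1) hq hper hR hd.continuous
    (fun l hl z => by rw [pow_one, hF l hl z]) hF0
  simp only [Nat.cast_one, one_mul] at hev hall
  have h2 := LT.EqsAux.schwarz (g := fun s : ℂ => F (0 + s • ((2 : ℂ) • z₀)))
    (hd.comp (by fun_prop)) (hO _ Submodule.mem_top)
    (K := μ * Real.exp Q) (fun s hs => by
      have h3 : ‖q (0 + s • ((2 : ℂ) • z₀))‖ ≤ Q := hQ _ (by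
        rw [mem_closedBall_zero_iff, zero_add, norm_smul, norm_smul, Complex.norm_ofNat]
        have := norm_nonneg z₀
        have := norm_nonneg s
        nlinarith)
      refine (hall _).trans (mul_le_mul_of_nonneg_left (Real.exp_le_exp.2 ?_) hpos.le)
      exact (le_abs_self _).trans h3)
    (s := 2⁻¹) (by norm_num)
  have e : (0 : E d) + (2⁻¹ : ℂ) • ((2 : ℂ) • z₀) = z₀ := by
    rw [zero_add, smul_smul, inv_mul_cancel₀ two_ne_zero, one_smul]
  have e2 : ‖(2⁻¹ : ℂ)‖ = Real.exp (-Real.log 2) := by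
    rw [Real.exp_neg, Real.exp_log two_pos, norm_inv, Complex.norm_ofNat]
  simp only [e] at h2
  rw [hev, e2, mul_assoc μ, ← Real.exp_nat_mul, ← Real.exp_add] at h2
  have h4 := Real.exp_le_exp.1 (le_of_mul_le_mul_left h2 hpos)
  have h5 : -Q ≤ q z₀ := (abs_le.1 (hQ z₀ (mem_closedBall_zero_iff.2 (by linarith)))).1
  have h7 : (1 : ℝ) / 2 ≤ Real.log 2 := by linarith [Real.log_two_gt_d9]
  have h8 := mul_le_mul_of_nonneg_left h7 (by positivity : (0 : ℝ) ≤ ((k + 1 : ℕ) : ℝ))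
  have h9 : ((k + 1 : ℕ) : ℝ) ≤ 4 * Q := by nlinarith
  exact_mod_cast h9.trans (Nat.le_ceil _)

end Pool.Agent.Lib.MP_caab05_ag.ZE
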