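import Mathlib
import Pool.Agent.Lib.MP_caab05_ag.ZE.Stmt

/-! The Landau levels are locally rational. -/

namespace Pool.Agent.Lib.MP_caab05_ag.ZE

open MvPolynomial Filter Topology Asymptotics Complex
open Pool.Agent.Lib.MP_caab05_ag.LT (E AbVar Pol)

namespace LanAux

variable {d M e : ℕ}

theorem dir_smul (σ : Fin e → E d) (τ : ℂ) (t : E e) : dir σ (τ • t) = τ • dir σ t := by
  simp only [dir, Finset.smul_sum, Pi.smul_apply, smul_eq_mul, mul_smul]

theorem psi_line (A : VX d M) (σ : Fin e → E d) (c : Fin (M + 1)) (z : Sp d e) (t : E e)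
    (τ : ℂ) :
    Psi A σ c z (τ • t) = A.θ (z.1 + τ • dir σ t) c * cexp (-(z.2 ⬝ᵥ t) * τ) := by
  rw [Psi, dir_smul, dotProduct_smul, smul_eq_mul]
  congr 2
  ring

theorem diff_two (A : VX d M) (σ : Fin e → E d) (c : Fin (M + 1)) (t : E e) :
    Differentiable ℂ fun p : Sp d e × ℂ => Psi A σ c p.1 (p.2 • t) := by
  simp only [psi_line]
  have h1 : Differentiable ℂ fun p : Sp d e × ℂ => A.θ (p.1.1 + p.2 • dir σ t) :=
    A.holo.comp (by fun_prop)
  have h2 : Differentiable ℂ fun p : Sp d e × ℂ => p.1.2 ⬝ᵥ t := by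
    simp only [dotProduct]
    fun_prop
  exact (differentiable_pi.1 h1 c).mul (h2.neg.mul differentiable_snd).cexp

theorem diff_line (A : VX d M) (σ : Fin e → E d) (c : Fin (M + 1)) (t : E e) (z : Sp d e) :
    Differentiable ℂ fun τ : ℂ => Psi A σ c z (τ • t) :=
  (diff_two A σ c t).comp (f := fun τ : ℂ => (z, τ)) (by fun_prop)

theorem hasDeriv_line (A : VX d M) (σ : Fin e → E d) (c : Fin (M + 1)) (t : E e) (z : Sp d e)
    (τ : ℂ) : HasDerivAt (fun τ : ℂ => Psi A σ c z (τ • t))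
      ((fderiv ℂ A.θ (z.1 + τ • dir σ t) (dir σ t) c - (z.2 ⬝ᵥ t) * A.θ (z.1 + τ • dir σ t) c) *
        cexp (-(z.2 ⬝ᵥ t) * τ)) τ := by
  simp only [psi_line]
  have h0 : HasDerivAt (fun τ : ℂ => z.1 + τ • dir σ t) (dir σ t) τ := by
    simpa using ((hasDerivAt_id τ).smul_const (dir σ t)).const_add z.1
  have h1 : HasDerivAt (fun τ : ℂ => A.θ (z.1 + τ • dir σ t))
      (fderiv ℂ A.θ (z.1 + τ • dir σ t) (dir σ t)) τ :=
    (A.holo _).hasFDerivAt.comp_hasDerivAt τ h0
  have h2 := hasDerivAt_pi.1 h1 c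
  have h3 : HasDerivAt (fun τ : ℂ => cexp (-(z.2 ⬝ᵥ t) * τ))
      (cexp (-(z.2 ⬝ᵥ t) * τ) * (-(z.2 ⬝ᵥ t))) τ := by
    simpa using ((hasDerivAt_id τ).const_mul (-(z.2 ⬝ᵥ t))).cexp
  refine (h2.fun_mul h3).congr_deriv ?_
  ring

theorem inQ (h : LocS) (hb : BasS) (A : VX d M) (σ : Fin e → E d) (c : Fin (M + 1)) (j : ℕ)
    (t : E e) : InQ A σ 1 j (lan A σ c j t) := by
  refine ⟨h.dif _ _ (diff_two A σ c t) j, fun l hl z => ?_, fun z u => ?_⟩
  · simp only [lan, (hb d M e A σ).psi_aut l hl, pow_one]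
    exact iteratedDeriv_const_mul_field _ _
  · refine ⟨∑ i ∈ Finset.range (j + 1), Polynomial.C ((j.choose i : ℂ) * lan A σ c i t z *
      (-(u ⬝ᵥ t)) ^ (j - i)) * Polynomial.X ^ (j - i), ?_, fun ρ => ?_⟩
    · refine Polynomial.natDegree_sum_le_of_forall_le _ _ fun i _ => ?_
      exact (Polynomial.natDegree_C_mul_X_pow_le _ _).trans (Nat.sub_le _ _)
    · have e1 : (fun τ : ℂ => Psi A σ c (z + ρ • ((0, u) : Sp d e)) (τ • t)) =
          fun τ : ℂ => Psi A σ c z (τ • t) * cexp (-(u ⬝ᵥ t) * ρ * τ) := by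
        funext τ
        rw [psi_line, psi_line, mul_assoc, ← Complex.exp_add]
        simp only [Prod.fst_add, Prod.snd_add, Prod.smul_mk, smul_zero, add_zero,
          add_dotProduct, smul_dotProduct, smul_eq_mul]
        congr 2
        ring
      have h2 : Differentiable ℂ fun τ : ℂ => cexp (-(u ⬝ᵥ t) * ρ * τ) := by fun_prop
      rw [lan, e1, iteratedDeriv_fun_mul (diff_line A σ c t z).contDiff.contDiffAt
        h2.contDiff.contDiffAt, Polynomial.eval_finsetSum]
      refine Finset.sum_congr rfl fun i _ => ?_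
      rw [iteratedDeriv_cexp_const_mul]
      simp only [lan, mul_zero, Complex.exp_zero, mul_one, Polynomial.eval_mul,
        Polynomial.eval_C, Polynomial.eval_pow, Polynomial.eval_X, mul_pow]
      ring

theorem loc (h : LocS) (hb : BasS) (ha : AddS) (A : VX d M) (σ : Fin e → E d) (t : E e)
    (z₀ : Sp d e) (j : ℕ) : ∀ c, Loc (Th A σ) 1 (lan A σ c j t) z₀ := by
  have hL := h.loc _ _ (Th A σ) z₀
  have hB := hb d M e A σ
  obtain ⟨B, hB1, hB2⟩ := (ha d M e A σ).add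
  obtain ⟨b, hb0⟩ : ∃ b, A.θ z₀.1 b ≠ 0 := Function.ne_iff.1 (A.ne_zero z₀.1)
  induction j using Nat.strong_induction_on with
  | _ j ih =>
  intro c
  rcases j with _ | j
  · have e1 : lan A σ c 0 t = fun z => A.θ z.1 c := by
      funext z
      rw [lan, iteratedDeriv_zero, psi_line]
      simp
    rw [e1]
    exact (hB.theta c).2 z₀
  have e1 : lan A σ c (j + 1) t = fun z =>
      iteratedDeriv j (fun τ => deriv (fun τ : ℂ => Psi A σ c z (τ • t)) τ) 0 := by
    funext z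
    rw [lan, iteratedDeriv_succ']
  rw [e1]
  refine hL.quo 1 1 j (fun τ z => Psi A σ b z ((-τ) • t))
    (fun τ z => deriv (fun τ : ℂ => Psi A σ c z (τ • t)) τ) (fun z => ?_) (fun z => ?_) ?_
    (fun i hi => ?_) (fun i _ => ?_)
  · exact (diff_line A σ b t z).comp differentiable_neg
  · exact (diff_line A σ c t z).contDiff.differentiable_deriv_two
  · rw [psi_line]
    simpa using hb0
  · have e2 : (fun z => iteratedDeriv i (fun τ : ℂ => Psi A σ b z ((-τ) • t)) 0) =
        fun z => (-1) ^ i * lan A σ b i t z := by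
      funext z
      rw [iteratedDeriv_comp_neg i (fun τ : ℂ => Psi A σ b z (τ • t)) 0, neg_zero, smul_eq_mul,
        lan]
    rw [e2]
    exact hL.smul _ _ _ (ih i (by omega) b)
  · have hγ : Differentiable ℂ fun τ : ℂ => Th A σ ((τ • dir σ t, 0) : Sp d e) :=
      hB.diff.comp (by fun_prop)
    obtain ⟨G, hG1, hG2⟩ := (h.fam _ _ (∑ k, C (t k) * B (some k, c) b) 2 (by
      intro r x y
      simp only [map_sum, map_mul, eval_C, hB1, Finset.mul_sum]
      exact Finset.sum_congr rfl fun k _ => by ring) _ hγ).2 i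
    have e2 : (fun z => iteratedDeriv i (fun τ : ℂ => Psi A σ b z ((-τ) • t) *
        deriv (fun τ : ℂ => Psi A σ c z (τ • t)) τ) 0) = ev (Th A σ) G := by
      funext z
      rw [ev, hG2]
      congr 1
      funext τ
      rw [(hasDeriv_line A σ c t z τ).deriv, psi_line]
      simp only [map_sum, map_mul, eval_C, ← hB2, hB.th_some, Prod.fst_add, Prod.snd_add,
        add_zero]
      have e3 : cexp (-(z.2 ⬝ᵥ t) * -τ) * cexp (-(z.2 ⬝ᵥ t) * τ) = 1 := by
        rw [← Complex.exp_add, ← mul_add, neg_add_cancel, mul_zero, Complex.exp_zero]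
      have e4 : fderiv ℂ A.θ (z.1 + τ • dir σ t) (dir σ t) c =
          ∑ k, t k * fderiv ℂ A.θ (z.1 + τ • dir σ t) (σ k) c := by
        conv_lhs => rw [show ∀ x, fderiv ℂ A.θ x (dir σ t) = ∑ k, t k • fderiv ℂ A.θ x (σ k) from
          fun x => by simp only [dir, map_sum, map_smul]]
        simp only [Finset.sum_apply, Pi.smul_apply, smul_eq_mul]
      have e5 : z.1 + (-τ) • dir σ t = z.1 - τ • dir σ t := by
        rw [neg_smul, sub_eq_add_neg]
      rw [e5]
      calc A.θ (z.1 - τ • dir σ t) b * cexp (-(z.2 ⬝ᵥ t) * -τ) *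
            ((fderiv ℂ A.θ (z.1 + τ • dir σ t) (dir σ t) c -
              (z.2 ⬝ᵥ t) * A.θ (z.1 + τ • dir σ t) c) * cexp (-(z.2 ⬝ᵥ t) * τ))
          = (cexp (-(z.2 ⬝ᵥ t) * -τ) * cexp (-(z.2 ⬝ᵥ t) * τ)) *
            ((fderiv ℂ A.θ (z.1 + τ • dir σ t) (dir σ t) c -
              (z.2 ⬝ᵥ t) * A.θ (z.1 + τ • dir σ t) c) * A.θ (z.1 - τ • dir σ t) b) := by ring
        _ = _ := by
          rw [e3, one_mul, e4, dotProduct, Finset.sum_mul, ← Finset.sum_sub_distrib,
            Finset.sum_mul]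
          exact Finset.sum_congr rfl fun k _ => by ring
    rw [e2]
    exact hL.form G 2 hG1

end LanAux

theorem lanS (h : LocS) (hb : BasS) (ha : AddS) : LanS :=
  fun _ _ _ A σ c j t =>
    ⟨LanAux.inQ h hb A σ c j t, fun z₀ => LanAux.loc h hb ha A σ t z₀ j c⟩

end Pool.Agent.Lib.MP_caab05_ag.ZE
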