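import Mathlib
import Pool.Agent.Lib.MP_caab05_ag.ZE.Stmt

/-! The leading coefficient along a line is a finite difference. -/

namespace Pool.Agent.Lib.MP_caab05_ag.ZE

open MvPolynomial Filter Topology Asymptotics Complex
open Pool.Agent.Lib.MP_caab05_ag.LT (E AbVar Pol)

namespace LeadAux

theorem coeff_taylor_top (p : Polynomial ℂ) (j : ℕ) (hp : p.natDegree ≤ j) (r : ℂ) :
    (Polynomial.taylor r p).coeff j = p.coeff j := by
  rcases hp.eq_or_lt with h | h
  · rw [← h, Polynomial.coeff_taylor_natDegree]; rfl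
  · rw [Polynomial.coeff_eq_zero_of_natDegree_lt h,
      Polynomial.coeff_eq_zero_of_natDegree_lt (by rwa [Polynomial.natDegree_taylor])]

theorem fin_diff (p : Polynomial ℂ) (j : ℕ) (hp : p.natDegree ≤ j) (h : ℂ) :
    h ^ j * p.coeff j = ∑ i ∈ Finset.range (j + 1),
      (∏ k ∈ (Finset.range (j + 1)).erase i, ((i : ℂ) - (k : ℂ)))⁻¹ * p.eval ((i : ℂ) * h) := by
  have hq : (p.comp (Polynomial.C h * Polynomial.X)).natDegree ≤ j := by
    refine Polynomial.natDegree_le_iff_coeff_eq_zero.2 fun m hm => ?_
    rw [Polynomial.comp_C_mul_X_coeff, Polynomial.coeff_eq_zero_of_natDegree_lt (hp.trans_lt hm),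
      zero_mul]
  have hd : (p.comp (Polynomial.C h * Polynomial.X)).degree < (Finset.range (j + 1)).card := by
    rw [Finset.card_range]
    refine (Polynomial.degree_le_of_natDegree_le hq).trans_lt ?_
    exact_mod_cast Nat.lt_succ_self j
  have key := Lagrange.coeff_eq_sum (s := Finset.range (j + 1)) (v := fun i : ℕ => (i : ℂ))
    (fun a _ b _ hab => Nat.cast_injective (R := ℂ) hab) hd
  rw [Finset.card_range, Nat.add_sub_cancel, Polynomial.comp_C_mul_X_coeff] at key
  rw [mul_comm, key]
  refine Finset.sum_congr rfl fun i _ => ?_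
  rw [Polynomial.eval_comp, div_eq_inv_mul, Polynomial.eval_mul, Polynomial.eval_C,
    Polynomial.eval_X, mul_comm h]

end LeadAux

open LeadAux in
theorem lead : LeadS := by
  intro Y _ _ F n D hF hp
  classical
  choose p hpD hpF using hp
  have hex : ∃ j, ∀ z, (p z).natDegree ≤ j := ⟨D, hpD⟩
  have hj : ∀ z, (p z).natDegree ≤ Nat.find hex := Nat.find_spec hex
  refine ⟨Nat.find hex, Nat.find_min' hex hpD,
    fun i => (∏ k ∈ (Finset.range (Nat.find hex + 1)).erase i, ((i : ℂ) - (k : ℂ)))⁻¹,
    fun z => (p z).coeff (Nat.find hex), ?_, ?_, ?_⟩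
  · intro h0
    have hc : ∀ z, (p z).coeff (Nat.find hex) = 0 := fun z => congrFun h0 z
    rcases Nat.eq_zero_or_pos (Nat.find hex) with hz | hz
    · apply hF
      funext z
      have h1 : p z = 0 := by
        have h3 : (p z).natDegree ≤ 0 := by rw [← hz]; exact hj z
        have h4 : (p z).coeff 0 = 0 := by rw [← hz]; exact hc z
        rw [Polynomial.eq_C_of_natDegree_le_zero h3, h4, Polynomial.C_0]
      have h2 := hpF z 0
      rw [h1] at h2
      simpa using h2
    · refine Nat.find_min hex (m := Nat.find hex - 1) (by omega) fun z => ?_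
      refine Polynomial.natDegree_le_iff_coeff_eq_zero.2 fun m hm => ?_
      rcases (show m = Nat.find hex ∨ Nat.find hex < m by omega) with h | h
      · rw [h, hc z]
      · exact Polynomial.coeff_eq_zero_of_natDegree_lt ((hj z).trans_lt h)
  · intro z τ
    have h1 : p (z + τ • n) = Polynomial.taylor τ (p z) := by
      refine Polynomial.funext fun s => ?_
      rw [Polynomial.taylor_eval, ← hpF, ← hpF, add_smul, add_assoc, add_comm (τ • n)]
    simp only [h1]
    exact coeff_taylor_top _ _ (hj z) τ
  · intro z h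
    rw [fin_diff _ _ (hj z) h]
    simp only [hpF]

end Pool.Agent.Lib.MP_caab05_ag.ZE
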