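import Mathlib
import Pool.Agent.Lib.MP_caab05_ag.ZE.Stmt

/-! The fibre component of an element of the stabiliser generates a line of the stabiliser. -/

namespace Pool.Agent.Lib.MP_caab05_ag.ZE

open MvPolynomial Filter Topology Asymptotics Complex
open Pool.Agent.Lib.MP_caab05_ag.LT (E AbVar Pol)

namespace LineAux

/-- multiples of a point return to a cocompact lattice -/
theorem recur {X : Type} [NormedAddCommGroup X] [ProperSpace X] (L : Submodule ℤ X) {R : ℝ}
    (hR : ∀ z : X, ∃ l ∈ L, ‖z - l‖ ≤ R) (g : X) : ∃ (m : ℕ → ℕ) (l : ℕ → X),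
      Tendsto m atTop atTop ∧ (∀ j, l j ∈ L) ∧ Tendsto (fun j => m j • g + l j) atTop (𝓝 0) := by
  choose l hl hlR using fun k : ℕ => hR (k • g)
  obtain ⟨x, -, φ, hφ, hx⟩ := (isCompact_closedBall (0 : X) R).tendsto_subseq
    (x := fun k : ℕ => k • g - l k) fun k => mem_closedBall_zero_iff.2 (hlR k)
  have h2 : Tendsto (fun j : ℕ => j + j) atTop atTop :=
    tendsto_atTop_mono (fun j => Nat.le_add_right j j) tendsto_id
  have h1 := (hx.comp h2).sub hx
  rw [sub_self] at h1
  refine ⟨fun j => φ (j + j) - φ j, fun j => l (φ j) - l (φ (j + j)),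
    tendsto_atTop_mono (fun j => Nat.le_sub_of_add_le (hφ.add_le_nat j j)) tendsto_id,
    fun j => L.sub_mem (hl _) (hl _), h1.congr fun j => ?_⟩
  obtain ⟨c, hc⟩ := Nat.exists_eq_add_of_le (hφ.monotone (Nat.le_add_right j j))
  simp only [Function.comp_apply]
  rw [show φ (j + j) • g = φ j • g + c • g by rw [hc, add_nsmul], hc, Nat.add_sub_cancel_left]
  abel

variable {Y : Type} [NormedAddCommGroup Y] [NormedSpace ℂ Y]

theorem cont_coeff {F : Y → ℂ} (hF : Continuous F) {N : Y} {k : ℕ} {p : Y → Polynomial ℂ}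
    (hd : ∀ z, (p z).natDegree ≤ k) (hp : ∀ z (τ : ℂ), F (z + τ • N) = (p z).eval τ) (r : ℕ) :
    Continuous fun z => (p z).coeff r := by
  have e : ∀ z, (p z).coeff r = ∑ i ∈ Finset.range (k + 1), F (z + (i : ℂ) • N) *
      (Lagrange.basis (Finset.range (k + 1)) (fun i : ℕ => (i : ℂ)) i).coeff r := by
    intro z
    have h := Lagrange.eq_interpolate_of_eval_eq (s := Finset.range (k + 1))
      (v := fun i : ℕ => (i : ℂ)) (f := p z) (fun i => F (z + (i : ℂ) • N))
      (Nat.cast_injective.injOn)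
      (Polynomial.degree_le_natDegree.trans_lt (by
        rw [Finset.card_range]
        exact_mod_cast Nat.lt_succ_of_le (hd z))) fun i _ => (hp z i).symm
    conv_lhs => rw [h, Lagrange.interpolate_apply, Polynomial.finsetSum_coeff]
    simp only [Polynomial.coeff_C_mul]
  simp only [e]
  fun_prop

theorem key {F : Y → ℂ} (hF : Continuous F) {N : Y} {k : ℕ}
    (hp : ∀ z, ∃ p : Polynomial ℂ, p.natDegree ≤ k ∧ ∀ τ : ℂ, F (z + τ • N) = p.eval τ)
    {K : Set Y} (h0 : ∀ z ∈ K, F z = 0) {m : ℕ → ℕ} (hm : Tendsto m atTop atTop) {b : ℕ → Y}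
    (hb : Tendsto b atTop (𝓝 0)) (hK : ∀ z ∈ K, ∀ j, z + b j + (m j : ℂ) • N ∈ K) :
    ∀ z ∈ K, ∀ τ : ℂ, F (z + τ • N) = 0 := by
  choose p hd hp using hp
  have step : ∀ i, (∀ z ∈ K, (p z).natDegree ≤ i) → ∀ z ∈ K, (p z).coeff i = 0 := by
    intro i hi z hz
    have h1 : Tendsto (fun j => ∑ r ∈ Finset.range (i + 1),
        (p (z + b j)).coeff r * ((m j : ℂ)⁻¹) ^ (i - r)) atTop
        (𝓝 (∑ r ∈ Finset.range (i + 1), (p z).coeff r * 0 ^ (i - r))) := by
      refine tendsto_finsetSum _ fun r _ => Tendsto.mul ?_ (Tendsto.pow ?_ _)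
      · exact ((cont_coeff hF hd hp r).tendsto z).comp (by simpa using hb.const_add z)
      · exact (tendsto_inv_atTop_nhds_zero_nat (𝕜 := ℂ)).comp hm
    have h2 : ∑ r ∈ Finset.range (i + 1), (p z).coeff r * 0 ^ (i - r) = (p z).coeff i := by
      rw [Finset.sum_range_succ, Finset.sum_eq_zero fun r hr => by
        rw [zero_pow (Nat.sub_ne_zero_of_lt (Finset.mem_range.1 hr)), mul_zero]]
      simp
    rw [h2] at h1
    refine tendsto_nhds_unique h1 (tendsto_const_nhds.congr' ?_)
    filter_upwards [hm.eventually_gt_atTop 0] with j hj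
    have hm0 : (m j : ℂ) ≠ 0 := Nat.cast_ne_zero.2 hj.ne'
    have e : p (z + b j) = Polynomial.taylor (-(m j : ℂ)) (p (z + b j + (m j : ℂ) • N)) := by
      refine Polynomial.funext fun τ => ?_
      rw [Polynomial.taylor_eval, ← hp, ← hp, add_assoc (z + b j), ← add_smul]
      congr 3
      ring
    have h3 : (p (z + b j)).natDegree < i + 1 := by
      rw [e, Polynomial.natDegree_taylor]
      exact Nat.lt_succ_of_le (hi _ (hK z hz j))
    have h4 := h0 _ (hK z hz j)
    rw [hp, Polynomial.eval_eq_sum_range' h3] at h4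
    rw [← zero_mul (((m j : ℂ)⁻¹) ^ i), ← h4, Finset.sum_mul]
    refine Finset.sum_congr rfl fun r hr => ?_
    obtain ⟨c, rfl⟩ := Nat.exists_eq_add_of_le (Nat.le_of_lt_succ (Finset.mem_range.1 hr))
    rw [Nat.add_sub_cancel_left, pow_add, mul_assoc, ← mul_assoc (_ ^ r), ← mul_pow,
      mul_inv_cancel₀ hm0, one_pow, one_mul]
  have main : ∀ i, (∀ z ∈ K, (p z).natDegree ≤ i) → ∀ z ∈ K, p z = 0 := by
    intro i
    induction i with
    | zero =>
      intro hi z hz
      rw [Polynomial.eq_C_of_natDegree_le_zero (hi z hz), step 0 hi z hz, map_zero]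
    | succ i ih =>
      refine fun hi => ih fun z hz => Polynomial.natDegree_le_iff_coeff_eq_zero.2 fun r hr => ?_
      rcases (Nat.succ_le_of_lt hr).eq_or_lt with rfl | h
      · exact step _ hi z hz
      · exact Polynomial.coeff_eq_zero_of_natDegree_lt ((hi z hz).trans_lt h)
  intro z hz τ
  rw [hp, main k (fun z _ => hd z) z hz, Polynomial.eval_zero]

end LineAux

theorem line (hb : BasS) : LineS := by
  intro d M e A σ V x n hg z hz τ P k hP hV
  have B := hb d M e A σ
  obtain ⟨R, hR⟩ := LT.exists_fund A.toAbVar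
  obtain ⟨m, l, hm, hl, h0⟩ := LineAux.recur A.Λ hR x
  let L : E d →+ Sp d e := AddMonoidHom.mk' (lift A σ) B.lift_add
  have h1 : ∀ (j : ℕ), ∀ z ∈ cl (Th A σ) V, z + j • (lift A σ x + (0, n)) ∈ cl (Th A σ) V := by
    intro j
    induction j with
    | zero => simp
    | succ j ih =>
      intro z hz
      rw [succ_nsmul, ← add_assoc]
      exact hg _ (ih z hz)
  have h2 : ∀ l ∈ A.Λ, ∀ z ∈ cl (Th A σ) V, z + lift A σ l ∈ cl (Th A σ) V :=
    fun l hl z hz Q q hQ hQV => by rw [(B.form Q q hQ).1.aut l hl, hz Q q hQ hQV, mul_zero]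
  have hF := (B.form P k hP).1
  refine LineAux.key hF.diff.continuous (fun z => hF.poly z n) (K := cl (Th A σ) V)
    (fun z hz => hz P k hP hV) hm (b := fun j => L (m j • x + l j)) ?_ (fun z hz j => ?_) z hz τ
  · have := (B.lift_cont.tendsto 0).comp h0
    rwa [show lift A σ 0 = 0 from map_zero L] at this
  · have := h2 _ (hl j) _ (h1 (m j) z hz)
    rw [map_add, map_nsmul, Nat.cast_smul_eq_nsmul]
    convert this using 1
    rw [nsmul_add]
    change z + (m j • lift A σ x + lift A σ (l j)) + _ = _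
    abel

end Pool.Agent.Lib.MP_caab05_ag.ZE
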