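import Mathlib
import Pool.Agent.Lib.MP_caab05_ag.ZE.Stmt
import Pool.Agent.Lib.MP_caab05_ag.LT.Eqs
import Pool.Agent.Lib.MP_caab05_ag.GB.Osg

/-! The algebra of locally rational functions and holomorphic families. -/

namespace Pool.Agent.Lib.MP_caab05_ag.ZE

open MvPolynomial Filter Topology Asymptotics Complex
open Pool.Agent.Lib.MP_caab05_ag.LT (E AbVar Pol)

namespace LocAux

section Alg

variable {Y ι : Type} {Θ : Y → ι → ℂ} {z₀ : Y}

lemma ev_mul (P Q : MvPolynomial ι ℂ) (z : Y) : ev Θ (P * Q) z = ev Θ P z * ev Θ Q z := by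
  simp [ev]

lemma ev_add (P Q : MvPolynomial ι ℂ) (z : Y) : ev Θ (P + Q) z = ev Θ P z + ev Θ Q z := by
  simp [ev]

lemma form (P : MvPolynomial ι ℂ) (n : ℕ) (hP : P.IsHomogeneous n) : Loc Θ n (ev Θ P) z₀ :=
  ⟨0, 1, P, isHomogeneous_one _ _, hP, by simp [ev], fun z => by simp [ev]⟩

lemma zero (n : ℕ) : Loc Θ n (fun _ => 0) z₀ :=
  ⟨0, 1, 0, isHomogeneous_one _ _, isHomogeneous_zero _ _ _, by simp [ev], fun z => by simp [ev]⟩

lemma add {n : ℕ} {F G : Y → ℂ} (hF : Loc Θ n F z₀) (hG : Loc Θ n G z₀) :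
    Loc Θ n (fun z => F z + G z) z₀ := by
  obtain ⟨m, Q, P, hQ, hP, h0, h⟩ := hF
  obtain ⟨m', Q', P', hQ', hP', h0', h'⟩ := hG
  refine ⟨m + m', Q * Q', P * Q' + P' * Q, hQ.mul hQ', IsHomogeneous.add ?_ ?_, ?_, fun z => ?_⟩
  · rw [← add_assoc]
    exact hP.mul hQ'
  · rw [add_comm m, ← add_assoc]
    exact hP'.mul hQ
  · rw [ev_mul]
    exact mul_ne_zero h0 h0'
  · rw [ev_add, ev_mul, ev_mul, ev_mul, ← h z, ← h' z]
    ring

lemma smul {n : ℕ} (a : ℂ) {F : Y → ℂ} (hF : Loc Θ n F z₀) : Loc Θ n (fun z => a * F z) z₀ := by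
  obtain ⟨m, Q, P, hQ, hP, h0, h⟩ := hF
  refine ⟨m, Q, C a * P, hQ, hP.C_mul a, h0, fun z => ?_⟩
  rw [ev_mul, ← h z]
  simp only [ev, eval_C]
  ring

lemma sum {n : ℕ} {κ : Type} (s : Finset κ) {F : κ → Y → ℂ} (hF : ∀ i ∈ s, Loc Θ n (F i) z₀) :
    Loc Θ n (fun z => ∑ i ∈ s, F i z) z₀ := by
  classical
  induction s using Finset.induction_on with
  | empty => simpa using zero n
  | insert a s ha ih =>
    simp only [Finset.sum_insert ha]
    exact add (hF a (by simp)) (ih fun i hi => hF i (by simp [hi]))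

lemma mul {n m : ℕ} {F G : Y → ℂ} (hF : Loc Θ n F z₀) (hG : Loc Θ m G z₀) :
    Loc Θ (n + m) (fun z => F z * G z) z₀ := by
  obtain ⟨k, Q, P, hQ, hP, h0, h⟩ := hF
  obtain ⟨k', Q', P', hQ', hP', h0', h'⟩ := hG
  refine ⟨k + k', Q * Q', P * P', hQ.mul hQ', ?_, ?_, fun z => ?_⟩
  · rw [add_add_add_comm]
    exact hP.mul hP'
  · rw [ev_mul]
    exact mul_ne_zero h0 h0'
  · rw [ev_mul, ev_mul, ← h z, ← h' z]
    ring

lemma div {n m : ℕ} {F Q : Y → ℂ} (hQ : Loc Θ m Q z₀) (hQ0 : Q z₀ ≠ 0)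
    (hF : Loc Θ (n + m) (fun z => Q z * F z) z₀) : Loc Θ n F z₀ := by
  obtain ⟨k, Q₁, P₁, hQ₁, hP₁, h0, h⟩ := hQ
  obtain ⟨k', Q₂, P₂, hQ₂, hP₂, h0', h'⟩ := hF
  refine ⟨k' + (m + k), Q₂ * P₁, Q₁ * P₂, hQ₂.mul hP₁, ?_, ?_, fun z => ?_⟩
  · have e : n + (k' + (m + k)) = k + (n + m + k') := by ring
    rw [e]
    exact hQ₁.mul hP₂
  · rw [ev_mul, ← h z₀]
    exact mul_ne_zero h0' (mul_ne_zero h0 hQ0)
  · rw [ev_mul, ev_mul, ← h z, ← h' z]
    ring

lemma quo {n m : ℕ} (j : ℕ) {Q G : ℂ → Y → ℂ} (hQ : ∀ z, Differentiable ℂ fun τ => Q τ z)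
    (hG : ∀ z, Differentiable ℂ fun τ => G τ z) (h0 : Q 0 z₀ ≠ 0)
    (h1 : ∀ i ≤ j, Loc Θ m (fun z => iteratedDeriv i (fun τ => Q τ z) 0) z₀)
    (h2 : ∀ i ≤ j, Loc Θ (n + m) (fun z => iteratedDeriv i (fun τ => Q τ z * G τ z) 0) z₀) :
    Loc Θ n (fun z => iteratedDeriv j (fun τ => G τ z) 0) z₀ := by
  induction j using Nat.strong_induction_on with
  | _ j ih =>
  have hq : Loc Θ m (fun z => Q 0 z) z₀ := by simpa using h1 0 (Nat.zero_le _)
  refine div hq h0 ?_
  have h3 : Loc Θ (n + m) (fun z => ∑ i ∈ Finset.range j, (-(j.choose (i + 1) : ℂ)) *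
      (iteratedDeriv (j - (i + 1)) (fun τ => G τ z) 0 *
        iteratedDeriv (i + 1) (fun τ => Q τ z) 0)) z₀ := by
    refine sum _ fun i hi => smul _ ?_
    have hi' := Finset.mem_range.1 hi
    exact mul (ih _ (by omega) (fun r hr => h1 r (by omega)) fun r hr => h2 r (by omega))
      (h1 _ (by omega))
  have h4 := add (h2 j le_rfl) h3
  have e : (fun z => Q 0 z * iteratedDeriv j (fun τ => G τ z) 0) = fun z =>
      iteratedDeriv j (fun τ => Q τ z * G τ z) 0 + ∑ i ∈ Finset.range j,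
        (-(j.choose (i + 1) : ℂ)) * (iteratedDeriv (j - (i + 1)) (fun τ => G τ z) 0 *
          iteratedDeriv (i + 1) (fun τ => Q τ z) 0) := by
    funext z
    have h5 := iteratedDeriv_mul (n := j) (x := (0 : ℂ)) (hQ z).contDiff.contDiffAt
      (hG z).contDiff.contDiffAt
    have h6 : iteratedDeriv j (fun τ => Q τ z * G τ z) 0 = _ := h5
    rw [h6, Finset.sum_range_succ', add_right_comm, ← Finset.sum_add_distrib,
      Finset.sum_eq_zero fun i _ => by ring]
    simp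
  rw [e]
  exact h4

lemma zero_cl {n : ℕ} {F : Y → ℂ} {V : Set Y} (hF : Loc Θ n F z₀) (h : ∀ v ∈ V, F v = 0)
    (hz : z₀ ∈ cl Θ V) : F z₀ = 0 := by
  obtain ⟨m, Q, P, -, hP, h0, h1⟩ := hF
  have h2 := hz P _ hP fun v hv => by rw [← h1 v, h v hv, mul_zero]
  rw [← h1 z₀] at h2
  exact (mul_eq_zero.1 h2).resolve_left h0

end Alg

lemma differentiable_curve {ι κ : Type} [Fintype ι] [Fintype κ] (Q : MvPolynomial (ι ⊕ κ) ℂ)
    {γ : ℂ → κ → ℂ} (hγ : Differentiable ℂ γ) (x : ι → ℂ) :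
    Differentiable ℂ fun τ => eval (Sum.elim x (γ τ)) Q := by
  refine (LT.differentiable_eval Q).comp (f := fun τ => Sum.elim x (γ τ)) ?_
  refine differentiable_pi.2 fun s => ?_
  cases s with
  | inl s => exact differentiable_const _
  | inr s => exact differentiable_pi.1 hγ s

lemma exists_deriv_poly {ι κ : Type} [Fintype ι] [Fintype κ] (Q : MvPolynomial (ι ⊕ κ) ℂ)
    {γ : ℂ → κ → ℂ} (hγ : Differentiable ℂ γ) (j : ℕ) : ∃ G : MvPolynomial ι ℂ,
      ∀ x, eval x G = iteratedDeriv j (fun τ => eval (Sum.elim x (γ τ)) Q) 0 := by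
  classical
  induction Q using MvPolynomial.induction_on' with
  | monomial m a =>
    refine ⟨C (a * iteratedDeriv j (fun τ => ∏ s, γ τ s ^ m (Sum.inr s)) 0) *
      ∏ s, X s ^ m (Sum.inl s), fun x => ?_⟩
    have : (fun τ => eval (Sum.elim x (γ τ)) (monomial m a)) =
        fun τ => (a * ∏ s, x s ^ m (Sum.inl s)) * ∏ s, γ τ s ^ m (Sum.inr s) := by
      funext τ
      rw [eval_monomial, Finsupp.prod_fintype _ _ (fun _ => pow_zero _), Fintype.prod_sum_type]
      simp [mul_assoc]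
    rw [this, iteratedDeriv_const_mul_field]
    simp only [map_mul, eval_C, map_prod, map_pow, eval_X]
    ring
  | add p q hp hq =>
    obtain ⟨G, hG⟩ := hp
    obtain ⟨H, hH⟩ := hq
    refine ⟨G + H, fun x => ?_⟩
    rw [map_add, hG, hH, ← iteratedDeriv_add
      ((differentiable_curve p hγ x).contDiff.contDiffAt)
      ((differentiable_curve q hγ x).contDiff.contDiffAt)]
    congr 1
    funext τ
    simp

lemma dif {Y : Type} [NormedAddCommGroup Y] [NormedSpace ℂ Y] [FiniteDimensional ℂ Y] (j : ℕ) :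
    ∀ G : Y × ℂ → ℂ, Differentiable ℂ G →
      Differentiable ℂ fun z => iteratedDeriv j (fun τ => G (z, τ)) 0 := by
  induction j with
  | zero =>
    intro G hG
    simp only [iteratedDeriv_zero]
    exact hG.comp (differentiable_id.prodMk (differentiable_const _))
  | succ j ih =>
    intro G hG
    have h1 : AnalyticOnNhd ℂ G Set.univ :=
      GB.osg _ _ G Set.univ isOpen_univ hG.differentiableOn
    have h2 : Differentiable ℂ (fderiv ℂ G) := fun p =>
      (h1.fderiv p (Set.mem_univ p)).differentiableAt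
    have h3 : Differentiable ℂ fun p => fderiv ℂ G p ((0 : Y), (1 : ℂ)) :=
      h2.clm_apply (differentiable_const _)
    have h4 : ∀ z, deriv (fun τ => G (z, τ)) = fun τ => fderiv ℂ G (z, τ) ((0 : Y), (1 : ℂ)) := by
      intro z
      funext τ
      exact ((hG (z, τ)).hasFDerivAt.comp_hasDerivAt τ
        ((hasDerivAt_const τ z).prodMk (hasDerivAt_id τ))).deriv
    simp only [iteratedDeriv_succ', h4]
    exact ih _ h3

lemma pol (G : ℂ → ℂ → ℂ) (k j : ℕ) (hG : ∀ ρ, Differentiable ℂ fun τ => G τ ρ)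
    (h : ∀ τ, ∃ p : Polynomial ℂ, p.natDegree ≤ k ∧ ∀ ρ, G τ ρ = p.eval ρ) :
    ∃ p : Polynomial ℂ, p.natDegree ≤ k ∧
      ∀ ρ, iteratedDeriv j (fun τ => G τ ρ) 0 = p.eval ρ := by
  classical
  have hv : Set.InjOn (fun i : ℕ => (i : ℂ)) (Finset.range (k + 1)) :=
    Nat.cast_injective.injOn
  have h1 : ∀ τ ρ, G τ ρ = ∑ i ∈ Finset.range (k + 1), G τ i *
      (Lagrange.basis (Finset.range (k + 1)) (fun i : ℕ => (i : ℂ)) i).eval ρ := by
    intro τ ρ
    obtain ⟨p, hp, hp'⟩ := h τ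
    have h2 := Lagrange.eq_interpolate (f := p) hv (by
      rw [Finset.card_range]
      exact Polynomial.degree_le_natDegree.trans_lt (by exact_mod_cast Nat.lt_succ_of_le hp))
    simp only [hp']
    conv_lhs => rw [h2]
    simp [Lagrange.interpolate_apply, Polynomial.eval_finsetSum]
  refine ⟨Lagrange.interpolate (Finset.range (k + 1)) (fun i : ℕ => (i : ℂ))
    fun i => iteratedDeriv j (fun τ => G τ i) 0, ?_, fun ρ => ?_⟩
  · have h2 := Lagrange.degree_interpolate_le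
      (fun i : ℕ => iteratedDeriv j (fun τ => G τ i) 0) hv
    rw [Finset.card_range, Nat.add_sub_cancel] at h2
    exact Polynomial.natDegree_le_iff_degree_le.2 h2
  · have h2 : (fun τ => G τ ρ) = fun τ => ∑ i ∈ Finset.range (k + 1), G τ i *
        (Lagrange.basis (Finset.range (k + 1)) (fun i : ℕ => (i : ℂ)) i).eval ρ :=
      funext fun τ => h1 τ ρ
    rw [h2, iteratedDeriv_fun_sum fun (i : ℕ) _ => ((hG (i : ℂ)).mul_const _).contDiff.contDiffAt]
    simp only [iteratedDeriv_mul_const_field, Lagrange.interpolate_apply,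
      Polynomial.eval_finsetSum, Polynomial.eval_mul, Polynomial.eval_C]

end LocAux

theorem locS : LocS where
  loc := fun _ _ _ _ =>
    { form := LocAux.form
      zero := LocAux.zero
      add := fun _ _ _ => LocAux.add
      smul := fun _ a _ => LocAux.smul a
      sum := fun _ _ s _ => LocAux.sum s
      mul := fun _ _ _ _ => LocAux.mul
      div := fun _ _ _ _ => LocAux.div
      quo := fun _ _ j _ _ => LocAux.quo j
      zero_cl := fun _ _ _ => LocAux.zero_cl }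
  fam := fun ι κ _ _ B k hB γ hγ => by
    refine ⟨LocAux.differentiable_curve B hγ, fun j => ?_⟩
    obtain ⟨G, hG⟩ := LocAux.exists_deriv_poly B hγ j
    refine ⟨G, LT.isHomogeneous_of_scaling fun c x _ => ?_, hG⟩
    change eval (c • x) G = c ^ k * eval x G
    rw [hG, hG, ← iteratedDeriv_const_mul_field]
    simp only [hB]
  dif := fun _ _ _ _ G hG j => LocAux.dif j G hG
  pol := LocAux.pol

end Pool.Agent.Lib.MP_caab05_ag.ZE
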