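import Mathlib
import Pool.Agent.Lib.MP_caab05_ag.ZE.Stmt
import Pool.Agent.Lib.MP_caab05_ag.LT.Eqs

/-! The multiplicity estimate on vector extensions, from the steps. -/

namespace Pool.Agent.Lib.MP_caab05_ag.ZE

open MvPolynomial Filter Topology Asymptotics Complex
open Pool.Agent.Lib.MP_caab05_ag.LT (E AbVar Pol)
open scoped Pointwise

namespace MainAux

section Gen

variable {Y : Type} [NormedAddCommGroup Y] [NormedSpace ℂ Y]

lemma ord_mono {W : Submodule ℂ Y} {F : Y → ℂ} {z : Y} {k l : ℕ} (h : Ord W F z l) (hk : k ≤ l) :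
    Ord W F z k := fun u hu => (h u hu).trans (LT.IsoAux.pow_isBigO hk)

lemma ord_zero {W : Submodule ℂ Y} {F : Y → ℂ} {z : Y} {k : ℕ} (h : Ord W F z (k + 1)) :
    F z = 0 := by
  simpa using (h 0 W.zero_mem).eq_zero_imp.self_of_nhds

/-- vanishing along `W` at all points of a complement `U` gives vanishing along all lines -/
lemma ord_top {W U : Submodule ℂ Y} {F : Y → ℂ} (hF : Differentiable ℂ F) {k : ℕ}
    (hWU : W ⊔ U = ⊤) (hO : ∀ b ∈ U, Ord W F b (k + 1)) : Ord ⊤ F 0 (k + 1) := by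
  intro z _
  obtain ⟨w, hw, b, hb, rfl⟩ := Submodule.mem_sup.1 (hWU ▸ Submodule.mem_top : z ∈ W ⊔ U)
  have hH : Continuous fun p : ℂ × ℂ => F (p.1 • b + p.2 • w) :=
    hF.continuous.comp (by fun_prop)
  obtain ⟨K, hK⟩ := (isCompact_closedBall (0 : ℂ × ℂ) 1).exists_bound_of_continuousOn
    hH.continuousOn
  refine IsBigO.of_bound K ?_
  filter_upwards [Metric.ball_mem_nhds (0 : ℂ) one_pos] with τ hτ
  rw [mem_ball_zero_iff] at hτ
  have h2 := LT.EqsAux.schwarz (g := fun s : ℂ => F (τ • b + s • w))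
    (hF.comp (by fun_prop)) (hO _ (U.smul_mem τ hb) w hw) (K := K)
    (fun s hs => hK (τ, s) (by
      rw [mem_closedBall_zero_iff, Prod.norm_def]
      exact max_le hτ.le hs)) hτ
  have e : (0 : Y) + τ • (w + b) = τ • b + τ • w := by
    rw [smul_add, zero_add, add_comm]
  rw [e, norm_pow]
  exact h2

end Gen

variable {d M e : ℕ} {A : VX d M} {σ : Fin e → E d} {W : Submodule ℂ (Sp d e)} {D : ℕ}
  {F : Sp d e → ℂ}

/-- the order condition is closed -/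
lemma ord_cl (hc : LocS) (he : EqsS) (hF : InP A σ 1 D F) {V : Set (Sp d e)} {N : ℕ}
    (h : ∀ v ∈ V, Ord W F v N) : ∀ z ∈ cl (Th A σ) V, Ord W F z N := by
  obtain ⟨𝒢, h1, h2, -⟩ := he d M e A σ D F hF W 0 N
  intro z hz
  have h3 := (h2 z).1 fun G hG => (hc.loc _ _ (Th A σ) z).zero_cl 2 G V ((h1 G hG).2 z)
    (fun v hv => (h2 v).2 (by rw [add_zero]; exact h v hv) G hG) hz
  rwa [add_zero] at h3

lemma subset_cl {Y ι : Type} (Θ : Y → ι → ℂ) (V : Set Y) : V ⊆ cl Θ V := fun z hz _ _ _ h => h z hz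

/-- the case of a line in the stabiliser -/
lemma line_case (hc : LocS) (hb : BasS) (hl : LeadS) (hd : DescS) {e : ℕ}
    {σ : Fin (e + 1) → E d} {W : Submodule ℂ (Sp d (e + 1))} {F : Sp d (e + 1) → ℂ}
    (hW : Adm A σ W) (hF : InP A σ 1 D F) (hF0 : F ≠ 0) {n : E (e + 1)} (hn : n ≠ 0) {N : ℕ}
    (hO : ∀ τ : ℂ, Ord W F (τ • ((0, n) : Sp d (e + 1))) N) :
    ∃ (σ' : Fin e → E d) (W' : Submodule ℂ (Sp d e)) (F' : Sp d e → ℂ),
      Adm A σ' W' ∧ InP A σ' 1 D F' ∧ F' ≠ 0 ∧ Ord W' F' 0 N := by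
  obtain ⟨j, -, a, G, hG0, hG1, hG2⟩ := hl _ F ((0, n) : Sp d (e + 1)) D hF0
    fun z => hF.1.poly z n
  have hG : G = fun z => ∑ i ∈ Finset.range (j + 1), a i * F (z + (0, (i : ℂ) • n)) := by
    funext z
    have := hG2 z 1
    simpa using this
  have hB := hb d M (e + 1) A σ
  have hGP : InP A σ 1 D G := by
    rw [hG]
    refine ⟨hB.qsum _ _ _ _ _ fun i _ => hB.qsmul _ _ _ _ (hB.qvt _ _ _ _ hF.1), fun z₀ => ?_⟩
    have hL := hc.loc _ _ (Th A σ) z₀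
    exact hL.sum _ _ _ _ fun i _ => hL.smul _ _ _ ((hB.vt _ _ _ _ hF).2 z₀)
  obtain ⟨σ', π, h1, h2⟩ := hd d M e A σ n hn
  obtain ⟨F', h3, h4⟩ := h2 D G hGP hG1
  refine ⟨σ', W.map π, F', h1 W hW, h3, fun h => hG0 ?_, ?_⟩
  · funext z
    rw [h4, h]; rfl
  · rintro _ ⟨w, hw, rfl⟩
    have h5 : ∀ τ : ℂ, F' (0 + τ • π w) = ∑ i ∈ Finset.range (j + 1),
        a i * F ((i : ℂ) • ((0, n) : Sp d (e + 1)) + τ • w) := fun τ => by
      rw [zero_add, ← map_smul, ← h4, hG]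
      refine Finset.sum_congr rfl fun i _ => ?_
      rw [add_comm]
      simp
    simp only [h5]
    exact (IsBigO.sum (s := Finset.range (j + 1)) fun i _ =>
      (hO i w hw).const_mul_left (a i)).congr_left fun τ => by simp

lemma step (hz : ZarP (Th A σ)) (hc : LocS) (he : EqsS) (hs : StabS) (hF : InP A σ 1 D F)
    (hW : Adm A σ W) {T : ℕ}
    (h1 : ∀ n : E e, n ≠ 0 → ¬ ∀ τ : ℂ, Ord W F (τ • ((0, n) : Sp d e)) (T + 1))
    (h2 : ¬ Ord ⊤ F 0 (T + 1)) (h3 : ∀ 𝒢, ¬ Isol A σ W T D 𝒢)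
    {V : Set (Sp d e)} {N : ℕ} (hV : Irr (Th A σ) V) (h0 : (0 : Sp d e) ∈ V)
    (hO : ∀ v ∈ V, Ord W F v (N + 1 + T)) :
    ∃ V', Irr (Th A σ) V' ∧ V ⊆ V' ∧ ¬ V' ⊆ cl (Th A σ) V ∧ ∀ v ∈ V', Ord W F v (N + 1) := by
  have hO' := ord_cl hc he hF (N := T + 1) fun v hv => ord_mono (hO v hv) (by omega)
  have h0' := subset_cl (Th A σ) V h0
  rcases hs d M e A σ V with ⟨n, hn, h⟩ | ⟨U, hU, hU0, h⟩ | h
  · refine (h1 n hn fun τ => hO' _ ?_).elim
    simpa using h 0 h0' τ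
  · refine (h2 (ord_top hF.1.diff (hW.top U hU hU0) fun b hb => hO' _ ?_)).elim
    simpa using h b hb 0 h0'
  choose 𝒢 g1 g2 g3 using fun v => he d M e A σ D F hF W v (N + 1)
  have hS : (0 : Sp d e) ∈ {z | ∀ v ∈ V, Ord W F (z + v) (N + 1)} := fun v hv => by
    rw [zero_add]; exact ord_mono (hO v hv) (by omega)
  rcases hz.dich (Per A σ) _ hS with ⟨H, hHS, hH, hH0, hHΛ⟩ | ⟨U, k, hU', hU0, hz'⟩
  · refine ⟨V + H, hz.add _ _ hV hH, fun v hv => ⟨v, hv, 0, hH0, add_zero v⟩,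
      fun h' => hHΛ (h H hH hH0 h'), ?_⟩
    rintro _ ⟨v, hv, x, hx, rfl⟩
    have := hHS hx v hv
    rwa [add_comm] at this
  · refine (h3 (⋃ v ∈ V, 𝒢 v) ⟨?_, ?_, U, k, hU', hU0, ?_⟩).elim
    · intro G hG
      simp only [Set.mem_iUnion] at hG
      obtain ⟨v, -, hG⟩ := hG
      exact g1 v G hG
    · intro G hG
      simp only [Set.mem_iUnion] at hG
      obtain ⟨v, hv, hG⟩ := hG
      exact g3 v T (hO v hv) G hG
    · intro z h'
      refine hz' z fun v hv => (g2 v z).1 fun G hG => h' G ?_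
      simp only [Set.mem_iUnion]
      exact ⟨v, hv, hG⟩

/-- the chain argument -/
lemma core (hz : ZarP (Th A σ)) (hh : HilB (Th A σ) (d + e)) (hc : LocS) (he : EqsS)
    (hs : StabS) (hF : InP A σ 1 D F) (hF0 : F ≠ 0) (hW : Adm A σ W) {T : ℕ}
    (h1 : ∀ n : E e, n ≠ 0 → ¬ ∀ τ : ℂ, Ord W F (τ • ((0, n) : Sp d e)) (T + 1))
    (h2 : ¬ Ord ⊤ F 0 (T + 1)) (h3 : ∀ 𝒢, ¬ Isol A σ W T D 𝒢)
    (hO : Ord W F 0 ((d + e) * T + 1)) : False := by
  classical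
  set n := d + e with hn
  let Pr : ℕ → Set (Sp d e) → Prop := fun r V =>
    Irr (Th A σ) V ∧ (0 : Sp d e) ∈ V ∧ ∀ v ∈ V, Ord W F v ((n - r) * T + 1)
  have key : ∀ r V, ∃ V', (r < n ∧ Pr r V → Pr (r + 1) V' ∧ V ⊆ V' ∧ ¬ V' ⊆ cl (Th A σ) V) ∧
      (¬ r < n → V' = Set.univ) := by
    intro r V
    by_cases hr : r < n ∧ Pr r V
    · obtain ⟨V', a1, a2, a3, a4⟩ := step hz hc he hs hF hW h1 h2 h3
        (N := (n - (r + 1)) * T) hr.2.1 hr.2.2.1 (fun v hv => by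
          have := hr.2.2.2 v hv
          rwa [show n - r = n - (r + 1) + 1 by omega, add_mul, one_mul, add_right_comm] at this)
      exact ⟨V', fun _ => ⟨⟨a1, a2 hr.2.2.1, a4⟩, a2, a3⟩, fun h => absurd hr.1 h⟩
    · exact ⟨Set.univ, fun h => absurd h hr, fun _ => rfl⟩
  choose g hg1 hg2 using key
  let V : ℕ → Set (Sp d e) := fun r => Nat.rec {0} g r
  have hV : ∀ r ≤ n, Pr r (V r) := by
    intro r hr
    induction r with
    | zero =>
      refine ⟨⟨Set.singleton_nonempty _, fun P Q _ _ _ _ h => ?_⟩, rfl, ?_⟩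
      · simpa [V] using h
      · rintro _ rfl
        exact hO
    | succ r ih => exact (hg1 r _ ⟨by omega, ih (by omega)⟩).1
  have hlast : V (n + 1) = Set.univ := hg2 n _ (lt_irrefl n)
  refine hz.chain n hh V (fun i hi => ?_) (fun i hi => ?_) (fun i hi => ?_)
  · rcases Nat.lt_or_ge n i with h | h
    · rw [show i = n + 1 by omega, hlast]; exact hz.univ
    · exact (hV i h).1
  · rcases hi.lt_or_eq with h | rfl
    · exact (hg1 i _ ⟨h, hV i hi⟩).2.1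
    · rw [hlast]; exact Set.subset_univ _
  · rcases hi.lt_or_eq with h | rfl
    · exact (hg1 i _ ⟨h, hV i hi⟩).2.2
    · rw [hlast]
      intro h
      refine hF0 (funext fun z => ?_)
      exact (hc.loc _ _ (Th A σ) z).zero_cl 1 F _ (hF.2 z)
        (fun v hv => ord_zero ((hV _ le_rfl).2.2 v hv)) (h (Set.mem_univ z))

lemma hilB (hb : BasS) (hh : HilS) (A : VX d M) (σ : Fin e → E d) : HilB (Th A σ) (d + e) := by
  obtain ⟨C, -, hC⟩ := hh d M A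
  refine ⟨C, fun m κ _ P hP hli => ?_⟩
  rw [pow_add, ← mul_assoc]
  exact hC e σ m m κ _ (fun i => ((hb d M e A σ).form _ _ (hP i)).1) hli

lemma not_isol {C K D c e : ℕ} (hc : e ≤ c) (hc1 : 1 ≤ c) (hK : C ≤ K) :
    ¬ (K * (D + 1) + 1) ^ c ≤ C * (D + 1) ^ e := by
  intro h
  have h1 : (K * (D + 1)) ^ c < (K * (D + 1) + 1) ^ c :=
    Nat.pow_lt_pow_left (Nat.lt_succ_self _) (by omega)
  have h2 : K ≤ K ^ c := Nat.le_self_pow (by omega) K
  have h3 : (D + 1) ^ e ≤ (D + 1) ^ c := Nat.pow_le_pow_right (Nat.succ_pos D) hc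
  have h4 : C * (D + 1) ^ e ≤ K ^ c * (D + 1) ^ c := Nat.mul_le_mul (hK.trans h2) h3
  rw [← mul_pow] at h4
  omega

end MainAux

open MainAux in
theorem zes (hz : ZarS) (hc : LocS) (hb : BasS) (ht : TrS) (hh : HilS) (hs : StabS) (he : EqsS)
    (hi : IsoS) (hl : LeadS) (hd : DescS) (hp : TopS) : ZES := by
  intro d M A
  obtain ⟨Ct, hCt⟩ := hp d M A
  have main : ∀ e C₀ : ℕ, (∀ (σ : Fin e → E d) (W : Submodule ℂ (Sp d e)) (D : ℕ)
      (F : Sp d e → ℂ), Adm A σ W → InP A σ 1 D F → F ≠ 0 → ∀ n : E e, n ≠ 0 →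
        ¬ ∀ τ : ℂ, Ord W F (τ • ((0, n) : Sp d e)) (C₀ * (D + 1))) →
      ∃ C : ℕ, ∀ (σ : Fin e → E d) (W : Submodule ℂ (Sp d e)) (D : ℕ) (F : Sp d e → ℂ),
        Adm A σ W → InP A σ 1 D F → Ord W F 0 (C * (D + 1)) → F = 0 := by
    intro e C₀ h₀
    obtain ⟨Ci, hCi⟩ := hi d M A e
    refine ⟨(d + e) * (C₀ + Ci + Ct + e) + 1, fun σ W D F hW hF hO => ?_⟩
    by_contra hF0
    have hB := hb d M e A σ
    refine core (T := (C₀ + Ci + Ct + e) * (D + 1))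
      (hz _ _ _ hB.diff hB.ne (ht d M e A σ).transl) (hilB hb hh A σ) hc he hs hF hF0 hW
      (fun n hn h => h₀ σ W D F hW hF hF0 n hn fun τ => ord_mono (h τ) (by nlinarith))
      (fun h => ?_) (fun 𝒢 h => ?_) (ord_mono hO (by nlinarith))
    · have := hCt e σ D _ F hF.1 hF0 h
      nlinarith
    · refine not_isol hW.dim ?_ (by omega) (hCi σ W _ D 𝒢 h)
      obtain ⟨w, hw, hw0⟩ := hW.hor
      refine Nat.one_le_iff_ne_zero.2 fun h' => hw0 ?_
      rw [Submodule.finrank_eq_zero.1 h', Submodule.mem_bot] at hw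
      rw [hw]; rfl
  intro e
  induction e with
  | zero => exact main 0 0 fun σ W D F _ _ _ n hn => (hn (Subsingleton.elim _ _)).elim
  | succ e ih =>
    obtain ⟨C, hC⟩ := ih
    refine main (e + 1) C fun σ W D F hW hF hF0 n hn h => ?_
    obtain ⟨σ', W', F', h1, h2, h3, h4⟩ := line_case hc hb hl hd hW hF hF0 hn h
    exact h3 (hC σ' W' D F' h1 h2 h4)

end Pool.Agent.Lib.MP_caab05_ag.ZE
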