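import Mathlib
import Pool.Agent.Lib.MP_caab05_ag.ZE.Stmt

/-! Reduction to functions of controlled bidegree. -/

namespace Pool.Agent.Lib.MP_caab05_ag.ZE

open MvPolynomial Filter Topology Asymptotics Complex
open Pool.Agent.Lib.MP_caab05_ag.LT (E AbVar Pol)

namespace NullAux

section Gen

variable {Y : Type} [NormedAddCommGroup Y] [NormedSpace ℂ Y] {W : Submodule ℂ Y} {T a b : ℕ}
  {φ ψ : Y → ℂ}

lemma gam_tendsto (T : ℕ) (u v : Y) : Tendsto (gam T u v) (𝓝 0) (𝓝 0) :=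
  Continuous.tendsto' (by unfold gam; fun_prop) 0 0 (by simp [gam])

lemma line_tendsto (u : Y) : Tendsto (fun τ : ℂ => τ • u) (𝓝 0) (𝓝 0) :=
  Continuous.tendsto' (by fun_prop) 0 0 (by simp)

lemma gam_sub (T : ℕ) (u v : Y) :
    (fun τ : ℂ => gam T u v τ - τ • u) =O[𝓝 0] fun τ : ℂ => τ ^ (T + 1) :=
  IsBigO.of_bound ‖v‖ (Eventually.of_forall fun τ => by
    rw [gam, add_sub_cancel_left, norm_smul, mul_comm])

lemma jf_zero (h : ContinuousAt φ 0) : Jf W T 0 φ := fun u _ v =>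
  ((h.tendsto.comp (gam_tendsto T u v)).isBigO_one ℂ).congr_right fun τ => (pow_zero τ).symm

lemma jf_add (h : Jf W T a φ) (h' : Jf W T a ψ) : Jf W T a fun z => φ z + ψ z :=
  fun u hu v => (h u hu v).add (h' u hu v)

lemma jf_mul (h : Jf W T a φ) (h' : Jf W T b ψ) : Jf W T (a + b) fun z => φ z * ψ z :=
  fun u hu v => ((h u hu v).mul (h' u hu v)).congr_right fun τ => (pow_add τ a b).symm

lemma jf_sum {κ : Type} (s : Finset κ) {F : κ → Y → ℂ} (h : ∀ i ∈ s, Jf W T a (F i)) :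
    Jf W T a fun z => ∑ i ∈ s, F i z :=
  fun u hu v => (IsBigO.sum fun i hi => h i hi u hu v).congr_left fun τ => by simp

lemma jf_congr (h : Jf W T a φ) (e : ∀ᶠ z in 𝓝 (0 : Y), φ z = ψ z) : Jf W T a ψ :=
  fun u hu v => (h u hu v).congr' ((gam_tendsto T u v).eventually e) EventuallyEq.rfl

lemma jf_of_ord (hd : Differentiable ℂ φ) (h : Ord W φ 0 (T + 1)) : Jf W T (T + 1) φ :=
  fun u hu v => by
  have hs : HasStrictFDerivAt φ (fderiv ℂ φ 0) 0 :=
    LT.CoordAux.hasStrictFDerivAt_of_eventually (Eventually.of_forall hd)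
  have h1 := (hs.isBigO_sub.comp_tendsto
    ((gam_tendsto T u v).prodMk_nhds (line_tendsto u))).trans (gam_sub T u v)
  exact (h1.add (h u hu)).congr_left fun τ => by simp

end Gen

variable {d M e : ℕ} {A : VX d M} {σ : Fin e → E d}

lemma cont_theta (A : VX d M) (e : ℕ) : Continuous fun z : Sp d e => A.θ z.1 0 :=
  (differentiable_pi.1 A.holo 0).continuous.comp continuous_fst

lemma cont_Fp (hb : BasP A σ) (P : MvPolynomial (Ic e M) ℂ) : ContinuousAt (Fp A σ P) 0 :=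
  (LT.differentiable_eval P).continuous.continuousAt.comp (continuousAt_pi.2 fun i =>
    ((continuous_apply i).comp hb.diff.continuous).continuousAt.div
      (cont_theta A e).continuousAt A.origin)

lemma Fp_hom {P : MvPolynomial (Ic e M) ℂ} {k : ℕ} (hP : P.IsHomogeneous k) (z : Sp d e) :
    Fp A σ P z = ev (Th A σ) P z / A.θ z.1 0 ^ k := by
  have : (fun i => Th A σ z i / A.θ z.1 0) = (A.θ z.1 0)⁻¹ • Th A σ z := by
    funext i
    simp [div_eq_inv_mul]
  rw [Fp, this, LT.eval_smul_of_hom hP, ev, inv_pow, div_eq_inv_mul]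

lemma theta_pow (hb : BasP A σ) (n : ℕ) : InQ A σ n 0 fun z => A.θ z.1 0 ^ n := by
  induction n with
  | zero => simpa using hb.qone
  | succ n ih => simpa [pow_succ] using hb.qmul _ _ _ _ _ _ ih (hb.theta 0).1

end NullAux

open NullAux in
theorem null (hb : BasS) (h1 : Null1S) : NullS := by
  intro d M e A σ W T D 𝒢 hI
  have B := hb d M e A σ
  obtain ⟨s₁, hs⟩ := h1 d M e A σ W T D 𝒢 hI
  refine ⟨s₁, fun s => ?_⟩
  induction s with
  | zero =>
    intro P
    refine ⟨fun _ => 0, B.qzero _ _, ?_⟩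
    simpa using jf_zero (W := W) (T := T) (cont_Fp B P)
  | succ s ih =>
    intro P
    obtain ⟨P₀, m, Q, G, h0, hG, hJ⟩ := hs ((s + 1) * (T + 1)) P
    choose F hF hFJ using fun i => ih (Q i)
    refine ⟨fun z => ev (Th A σ) P₀ z * A.θ z.1 0 ^ (2 * (s + 1)) + ∑ i, F i z * G i z,
      B.qadd _ _ _ _ (B.qmono _ _ _ _ (by omega)
        (B.qmul _ _ _ _ _ _ (B.form P₀ s₁ h0).1 (theta_pow B _)))
        (B.qsum _ _ _ _ _ fun i _ => ?_), ?_⟩
    · have := B.qmul _ _ _ _ _ _ (hF i) (hI.mem _ (hG i)).1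
      rwa [add_assoc, add_assoc, ← Nat.mul_succ, ← Nat.mul_succ] at this
    have hc : ContinuousAt (fun z : Sp d e => (A.θ z.1 0 ^ 2)⁻¹) 0 :=
      ((cont_theta A e).pow 2).continuousAt.inv₀ (pow_ne_zero 2 A.origin)
    have h2 : ∀ i, Jf W T ((s + 1) * (T + 1)) fun z =>
        (Fp A σ (Q i) z - F i z / A.θ z.1 0 ^ (s₁ + 2 * s)) * (G i z * (A.θ z.1 0 ^ 2)⁻¹) :=
      fun i => by
        rw [add_mul, one_mul]
        exact jf_mul (hFJ i) (jf_mul (a := T + 1) (b := 0)
          (jf_of_ord (hI.mem _ (hG i)).1.diff (hI.ord _ (hG i))) (jf_zero hc))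
    refine jf_congr (jf_add hJ (jf_sum Finset.univ fun i _ => h2 i)) ?_
    filter_upwards [(cont_theta A e).continuousAt.eventually_ne A.origin] with z hz
    rw [Fp_hom h0, add_div, Finset.sum_div, sub_add, ← Finset.sum_sub_distrib, sub_sub]
    congr 2
    · field_simp
      ring
    · refine Finset.sum_congr rfl fun i _ => ?_
      field_simp
      ring

end Pool.Agent.Lib.MP_caab05_ag.ZE
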