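import Mathlib
import Pool.Agent.Lib.MP_caab05_ag.ZE.Stmt

/-! The Nullstellensatz step on the vector extension. -/

namespace Pool.Agent.Lib.MP_caab05_ag.ZE

open MvPolynomial Filter Topology Asymptotics Complex
open Pool.Agent.Lib.MP_caab05_ag.LT (E AbVar Pol)

namespace Null1Aux

section Alg

variable {ι : Type} [Fintype ι]

/-- the polynomials congruent to a form of degree `m` -/
noncomputable def Gm (I : Ideal (MvPolynomial ι ℂ)) (m : ℕ) : Submodule ℂ (MvPolynomial ι ℂ) :=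
  homogeneousSubmodule ι ℂ m ⊔ I.restrictScalars ℂ

omit [Fintype ι] in
lemma mem_Gm {I : Ideal (MvPolynomial ι ℂ)} {m : ℕ} {P : MvPolynomial ι ℂ} :
    P ∈ Gm I m ↔ ∃ F : MvPolynomial ι ℂ, F.IsHomogeneous m ∧ P - F ∈ I := by
  rw [Gm, Submodule.mem_sup]
  constructor
  · rintro ⟨F, hF, r, hr, rfl⟩
    exact ⟨F, hF, by simpa using hr⟩
  · rintro ⟨F, hF, h⟩
    exact ⟨F, hF, P - F, h, by ring⟩

omit [Fintype ι] in
lemma mem_Gm_of_mem {I : Ideal (MvPolynomial ι ℂ)} {m : ℕ} {P : MvPolynomial ι ℂ} (h : P ∈ I) :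
    P ∈ Gm I m :=
  Submodule.mem_sup_right (show P ∈ I.restrictScalars ℂ from h)

omit [Fintype ι] in
lemma mem_Gm_of_hom {I : Ideal (MvPolynomial ι ℂ)} {o : ι} (h0 : X o - 1 ∈ I) {k m : ℕ}
    (hk : k ≤ m) {F : MvPolynomial ι ℂ} (hF : F.IsHomogeneous k) : F ∈ Gm I m := by
  refine mem_Gm.2 ⟨X o ^ (m - k) * F, ?_, ?_⟩
  · have := (isHomogeneous_X_pow (R := ℂ) o (m - k)).mul hF
    rwa [Nat.sub_add_cancel hk] at this
  · have h1 : (X o : MvPolynomial ι ℂ) ^ (m - k) - 1 ∈ I :=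
      I.mem_of_dvd (sub_one_dvd_pow_sub_one _ _) h0
    have := I.mul_mem_right (-F) h1
    convert this using 1; ring

/-- the linear forms vanishing at a point -/
noncomputable def lin (o : ι) (x : ι → ℂ) (i : ι) : MvPolynomial ι ℂ := X i - C (x i) * X o

omit [Fintype ι] in
lemma lin_hom (o : ι) (x : ι → ℂ) (i : ι) : (lin o x i).IsHomogeneous 1 :=
  (isHomogeneous_X ℂ i).sub ((isHomogeneous_X ℂ o).C_mul _)

lemma Gm_top {I : Ideal (MvPolynomial ι ℂ)} {o : ι} (h0 : X o - 1 ∈ I) (x : ι → ℂ) {s : ℕ}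
    (hs : ∀ i, lin o x i ^ s ∈ I) (P : MvPolynomial ι ℂ) : P ∈ Gm I (Fintype.card ι * s) := by
  have h1 : ∀ P' : MvPolynomial ι ℂ, aeval (lin o x) P' ∈ Gm I (Fintype.card ι * s) := fun P' => by
    induction P' using MvPolynomial.induction_on' with
    | add p q hp hq => rw [map_add]; exact add_mem hp hq
    | monomial α c =>
      rw [aeval_monomial, Finsupp.prod_fintype _ _ (by simp)]
      by_cases h : ∃ i, s ≤ α i
      · obtain ⟨i, hi⟩ := h
        refine mem_Gm_of_mem (I.mul_mem_left _ ?_)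
        exact I.mem_of_dvd ((pow_dvd_pow _ hi).trans
          (Finset.dvd_prod_of_mem (fun i => lin o x i ^ α i) (Finset.mem_univ i))) (hs i)
      · push Not at h
        refine mem_Gm_of_hom h0 (k := ∑ i, 1 * α i) ?_ ?_
        · calc _ ≤ ∑ _i : ι, s := Finset.sum_le_sum fun i _ => by simpa using (h i).le
            _ = _ := by simp
        · exact (IsHomogeneous.prod _ _ _ fun i _ => (lin_hom o x i).pow (α i)).C_mul c
  have h2 : ∀ P : MvPolynomial ι ℂ,
      P - aeval (lin o x) (aeval (fun i => (X i + C (x i) : MvPolynomial ι ℂ)) P) ∈ I :=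
    fun P => by
    induction P using MvPolynomial.induction_on with
    | C a => simp
    | add p q hp hq =>
      have := add_mem hp hq
      simp only [map_add]
      convert this using 1; ring
    | mul_X p i hp =>
      have := add_mem (I.mul_mem_right (X i) hp) (I.mul_mem_left
        (aeval (lin o x) (aeval (fun i => (X i + C (x i) : MvPolynomial ι ℂ)) p) * C (x i)) h0)
      simp only [map_mul, aeval_X, map_add, aeval_C, algebraMap_eq]
      generalize aeval (lin o x) (aeval (fun i => (X i + C (x i) : MvPolynomial ι ℂ)) p) = q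
        at this ⊢
      convert this using 1
      simp only [lin]; ring
  have := add_mem (mem_Gm_of_mem (m := Fintype.card ι * s) (h2 P))
    (h1 (aeval (fun i => (X i + C (x i) : MvPolynomial ι ℂ)) P))
  simpa using this

end Alg

section Curves

variable {Y : Type} [NormedAddCommGroup Y] [NormedSpace ℂ Y] {W : Submodule ℂ Y} {T a : ℕ}

lemma gam_tendsto (T : ℕ) (u v : Y) : Tendsto (gam T u v) (𝓝 0) (𝓝 0) := by
  have : Continuous (gam T u v) := by unfold gam; fun_prop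
  exact this.tendsto' 0 0 (by simp [gam])

lemma gam_isBigO (T : ℕ) (u v : Y) : gam T u v =O[𝓝 0] fun τ : ℂ => τ := by
  have h : DifferentiableAt ℂ (gam T u v) 0 := by unfold gam; fun_prop
  exact h.isBigO_sub.congr (fun τ => by simp [gam]) fun τ => sub_zero _

lemma jf_of_zero {φ : Y → ℂ} (h : ∀ᶠ z in 𝓝 (0 : Y), φ z = 0) : Jf W T a φ := fun u _ v =>
  (isBigO_zero (E' := ℂ) _ _).congr' (((gam_tendsto T u v).eventually h).mono fun _ h => h.symm)
    EventuallyEq.rfl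

lemma jf_mul {φ ψ : Y → ℂ} (hψ : ContinuousAt ψ 0) (h : Jf W T a φ) :
    Jf W T a fun z => ψ z * φ z := fun u hu v =>
  (((hψ.tendsto.comp (gam_tendsto T u v)).isBigO_one ℂ).mul (h u hu v)).congr_right
    fun _ => one_mul _

lemma jf_pow {φ : Y → ℂ} (h : DifferentiableAt ℂ φ 0) :
    Jf W T a fun z => (φ z - φ 0) ^ a := fun u _ v => by
  have h1 := h.isBigO_sub.comp_tendsto (gam_tendsto T u v)
  refine IsBigO.pow (IsBigO.trans ?_ (gam_isBigO T u v)) a
  exact h1.congr_right fun τ => by simp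

end Curves

variable {d M e : ℕ} {A : VX d M} {σ : Fin e → E d}

lemma aff_eq (z : Sp d e) : aff A σ z = (A.θ z.1 0)⁻¹ • Th A σ z := by
  ext i; simp [aff, div_eq_inv_mul]

lemma Fp_eq (P : MvPolynomial (Ic e M) ℂ) (z : Sp d e) : Fp A σ P z = eval (aff A σ z) P := rfl

lemma Fp_hom {P : MvPolynomial (Ic e M) ℂ} {k : ℕ} (hP : P.IsHomogeneous k) (z : Sp d e) :
    Fp A σ P z = (A.θ z.1 0)⁻¹ ^ k * ev (Th A σ) P z := by
  rw [Fp_eq, aff_eq, LT.eval_smul_of_hom hP, ev]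

lemma Fp_diff (hc : ChartP A σ) (P : MvPolynomial (Ic e M) ℂ) :
    DifferentiableAt ℂ (Fp A σ P) 0 :=
  (LT.differentiable_eval P _).comp 0 hc.dif.self_of_nhds

lemma theta0_ne (A : VX d M) (e : ℕ) : ∀ᶠ z in 𝓝 (0 : Sp d e), A.θ z.1 0 ≠ 0 :=
  ((differentiable_pi.1 A.holo 0).continuous.comp continuous_fst).continuousAt.eventually_ne
    A.origin

lemma aff_o {z : Sp d e} (hz : A.θ z.1 0 ≠ 0) : aff A σ z (none, 0) = 1 := div_self hz

lemma aff_per (hb : BasP A σ) {z : Sp d e} (hz : z ∈ Per A σ) : aff A σ z = aff A σ 0 := by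
  obtain ⟨l, hl, rfl⟩ := hz
  have h := hb.aut l hl 0
  rw [zero_add] at h
  have h0 : A.θ (lift A σ l).1 0 = _ := congrFun h (none, 0)
  ext i
  rw [aff, aff, h0, h]
  exact mul_div_mul_left _ _ (Complex.exp_ne_zero _)

/-- the polynomials which are combinations of the equations up to order `a` -/
noncomputable def I (hc : ChartP A σ) (W : Submodule ℂ (Sp d e)) (T : ℕ) (𝒢 : Set (Sp d e → ℂ))
    (a : ℕ) : Ideal (MvPolynomial (Ic e M) ℂ) where
  carrier := {P | ∃ (κ : Type) (_ : Fintype κ) (Q : κ → MvPolynomial (Ic e M) ℂ)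
    (G : κ → Sp d e → ℂ), (∀ i, G i ∈ 𝒢) ∧
      Jf W T a fun z => Fp A σ P z - ∑ i, Fp A σ (Q i) z * (G i z / A.θ z.1 0 ^ 2)}
  add_mem' := by
    rintro P P' ⟨κ, _, Q, G, hG, h⟩ ⟨κ', _, Q', G', hG', h'⟩
    refine ⟨κ ⊕ κ', inferInstance, Sum.elim Q Q', Sum.elim G G', ?_, fun u hu v => ?_⟩
    · rintro (i | i)
      · exact hG i
      · exact hG' i
    · refine ((h u hu v).add (h' u hu v)).congr_left fun τ => ?_
      simp only [Fp_eq, map_add, Fintype.sum_sum_type, Sum.elim_inl, Sum.elim_inr]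
      ring
  zero_mem' := ⟨Empty, inferInstance, fun i => i.elim, fun i => i.elim, fun i => i.elim,
    jf_of_zero (Eventually.of_forall fun z => by simp [Fp_eq])⟩
  smul_mem' := by
    rintro R P ⟨κ, _, Q, G, hG, h⟩
    refine ⟨κ, inferInstance, fun i => R * Q i, G, hG, fun u hu v => ?_⟩
    refine (jf_mul (Fp_diff hc R).continuousAt h u hu v).congr_left fun τ => ?_
    simp only [Fp_eq, smul_eq_mul, map_mul, mul_sub, Finset.mul_sum, mul_assoc]

variable {W : Submodule ℂ (Sp d e)} {T a : ℕ} {𝒢 : Set (Sp d e → ℂ)}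

lemma mem_I (hc : ChartP A σ) {P : MvPolynomial (Ic e M) ℂ} (h : Jf W T a (Fp A σ P)) :
    P ∈ I hc W T 𝒢 a :=
  ⟨Empty, inferInstance, fun i => i.elim, fun i => i.elim, fun i => i.elim, by simpa using h⟩

/-- the numerators of the equations -/
def Num (A : VX d M) (σ : Fin e → E d) (𝒢 : Set (Sp d e → ℂ)) : Set (MvPolynomial (Ic e M) ℂ) :=
  {P | ∃ G ∈ 𝒢, ∃ (m : ℕ) (Q : MvPolynomial (Ic e M) ℂ), Q.IsHomogeneous m ∧
    P.IsHomogeneous (2 + m) ∧ ∀ z, ev (Th A σ) Q z * G z = ev (Th A σ) P z}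

lemma num_mem (hc : ChartP A σ) {P : MvPolynomial (Ic e M) ℂ} (h : P ∈ Num A σ 𝒢) :
    P ∈ I hc W T 𝒢 a := by
  obtain ⟨G, hG, m, Q, hQ, hP, h⟩ := h
  refine ⟨Unit, inferInstance, fun _ => Q, fun _ => G, fun _ => hG,
    jf_of_zero (Eventually.of_forall fun z => ?_)⟩
  rw [Fintype.sum_unique, Fp_hom hQ, Fp_hom hP, ← h]
  ring

/-- the Nullstellensatz step -/
lemma exists_pow (hb : BasP A σ) (hc : ChartP A σ) {D : ℕ} (h : Isol A σ W T D 𝒢) :
    ∃ s : ℕ, ∀ a i, lin (none, 0) (aff A σ 0) i ^ s ∈ I hc W T 𝒢 a := by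
  obtain ⟨S, hS, hS'⟩ := hc.img
  obtain ⟨U, k, hU, hU0, hiso⟩ := h.iso
  have h1 : ∀ i, ∃ s : ℕ, (lin (none, 0) (aff A σ 0) i * U) ^ s ∈ Ideal.span (S ∪ Num A σ 𝒢) :=
    fun i => by
    change _ ∈ (Ideal.span (S ∪ Num A σ 𝒢)).radical
    rw [← vanishingIdeal_zeroLocus_eq_radical (K := ℂ), zeroLocus_span, mem_vanishingIdeal_iff]
    intro x hx
    obtain ⟨z, hz, rfl⟩ := hS' x fun P hP => hx P (Or.inl hP)
    change eval _ _ = 0
    rw [map_mul]
    rcases hiso z (fun G hG => by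
      obtain ⟨m, Q, P, hQ, hP, hQz, hQP⟩ := (h.mem G hG).2 z
      have h2 : Fp A σ P z = 0 := hx P (Or.inr ⟨G, hG, m, Q, hQ, hP, hQP⟩)
      rw [Fp_hom hP, ← hQP] at h2
      exact (mul_eq_zero.1 ((mul_eq_zero.1 h2).resolve_left
        (pow_ne_zero _ (inv_ne_zero hz)))).resolve_left hQz) with h3 | h3
    · rw [aff_per hb h3]
      simp [lin, aff_o (A := A) (σ := σ) (z := 0) A.origin]
    · rw [← Fp_eq U, Fp_hom hU, h3, mul_zero, mul_zero]
  choose s hs using h1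
  refine ⟨∑ i, s i, fun a i => ?_⟩
  have h2 : Ideal.span (S ∪ Num A σ 𝒢) ≤ I hc W T 𝒢 a := by
    refine Ideal.span_le.2 ?_
    rintro P (hP | hP)
    · exact mem_I hc (jf_of_zero ((theta0_ne A e).mono fun z hz => hS P hP z hz))
    · exact num_mem hc hP
  have hu0 : Fp A σ U 0 ≠ 0 := by
    rw [Fp_hom hU]; exact mul_ne_zero (pow_ne_zero _ (inv_ne_zero A.origin)) hU0
  have h3 : IsUnit (Ideal.Quotient.mk (I hc W T 𝒢 a) U) := by
    have hn : IsNilpotent (Ideal.Quotient.mk (I hc W T 𝒢 a) (U - C (Fp A σ U 0))) :=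
      ⟨a, by
        rw [← map_pow, Ideal.Quotient.eq_zero_iff_mem]
        refine mem_I hc fun u hu v => ?_
        exact (jf_pow (T := T) (a := a) (Fp_diff hc U) u hu v).congr_left fun τ => by simp [Fp_eq]⟩
    have hC : IsUnit (Ideal.Quotient.mk (I hc W T 𝒢 a) (C (Fp A σ U 0))) :=
      (hu0.isUnit.map C).map _
    have := hn.isUnit_add_right_of_commute hC (Commute.all _ _)
    rwa [← map_add, sub_add_cancel] at this
  have h4 := Ideal.Quotient.eq_zero_iff_mem.2 (h2 (hs i))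
  rw [mul_pow, map_mul, map_pow _ U, (h3.pow _).mul_left_eq_zero,
    Ideal.Quotient.eq_zero_iff_mem] at h4
  exact (I hc W T 𝒢 a).mem_of_dvd (pow_dvd_pow _
    (Finset.single_le_sum (fun _ _ => Nat.zero_le _) (Finset.mem_univ i))) h4

end Null1Aux

open Null1Aux in
theorem null1 (hb : BasS) (hc : ChartS) : Null1S := by
  intro d M e A σ W T D 𝒢 h
  have hc' := hc d M e A σ
  obtain ⟨s, hs⟩ := exists_pow (hb d M e A σ) hc' h
  refine ⟨Fintype.card (Ic e M) * s, fun a P => ?_⟩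
  have h0 : X (none, 0) - 1 ∈ I hc' W T 𝒢 a :=
    mem_I hc' (jf_of_zero ((theta0_ne A e).mono fun z hz => by simp [Fp_eq, aff_o hz]))
  obtain ⟨P₀, hP₀, κ, _, Q, G, hG, hJ⟩ := mem_Gm.1 (Gm_top h0 _ (hs a) P)
  let ε := (Fintype.equivFin κ).symm
  refine ⟨P₀, _, fun i => Q (ε i), fun i => G (ε i), hP₀, fun i => hG _, fun u hu v => ?_⟩
  refine (hJ u hu v).congr_left fun τ => ?_
  beta_reduce
  rw [← ε.sum_comp]
  simp only [Fp_eq, map_sub]

end Pool.Agent.Lib.MP_caab05_ag.ZE
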