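import Mathlib
import Pool.Agent.Lib.MP_caab05_ag.ZE.Stmt
import Pool.Agent.Lib.MP_caab05_ag.LT.ZeroC

/-! The structure of the stabiliser of a closed subset of a vector extension. -/

namespace Pool.Agent.Lib.MP_caab05_ag.ZE

open MvPolynomial Filter Topology Asymptotics Complex
open Pool.Agent.Lib.MP_caab05_ag.LT (E AbVar Pol)
open scoped Pointwise

namespace StabAux

variable {d M e : ℕ} {A : VX d M} {σ : Fin e → E d}

lemma diff_ev (hb : BasP A σ) (P : MvPolynomial (Ic e M) ℂ) :
    Differentiable ℂ (ev (Th A σ) P) :=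
  (LT.differentiable_eval P).comp hb.diff

lemma isClosed_cl (hb : BasP A σ) (V : Set (Sp d e)) : IsClosed (cl (Th A σ) V) := by
  simp only [cl, Set.ofPred_forall]
  exact isClosed_iInter fun P => isClosed_iInter fun _ => isClosed_iInter fun _ =>
    isClosed_iInter fun _ => isClosed_eq (diff_ev hb P).continuous continuous_const

/-- the translations which map the closure of `V` into itself -/
def st (A : VX d M) (σ : Fin e → E d) (V : Set (Sp d e)) : AddSubmonoid (Sp d e) where
  carrier := {g | ∀ z ∈ cl (Th A σ) V, z + g ∈ cl (Th A σ) V}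
  zero_mem' := fun z hz => by simpa using hz
  add_mem' := fun {a b} ha hb z hz => by
    rw [← add_assoc]
    exact hb _ (ha z hz)

lemma isClosed_st (hb : BasP A σ) (V : Set (Sp d e)) : IsClosed (st A σ V : Set (Sp d e)) := by
  change IsClosed {g | ∀ z ∈ cl (Th A σ) V, z + g ∈ cl (Th A σ) V}
  simp only [Set.ofPred_forall]
  exact isClosed_iInter fun z => isClosed_iInter fun _ =>
    (isClosed_cl hb V).preimage (continuous_const.add continuous_id)

lemma lift_zero (hb : BasP A σ) : lift A σ 0 = 0 := by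
  have := hb.lift_add 0 0
  rw [add_zero] at this
  exact left_eq_add.mp this

lemma period_mem (hb : BasP A σ) (V : Set (Sp d e)) {l : E d} (hl : l ∈ A.Λ) :
    lift A σ l ∈ st A σ V := by
  intro z hz P k hP h
  have h1 : ev (Th A σ) P z = 0 := hz P k hP h
  rw [ev] at h1 ⊢
  rw [hb.aut l hl, LT.eval_smul_of_hom hP, h1, mul_zero]

/-- the points of the base whose lift stabilises the closure of `V` -/
def stM (hb : BasP A σ) (V : Set (Sp d e)) : AddSubmonoid (E d) where
  carrier := {x | lift A σ x ∈ st A σ V}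
  zero_mem' := by
    change lift A σ 0 ∈ st A σ V
    rw [lift_zero hb]
    exact zero_mem _
  add_mem' := fun {a b} ha hb' => by
    change lift A σ (a + b) ∈ st A σ V
    rw [hb.lift_add]
    exact add_mem ha hb'

lemma isClosed_stM (hb : BasP A σ) (V : Set (Sp d e)) : IsClosed (stM hb V : Set (E d)) :=
  (isClosed_st hb V).preimage hb.lift_cont

/-- the same set as a group -/
def stG (hb : BasP A σ) (V : Set (Sp d e)) : AddSubgroup (E d) where
  toAddSubmonoid := stM hb V
  neg_mem' := fun hg => by
    obtain ⟨R, hR⟩ := LT.exists_fund A.toAbVar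
    exact LT.StabAux.neg_mem_of_cocompact (stM hb V) (isClosed_stM hb V) A.Λ.toAddSubgroup
      (fun l hl => period_mem hb V hl) hR hg

lemma smul_mem (hb : BasP A σ) {V : Set (Sp d e)} {x : E d} (hx : ∀ t : ℝ, t • x ∈ stG hb V)
    (τ : ℂ) : τ • lift A σ x ∈ st A σ V := by
  intro z hz P k hP hV
  refine LT.StabAux.eq_zero_of_real (f := fun τ : ℂ => ev (Th A σ) P (z + τ • lift A σ x))
    ((diff_ev hb P).comp (by fun_prop)) (fun t => ?_) τ
  have h1 : lift A σ (t • x) ∈ st A σ V := hx t
  rw [hb.lift_smul] at h1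
  exact h1 z hz P k hP hV

/-- the union of the complex lines inside the stabiliser -/
def stU (A : VX d M) (σ : Fin e → E d) (V : Set (Sp d e)) : Submodule ℂ (Sp d e) where
  carrier := {u | ∀ t : ℂ, t • u ∈ st A σ V}
  zero_mem' := fun t => by simp
  add_mem' := fun {a b} ha hb t => by
    rw [smul_add]
    exact add_mem (ha t) (hb t)
  smul_mem' := fun c u hu t => by
    rw [smul_smul]
    exact hu _

lemma ev_rename (P : Pol M) (z : Sp d e) :
    ev (Th A σ) (rename (fun c => ((none, c) : Ic e M)) P) z = LT.ev A.toAbVar P z.1 := by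
  rw [ev, eval_rename]
  rfl

end StabAux

open StabAux in
theorem stab (hz : ZarS) (hb : BasS) (ht : TrS) (hl : LineS) (hg : GrpS) : StabS := by
  intro d M e A σ V
  have b := hb d M e A σ
  by_cases h : ∀ g ∈ st A σ V, g = lift A σ g.1
  swap
  · push Not at h
    obtain ⟨g, hg1, hg2⟩ := h
    have e1 : g = lift A σ g.1 + (0, g.2 - (lift A σ g.1).2) :=
      Prod.ext (by simp [lift]) (by simp)
    refine Or.inl ⟨g.2 - (lift A σ g.1).2, fun h0 => hg2 ?_, hl d M e A σ V g.1 _ ?_⟩
    · exact Prod.ext rfl (sub_eq_zero.mp h0)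
    · rw [← e1]
      exact hg1
  right
  rcases hg d M A (stG b V) (isClosed_stM b V) (fun l hl => period_mem b V hl) (fun u hu τ => by
      have h1 := smul_mem b hu τ
      have h2 := h _ h1
      rw [h2] at h1
      exact h1) with ⟨U, hU, hU0, hUG⟩ | ⟨F, hF, hF'⟩
  · refine Or.inl ⟨U, hU, hU0, fun x hx => ?_⟩
    have h1 : Submodule.span ℂ (lift A σ '' (U : Set (E d))) ≤ stU A σ V := by
      rw [Submodule.span_le]
      rintro _ ⟨u, hu, rfl⟩ τ
      exact smul_mem b (fun t => hUG _ ((U.restrictScalars ℝ).smul_mem t hu)) τ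
    have h2 := h1 hx 1
    rw [one_smul] at h2
    exact h2
  · refine Or.inr fun H hH h0 hVH x hx => ?_
    have hst : ∀ z ∈ H, z ∈ st A σ V := fun z hz' =>
      (hz _ _ (Th A σ) b.diff b.ne (ht d M e A σ).transl).stab V z
        fun v hv => hVH (Set.add_mem_add hv hz')
    obtain ⟨P, k, hP, hP0, hPF⟩ := LT.StabAux.exists_form A.toAbVar hF
    by_contra hx'
    have hx1 : x.1 ∉ A.Λ := fun h1 => hx' ⟨x.1, h1, (h x (hst x hx)).symm⟩
    obtain ⟨Q, hQ, hQ0, hQx⟩ :=
      LT.StabAux.exists_lin A.toAbVar (a := 0) (b := x.1) (by simpa using hx1)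
    have key : ∀ z ∈ H, ev (Th A σ) (rename (fun c => ((none, c) : Ic e M)) P) z *
        ev (Th A σ) (rename (fun c => ((none, c) : Ic e M)) Q) z = 0 := by
      intro z hz'
      rw [ev_rename, ev_rename]
      by_cases h1 : z.1 ∈ A.Λ
      · have := (LT.ev_add_period A.toAbVar hQ h1 0).2 hQ0
        rw [zero_add] at this
        rw [this, mul_zero]
      · have hzG : z.1 ∈ stG b V := by
          change lift A σ z.1 ∈ st A σ V
          rw [← h z (hst z hz')]
          exact hst z hz'
        obtain ⟨f, hf, hf'⟩ := hF' _ hzG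
        have h2 : f ∉ A.Λ := fun h3 => h1 (by
          have := A.Λ.add_mem hf' h3
          rwa [sub_add_cancel] at this)
        have := (LT.ev_add_period A.toAbVar hP hf' f).2 (hPF f hf h2)
        rw [add_sub_cancel] at this
        rw [this, zero_mul]
    rcases hH.2 _ _ k 1 (hP.rename_isHomogeneous) (hQ.rename_isHomogeneous) key with h1 | h1
    · have := h1 0 h0
      rw [ev_rename] at this
      exact hP0 this
    · have := h1 x hx
      rw [ev_rename] at this
      exact hQx this

end Pool.Agent.Lib.MP_caab05_ag.ZE
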