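import Mathlib
import Pool.Agent.Lib.MP_caab05_ag.ZE.Stmt

/-! The order at the origin along all lines. -/

namespace Pool.Agent.Lib.MP_caab05_ag.ZE

open MvPolynomial Filter Topology Asymptotics Complex
open Pool.Agent.Lib.MP_caab05_ag.LT (E AbVar Pol)

namespace TopAux

theorem pow_big {a b : ℕ} (h : b ≤ a) :
    (fun τ : ℂ => τ ^ a) =O[𝓝 0] fun τ : ℂ => τ ^ b := by
  rcases h.eq_or_lt with rfl | h
  · exact isBigO_refl _ _
  · exact (isLittleO_pow_pow h).isBigO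

theorem div_pow (g : ℂ → ℂ) (hg : ContinuousAt g 0) (j m : ℕ)
    (h : (fun τ : ℂ => τ ^ j * g τ) =O[𝓝 0] fun τ : ℂ => τ ^ m) :
    g =O[𝓝 0] fun τ : ℂ => τ ^ (m - j) := by
  rcases le_or_gt m j with hm | hm
  · rw [Nat.sub_eq_zero_of_le hm]
    simpa using hg.isBigO_one ℂ
  · have h1 : g =O[𝓝[≠] 0] fun τ : ℂ => τ ^ (m - j) := by
      have h2 := (h.mono (nhdsWithin_le_nhds (s := {0}ᶜ))).mul
        (isBigO_refl (fun τ : ℂ => (τ ^ j)⁻¹) (𝓝[≠] 0))
      refine h2.congr' ?_ ?_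
      · filter_upwards [self_mem_nhdsWithin] with τ hτ
        have : τ ^ j ≠ 0 := pow_ne_zero _ hτ
        field_simp
      · filter_upwards [self_mem_nhdsWithin] with τ hτ
        exact (pow_sub₀ τ hτ hm.le).symm
    have h3 : Tendsto (fun τ : ℂ => τ ^ (m - j)) (𝓝[≠] 0) (𝓝 0) := by
      have : Tendsto (fun τ : ℂ => τ ^ (m - j)) (𝓝 0) (𝓝 ((0 : ℂ) ^ (m - j))) :=
        (continuous_pow _).continuousAt
      rw [zero_pow (by omega)] at this
      exact this.mono_left nhdsWithin_le_nhds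
    have h0 : g 0 = 0 :=
      tendsto_nhds_unique (hg.tendsto.mono_left nhdsWithin_le_nhds) (h1.trans_tendsto h3)
    rw [← nhdsNE_sup_pure, isBigO_sup]
    exact ⟨h1, isBigO_pure.2 fun _ => h0⟩

variable {d M e : ℕ}

theorem step (hl : LeadS) (hb : BasS) (A : VX d M) (σ : Fin e → E d) (D m : ℕ) (F : Sp d e → ℂ)
    (hF : InQ A σ 1 D F) (h0 : F ≠ 0) (ho : Ord ⊤ F 0 m) (u : E e) :
    ∃ F' : Sp d e → ℂ, InQ A σ 1 D F' ∧ F' ≠ 0 ∧ Ord ⊤ F' 0 (m - D) ∧
      (∀ z (τ : ℂ), F' (z + τ • ((0, u) : Sp d e)) = F' z) ∧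
      ∀ v, (∀ z, F (z + v) = F z) → ∀ z, F' (z + v) = F' z := by
  obtain ⟨j, hj, a, F', h1, h2, h3⟩ := hl (Sp d e) F (0, u) D h0 fun z => hF.poly z u
  have B := hb d M e A σ
  have e1 : ∀ z, F' z =
      ∑ i ∈ Finset.range (j + 1), a i * F (z + ((0, (i : ℂ) • u) : Sp d e)) := by
    intro z
    have := h3 z 1
    rw [one_pow, one_mul] at this
    rw [this]
    refine Finset.sum_congr rfl fun i _ => ?_
    simp
  have hQ : InQ A σ 1 D F' := by
    have := B.qsum 1 D ℕ (Finset.range (j + 1))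
      (fun i z => a i * F (z + ((0, (i : ℂ) • u) : Sp d e)))
      fun i _ => B.qsmul 1 D _ _ (B.qvt 1 D F _ hF)
    rwa [← funext e1] at this
  refine ⟨F', hQ, h1, fun w _ => ?_, h2, fun v hv z => ?_⟩
  · refine (div_pow _ ?_ j m ?_).trans (pow_big (by omega))
    · exact (hQ.diff.continuous.comp (by fun_prop)).continuousAt
    · have h4 : (fun τ : ℂ => ∑ i ∈ Finset.range (j + 1),
          a i * F (0 + τ • (w + (i : ℂ) • ((0, u) : Sp d e)))) =O[𝓝 0] fun τ : ℂ => τ ^ m :=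
        IsBigO.fun_sum fun i _ => (ho _ trivial).const_mul_left _
      refine h4.congr_left fun τ => ?_
      rw [h3]
      refine Finset.sum_congr rfl fun i _ => ?_
      rw [smul_add, smul_smul, mul_comm τ, add_assoc]
  · rw [e1, e1]
    refine Finset.sum_congr rfl fun i _ => ?_
    rw [add_right_comm, hv]

theorem iter (hl : LeadS) (hb : BasS) (A : VX d M) (σ : Fin e → E d) (D m : ℕ) (F : Sp d e → ℂ)
    (hF : InQ A σ 1 D F) (h0 : F ≠ 0) (ho : Ord ⊤ F 0 m) (s : Finset (Fin e)) :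
    ∃ F' : Sp d e → ℂ, InQ A σ 1 D F' ∧ F' ≠ 0 ∧ Ord ⊤ F' 0 (m - s.card * D) ∧
      ∀ j ∈ s, ∀ (τ : ℂ) z, F' (z + τ • ((0, Pi.single j 1) : Sp d e)) = F' z := by
  induction s using Finset.induction_on with
  | empty => exact ⟨F, hF, h0, by simpa using ho, by simp⟩
  | insert j s hj ih =>
    obtain ⟨G, g1, g2, g3, g4⟩ := ih
    obtain ⟨F', f1, f2, f3, f4, f5⟩ := step hl hb A σ D _ G g1 g2 g3 (Pi.single j 1)
    refine ⟨F', f1, f2, ?_, fun i hi τ z => ?_⟩
    · rwa [Finset.card_insert_of_notMem hj, add_mul, one_mul, ← Nat.sub_sub]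
    · rcases Finset.mem_insert.1 hi with rfl | hi
      · exact f4 z τ
      · exact f5 _ (g4 i hi τ) z

end TopAux

theorem top (h0 : Top0S) (hl : LeadS) (hb : BasS) : TopS := by
  intro d M A
  obtain ⟨C, hC⟩ := h0 d M A
  refine ⟨C, fun e σ D m F hF hF0 ho => ?_⟩
  obtain ⟨G, g1, g2, g3, g4⟩ := TopAux.iter hl hb A σ D m F hF hF0 ho Finset.univ
  have hinv : ∀ (u : E e) z, G (z + (0, u)) = G z := by
    intro u
    have e1 : ((0, u) : Sp d e) = ∑ j, u j • ((0, Pi.single j 1) : Sp d e) := by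
      ext i
      · simp [Prod.fst_sum]
      · simp [Prod.snd_sum, Finset.sum_apply, Pi.single_apply]
    rw [e1]
    refine Finset.sum_induction _ (fun v => ∀ z, G (z + v) = G z) ?_ (fun z => by rw [add_zero])
      fun j hj => g4 j hj (u j)
    intro a b ha hb z
    rw [← add_assoc, hb, ha]
  have hx : ∀ z : Sp d e, G z = G (z.1, 0) := by
    intro z
    rw [← hinv z.2 (z.1, 0)]
    simp
  have h1 := hC (fun x => G (x, 0)) (m - e * D)
    (g1.diff.comp (by fun_prop)) (fun l hl z => by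
      have := g1.aut l hl (z, 0)
      rw [pow_one, hx] at this
      exact this)
    (fun h => g2 (funext fun z => by rw [hx]; exact congrFun h z.1))
    (fun u _ => by simpa using g3 (u, 0) trivial)
  omega

end Pool.Agent.Lib.MP_caab05_ag.ZE
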