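import Mathlib
import Pool.Agent.Lib.MP_caab05_ag.ZE.Stmt

/-! Translates of locally rational functions are locally rational. -/

namespace Pool.Agent.Lib.MP_caab05_ag.ZE

open MvPolynomial Filter Topology Asymptotics Complex
open Pool.Agent.Lib.MP_caab05_ag.LT (E AbVar Pol)

namespace TrAux

variable {ι κ : Type}

/-- scaling of degree `k` in the first group of variables -/
def Sc (k : ℕ) (R : MvPolynomial (ι ⊕ κ) ℂ) : Prop :=
  ∀ (r : ℂ) (x : ι → ℂ) (y : κ → ℂ),
    eval (Sum.elim (r • x) y) R = r ^ k * eval (Sum.elim x y) R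

lemma Sc.mul {k l : ℕ} {R S : MvPolynomial (ι ⊕ κ) ℂ} (hR : Sc k R) (hS : Sc l S) :
    Sc (k + l) (R * S) := by
  intro r x y
  rw [map_mul, map_mul, hR r x y, hS r x y, pow_add]
  ring

/-- substitution of the polynomials `b i` for the variables -/
noncomputable def sub (b : ι → MvPolynomial (ι ⊕ κ) ℂ) (P : MvPolynomial ι ℂ) :
    MvPolynomial (ι ⊕ κ) ℂ :=
  aeval b P

lemma eval_sub' (b : ι → MvPolynomial (ι ⊕ κ) ℂ) (P : MvPolynomial ι ℂ) (t : ι ⊕ κ → ℂ) :
    eval t (sub b P) = eval (fun i => eval t (b i)) P := by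
  unfold sub
  induction P using MvPolynomial.induction_on with
  | C a => simp
  | add p q hp hq => simp only [map_add, hp, hq]
  | mul_X p i hp => simp only [map_mul, hp, aeval_X, eval_X]

lemma sc_sub {b : ι → MvPolynomial (ι ⊕ κ) ℂ} (hb : ∀ i, Sc 2 (b i)) {P : MvPolynomial ι ℂ}
    {m : ℕ} (hP : P.IsHomogeneous m) : Sc (2 * m) (sub b P) := by
  intro r x y
  rw [eval_sub', eval_sub']
  have h1 : (fun i => eval (Sum.elim (r • x) y) (b i)) =
      (r ^ 2) • fun i => eval (Sum.elim x y) (b i) := by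
    funext i
    rw [hb i r x y]
    rfl
  rw [h1, LT.eval_smul_of_hom hP, ← pow_mul]

variable {d M e : ℕ} {A : VX d M} {σ : Fin e → E d}
  {B : Ic e M → Fin (M + 1) → MvPolynomial (Ic e M ⊕ Ic e M) ℂ}

/-- the addition formula -/
def Ad (A : VX d M) (σ : Fin e → E d)
    (B : Ic e M → Fin (M + 1) → MvPolynomial (Ic e M ⊕ Ic e M) ℂ) : Prop :=
  ∀ i b z v, Th A σ (z + v) i * A.θ (z.1 - v.1) b =
    eval (Sum.elim (Th A σ z) (Th A σ v)) (B i b)

lemma eval_sub_th (hB : Ad A σ B) {P : MvPolynomial (Ic e M) ℂ} {m : ℕ}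
    (hP : P.IsHomogeneous m) (a : Fin (M + 1)) (z v : Sp d e) :
    eval (Sum.elim (Th A σ z) (Th A σ v)) (sub (fun i => B i a) P) =
      A.θ (z.1 - v.1) a ^ m * ev (Th A σ) P (z + v) := by
  rw [eval_sub']
  have h1 : (fun i => eval (Sum.elim (Th A σ z) (Th A σ v)) (B i a)) =
      A.θ (z.1 - v.1) a • Th A σ (z + v) := by
    funext i
    rw [← hB i a z v, Pi.smul_apply, smul_eq_mul, mul_comm]
  rw [h1, LT.eval_smul_of_hom hP]
  rfl

lemma exists_ne (A : VX d M) (x : E d) : ∃ a, A.θ x a ≠ 0 := by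
  by_contra hc
  push Not at hc
  exact A.ne_zero x (funext hc)

lemma transl (h : LocS) (hs : ∀ i b, Sc 2 (B i b)) (hB : Ad A σ B) : Transl (Th A σ) := by
  intro P k hP a z₀
  obtain ⟨b, hb⟩ := exists_ne A (z₀.1 - a.1)
  obtain ⟨G, hG, hE⟩ := (h.fam _ _ (sub (fun i => B i b) P) (2 * k)
    (sc_sub (fun i => hs i b) hP) (fun _ => Th A σ a) (differentiable_const _)).2 0
  have key : ∀ z, ev (Th A σ) G z = A.θ (z.1 - a.1) b ^ k * ev (Th A σ) P (z + a) := by
    intro z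
    rw [← eval_sub_th hB hP b z a]
    have := hE (Th A σ z)
    rw [iteratedDeriv_zero] at this
    exact this
  refine ⟨G, 2 * k, hG, fun z hz => ?_, fun hz => ?_⟩
  · rw [key, hz, mul_zero]
  · rw [key]
    exact mul_ne_zero (pow_ne_zero _ hb) hz

/-- derivatives of a family of forms along a line are locally rational -/
lemma loc_fam (h : LocS) (hd : Differentiable ℂ (Th A σ)) {k : ℕ}
    {R : MvPolynomial (Ic e M ⊕ Ic e M) ℂ} (hR : Sc k R) (v w z₀ : Sp d e) :
    (∀ z, Differentiable ℂ fun τ : ℂ => eval (Sum.elim (Th A σ z) (Th A σ (v + τ • w))) R) ∧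
    ∀ i, Loc (Th A σ) k (fun z => iteratedDeriv i
      (fun τ : ℂ => eval (Sum.elim (Th A σ z) (Th A σ (v + τ • w))) R) 0) z₀ := by
  have hγ : Differentiable ℂ fun τ : ℂ => Th A σ (v + τ • w) :=
    hd.comp ((differentiable_const _).add (differentiable_id.smul_const w))
  obtain ⟨h1, h2⟩ := h.fam _ _ R k hR _ hγ
  refine ⟨fun z => h1 _, fun i => ?_⟩
  obtain ⟨G, hG, hE⟩ := h2 i
  have := (h.loc _ _ (Th A σ) z₀).form G k hG
  have e1 : ev (Th A σ) G = fun z => iteratedDeriv i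
      (fun τ : ℂ => eval (Sum.elim (Th A σ z) (Th A σ (v + τ • w))) R) 0 :=
    funext fun z => hE _
  rwa [e1] at this

/-- the function of two variables whose derivatives are considered -/
noncomputable def Gt (A : VX d M) (F : Sp d e → ℂ) (v w : Sp d e) (b : Fin (M + 1))
    (p : Sp d e × ℂ) : ℂ :=
  F (p.1 + v + p.2 • w) * A.θ (p.1.1 - v.1 - p.2 • w.1) b

lemma differentiable_Gt {F : Sp d e → ℂ} (hF : Differentiable ℂ F) (v w : Sp d e)
    (b : Fin (M + 1)) : Differentiable ℂ (Gt A F v w b) := by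
  have h1 : Differentiable ℂ fun p : Sp d e × ℂ => p.1 + v + p.2 • w :=
    (differentiable_fst.add (differentiable_const _)).add (differentiable_snd.smul_const w)
  have h2 : Differentiable ℂ fun p : Sp d e × ℂ => p.1.1 - v.1 - p.2 • w.1 :=
    (differentiable_fst.fst.sub (differentiable_const _)).sub (differentiable_snd.smul_const w.1)
  have h3 : Differentiable ℂ fun x : E d => A.θ x b := differentiable_pi.1 A.holo b
  exact (hF.comp h1).mul (h3.comp h2)

lemma differentiable_Gt' {F : Sp d e → ℂ} (hF : Differentiable ℂ F) (v w : Sp d e)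
    (b : Fin (M + 1)) (z : Sp d e) : Differentiable ℂ fun τ : ℂ => Gt A F v w b (z, τ) :=
  (differentiable_Gt hF v w b).comp ((differentiable_const z).prodMk differentiable_id)

lemma Gt_aut {k : ℕ} {F : Sp d e → ℂ} (hF : InQ A σ 1 k F) (v w : Sp d e) (b : Fin (M + 1))
    {l : E d} (hl : l ∈ A.Λ) (z : Sp d e) (τ : ℂ) :
    Gt A F v w b (z + lift A σ l, τ) = cexp (A.H l ⬝ᵥ z.1 + A.β l) ^ 2 * Gt A F v w b (z, τ) := by
  have e1 : z + lift A σ l + v + τ • w = (z + v + τ • w) + lift A σ l := by abel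
  have e2 : (z + lift A σ l).1 - v.1 - τ • w.1 = (z.1 - v.1 - τ • w.1) + l := by
    have : (z + lift A σ l).1 = z.1 + l := rfl
    rw [this]
    abel
  have e3 : cexp (A.H l ⬝ᵥ (z + v + τ • w).1 + A.β l) *
      cexp (A.H l ⬝ᵥ (z.1 - v.1 - τ • w.1) + A.β l) = cexp (A.H l ⬝ᵥ z.1 + A.β l) ^ 2 := by
    have : (z + v + τ • w).1 = z.1 + v.1 + τ • w.1 := rfl
    rw [this, sq, ← Complex.exp_add, ← Complex.exp_add]
    congr 1
    simp only [dotProduct_add, dotProduct_sub]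
    ring
  simp only [Gt]
  rw [e1, e2, hF.aut l hl, A.law l hl, Pi.smul_apply, smul_eq_mul, pow_one, ← e3]
  ring

lemma inQ_tr (h : LocS) {k : ℕ} {F : Sp d e → ℂ} (hF : InQ A σ 1 k F) (v w : Sp d e)
    (b : Fin (M + 1)) (j : ℕ) :
    InQ A σ 2 k fun z => iteratedDeriv j (fun τ : ℂ => Gt A F v w b (z, τ)) 0 := by
  refine ⟨h.dif _ _ (differentiable_Gt hF.diff v w b) j, fun l hl z => ?_, fun z u => ?_⟩
  · simp only [Gt_aut hF v w b hl]
    exact iteratedDeriv_const_mul_field _ _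
  · refine h.pol (fun τ ρ => Gt A F v w b (z + ρ • ((0, u) : Sp d e), τ)) k j
      (fun ρ => differentiable_Gt' hF.diff v w b _) fun τ => ?_
    obtain ⟨p, hp, hE⟩ := hF.poly (z + v + τ • w) u
    refine ⟨p * Polynomial.C (A.θ (z.1 - v.1 - τ • w.1) b),
      (Polynomial.natDegree_mul_C_le _ _).trans hp, fun ρ => ?_⟩
    have e1 : z + ρ • ((0, u) : Sp d e) + v + τ • w = z + v + τ • w + ρ • ((0, u) : Sp d e) := by
      abel
    have e2 : (z + ρ • ((0, u) : Sp d e)).1 = z.1 := by simp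
    simp only [Gt]
    rw [e1, e2, hE, Polynomial.eval_mul, Polynomial.eval_C]

lemma loc_tr (h : LocS) (hd : Differentiable ℂ (Th A σ)) (hs : ∀ i b, Sc 2 (B i b))
    (hB : Ad A σ B) {F : Sp d e → ℂ} (hF : Differentiable ℂ F) (v w z₀ : Sp d e)
    (hL : Loc (Th A σ) 1 F (z₀ + v)) (b : Fin (M + 1)) (j : ℕ) :
    Loc (Th A σ) 2 (fun z => iteratedDeriv j (fun τ : ℂ => Gt A F v w b (z, τ)) 0) z₀ := by
  obtain ⟨m, Q, P, hQ, hP, hne, hE⟩ := hL
  obtain ⟨a, ha⟩ := exists_ne A (z₀.1 - v.1)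
  obtain ⟨c, hc⟩ := exists_ne A (z₀ + v).1
  have s1 : Sc (2 * m + 2) (sub (fun i => B i a) Q * B (none, c) a) :=
    (sc_sub (fun i => hs i a) hQ).mul (hs _ _)
  have s2 : Sc (2 + (2 * m + 2)) (B (none, c) b * sub (fun i => B i a) P) := by
    have := (hs (none, c) b).mul (sc_sub (fun i => hs i a) hP)
    rwa [show 2 + 2 * (1 + m) = 2 + (2 * m + 2) by ring] at this
  obtain ⟨d1, l1⟩ := loc_fam h hd s1 v w z₀
  obtain ⟨-, l2⟩ := loc_fam h hd s2 v w z₀
  have key : ∀ (z : Sp d e) (τ : ℂ),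
      eval (Sum.elim (Th A σ z) (Th A σ (v + τ • w))) (sub (fun i => B i a) Q * B (none, c) a) *
        Gt A F v w b (z, τ) =
      eval (Sum.elim (Th A σ z) (Th A σ (v + τ • w)))
        (B (none, c) b * sub (fun i => B i a) P) := by
    intro z τ
    have e1 : z + v + τ • w = z + (v + τ • w) := add_assoc _ _ _
    have e2 : z.1 - v.1 - τ • w.1 = z.1 - (v + τ • w).1 := sub_sub _ _ _
    rw [map_mul, map_mul, eval_sub_th hB hQ, eval_sub_th hB hP, ← hB, ← hB, ← hE]
    simp only [Gt]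
    rw [e1, e2]
    ring
  refine (h.loc _ _ (Th A σ) z₀).quo 2 (2 * m + 2) j
    (fun τ z => eval (Sum.elim (Th A σ z) (Th A σ (v + τ • w)))
      (sub (fun i => B i a) Q * B (none, c) a))
    (fun τ z => Gt A F v w b (z, τ)) d1 (differentiable_Gt' hF v w b) ?_ (fun i _ => l1 i)
    fun i _ => ?_
  · rw [zero_smul, add_zero, map_mul, eval_sub_th hB hQ, ← hB]
    exact mul_ne_zero (mul_ne_zero (pow_ne_zero _ ha) hne) (mul_ne_zero hc ha)
  · simp only [key]
    exact l2 i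

end TrAux

theorem tr (h : LocS) (hb : BasS) (ha : AddS) : TrS := by
  intro d M e A σ
  obtain ⟨B, hs, hB⟩ := (ha d M e A σ).add
  refine ⟨TrAux.transl h hs hB, fun k F hF v w b j => ⟨TrAux.inQ_tr h hF.1 v w b j, fun z₀ => ?_⟩⟩
  exact TrAux.loc_tr h (hb d M e A σ).diff hs hB hF.1.diff v w z₀ (hF.2 _) b j

end Pool.Agent.Lib.MP_caab05_ag.ZE
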