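import Mathlib
import Pool.Agent.Lib.MP_caab05_ag.ZE.Stmt

/-! Elementary Zariski topology for a projective system of coordinates. -/

namespace Pool.Agent.Lib.MP_caab05_ag.ZE

open MvPolynomial Filter Topology Asymptotics Complex
open Pool.Agent.Lib.MP_caab05_ag.LT (E AbVar Pol)
open scoped Pointwise

namespace ZarAux

variable {Y ι : Type}

@[simp] lemma ev_mul (Θ : Y → ι → ℂ) (P Q : MvPolynomial ι ℂ) (z : Y) :
    ev Θ (P * Q) z = ev Θ P z * ev Θ Q z := by simp [ev]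

@[simp] lemma ev_add (Θ : Y → ι → ℂ) (P Q : MvPolynomial ι ℂ) (z : Y) :
    ev Θ (P + Q) z = ev Θ P z + ev Θ Q z := by simp [ev]

@[simp] lemma ev_pow (Θ : Y → ι → ℂ) (P : MvPolynomial ι ℂ) (k : ℕ) (z : Y) :
    ev Θ (P ^ k) z = ev Θ P z ^ k := by simp [ev]

@[simp] lemma ev_X (Θ : Y → ι → ℂ) (i : ι) (z : Y) : ev Θ (X i) z = Θ z i := by
  simp [ev]

@[simp] lemma ev_one (Θ : Y → ι → ℂ) (z : Y) : ev Θ 1 z = 1 := by simp [ev]

@[simp] lemma ev_zero (Θ : Y → ι → ℂ) (z : Y) : ev Θ 0 z = 0 := by simp [ev]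

lemma irr_univ [NormedAddCommGroup Y] [NormedSpace ℂ Y] [Fintype ι] {Θ : Y → ι → ℂ}
    (hΘ : Differentiable ℂ Θ) : Irr Θ Set.univ := by
  refine ⟨⟨0, trivial⟩, fun P Q k l _ _ h => ?_⟩
  by_contra hcon
  push Not at hcon
  obtain ⟨⟨z, -, hz⟩, w, -, hw⟩ := hcon
  have han : ∀ R : MvPolynomial ι ℂ,
      AnalyticOnNhd ℂ (fun τ : ℂ => ev Θ R (z + τ • (w - z))) Set.univ := by
    intro R
    rw [Complex.analyticOnNhd_univ_iff_differentiable]
    exact ((LT.differentiable_eval R).comp hΘ).comp (by fun_prop)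
  rcases (han P).eq_zero_or_eq_zero_of_mul_eq_zero (han Q) (fun τ _ => h _ trivial)
    isPreconnected_univ with h1 | h1
  · exact hz (by simpa using h1 0 trivial)
  · exact hw (by simpa using h1 1 trivial)

lemma two [Add Y] {Θ : Y → ι → ℂ} (hT : Transl Θ) {V : Set Y} (hV : Irr Θ V)
    {P Q : MvPolynomial ι ℂ} {k l : ℕ}
    (hP : P.IsHomogeneous k) (hQ : Q.IsHomogeneous l) {a b v w : Y} (hv : v ∈ V) (hw : w ∈ V)
    (h1 : ev Θ P (v + a) ≠ 0) (h2 : ev Θ Q (w + b) ≠ 0) :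
    ∃ u ∈ V, ev Θ P (u + a) ≠ 0 ∧ ev Θ Q (u + b) ≠ 0 := by
  obtain ⟨P', k', hP', h3, h4⟩ := hT P k hP a v
  obtain ⟨Q', l', hQ', h5, h6⟩ := hT Q l hQ b w
  by_contra hcon
  push Not at hcon
  rcases hV.2 P' Q' k' l' hP' hQ' (fun z hz => by
    by_cases h : ev Θ P (z + a) = 0
    · rw [h3 z h, zero_mul]
    · rw [h5 z (hcon z hz h), mul_zero]) with h | h
  · exact h4 h1 (h v hv)
  · exact h6 h2 (h w hw)

/-- the ideal of a set -/
def idl (Θ : Y → ι → ℂ) (T : Set Y) : Ideal (MvPolynomial ι ℂ) where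
  carrier := {P | ∀ z ∈ T, ev Θ P z = 0}
  add_mem' := fun hP hQ z hz => by rw [ev_add, hP z hz, hQ z hz, add_zero]
  zero_mem' := fun z _ => ev_zero Θ z
  smul_mem' := fun c P hP z hz => by rw [smul_eq_mul, ev_mul, hP z hz, mul_zero]

lemma idl_lt (Θ : Y → ι → ℂ) {T : Set Y} {P : MvPolynomial ι ℂ} (h : ¬ ∀ z ∈ T, ev Θ P z = 0) :
    idl Θ T < idl Θ {z ∈ T | ev Θ P z = 0} := by
  refine lt_of_le_of_ne (fun Q hQ z hz => hQ z hz.1) fun h1 => h ?_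
  have h2 : P ∈ idl Θ {z ∈ T | ev Θ P z = 0} := fun z hz => hz.2
  rw [← h1] at h2
  exact h2

/-- there are `n` forms of degree `m` independent on `V` -/
def Many (Θ : Y → ι → ℂ) (V : Set Y) (m n : ℕ) : Prop :=
  ∃ (κ : Type) (_ : Fintype κ) (P : κ → MvPolynomial ι ℂ), Fintype.card κ = n ∧
    (∀ i, (P i).IsHomogeneous m) ∧
    ∀ a : κ → ℂ, (∀ z ∈ V, ∑ i, a i * ev Θ (P i) z = 0) → ∀ i, a i = 0

lemma exists_form {Θ : Y → ι → ℂ} (hne : ∀ z, Θ z ≠ 0) (z : Y) (m : ℕ) :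
    ∃ P : MvPolynomial ι ℂ, P.IsHomogeneous m ∧ ev Θ P z ≠ 0 := by
  obtain ⟨i, hi⟩ := Function.ne_iff.1 (hne z)
  exact ⟨X i ^ m, isHomogeneous_X_pow i m, by simpa using fun h => absurd h hi⟩

lemma many_one {Θ : Y → ι → ℂ} (hne : ∀ z, Θ z ≠ 0) {V : Set Y} (hV : V.Nonempty) (m : ℕ) :
    Many Θ V m 1 := by
  obtain ⟨z, hz⟩ := hV
  obtain ⟨P, hP, h⟩ := exists_form hne z m
  refine ⟨Unit, inferInstance, fun _ => P, by simp, fun _ => hP, fun a ha i => ?_⟩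
  have := ha z hz
  simpa [h] using this

lemma ev_sum (Θ : Y → ι → ℂ) {κ : Type} [Fintype κ] (a : κ → ℂ) (P : κ → MvPolynomial ι ℂ)
    (z : Y) : ev Θ (∑ i, a i • P i) z = ∑ i, a i * ev Θ (P i) z := by
  simp [ev, smul_eval]

lemma many_step {Θ : Y → ι → ℂ} {V V' : Set Y} (hVV : V ⊆ V') (hV' : Irr Θ V')
    {Q : MvPolynomial ι ℂ}
    {q : ℕ} (hQ : Q.IsHomogeneous q) (h1 : ∀ z ∈ V, ev Θ Q z = 0) (h2 : ¬ ∀ z ∈ V', ev Θ Q z = 0)
    {m n n' : ℕ} (h3 : Many Θ V' m n) (h4 : Many Θ V (m + q) n') : Many Θ V' (m + q) (n + n') := by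
  obtain ⟨κ', _, P, rfl, hP, hP'⟩ := h3
  obtain ⟨κ, _, R, rfl, hR, hR'⟩ := h4
  refine ⟨κ' ⊕ κ, inferInstance, Sum.elim (fun i => P i * Q) R, by simp, ?_, fun a ha => ?_⟩
  · rintro (i | i)
    · exact (hP i).mul hQ
    · exact hR i
  · simp only [Fintype.sum_sum_type, Sum.elim_inl, Sum.elim_inr, ev_mul] at ha
    have h5 : ∀ j, a (.inr j) = 0 := hR' (fun j => a (.inr j)) fun z hz => by
      simpa [h1 z hz] using ha z (hVV hz)
    have h6 : (∑ i, a (.inl i) • P i).IsHomogeneous m :=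
      IsHomogeneous.sum _ _ _ fun i _ =>
        (homogeneousSubmodule _ ℂ m).smul_mem _ (hP i)
    have h7 := (hV'.2 _ Q m q h6 hQ fun z hz => by
      have := ha z hz
      simp only [h5, zero_mul, Finset.sum_const_zero, add_zero, ← mul_assoc] at this
      rwa [ev_sum, Finset.sum_mul]).resolve_right h2
    have h8 : ∀ i, a (.inl i) = 0 := hP' (fun i => a (.inl i)) fun z hz => by
      rw [← ev_sum]
      exact h7 z hz
    rintro (i | i)
    · exact h8 i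
    · exact h5 i

lemma irr_add [AddCommGroup Y] {Θ : Y → ι → ℂ} (hT : Transl Θ) {V H : Set Y} (hV : Irr Θ V)
    (hH : Irr Θ H) : Irr Θ (V + H) := by
  refine ⟨hV.1.add hH.1, fun P Q k l hP hQ h => ?_⟩
  by_contra hcon
  push Not at hcon
  obtain ⟨⟨_, ⟨v, hv, x, hx, rfl⟩, h1⟩, _, ⟨w, hw, y, hy, rfl⟩, h2⟩ := hcon
  obtain ⟨u, hu, h3, h4⟩ := two hT hV hP hQ hv hw h1 h2
  rw [add_comm] at h3 h4
  obtain ⟨t, ht, h5, h6⟩ := two hT hH hP hQ hx hy h3 h4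
  rw [add_comm] at h5 h6
  exact mul_ne_zero h5 h6 (h _ (Set.add_mem_add hu ht))

lemma dichotomy [Zero Y] [Fintype ι] (Θ : Y → ι → ℂ) (Z : Set Y) {S : Set Y} (h0 : (0 : Y) ∈ S) :
    (∃ H ⊆ S, Irr Θ H ∧ (0 : Y) ∈ H ∧ ¬ H ⊆ Z) ∨
      ∃ (U : MvPolynomial ι ℂ) (k : ℕ), U.IsHomogeneous k ∧ ev Θ U 0 ≠ 0 ∧
        ∀ z ∈ S, z ∈ Z ∨ ev Θ U z = 0 := by
  refine or_iff_not_imp_left.2 fun hno => ?_
  have key : ∀ T : Set Y, T ⊆ S → ∃ (U : MvPolynomial ι ℂ) (k : ℕ), U.IsHomogeneous k ∧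
      ev Θ U 0 ≠ 0 ∧ ∀ z ∈ T, z ∈ Z ∨ ev Θ U z = 0 := by
    intro T
    induction T using
      (InvImage.wf (idl Θ) (wellFounded_gt (α := Ideal (MvPolynomial ι ℂ)))).induction with
    | _ T ih =>
    intro hT
    by_cases hΛ : T ⊆ Z
    · exact ⟨1, 0, isHomogeneous_one _ _, by simp, fun z hz => Or.inl (hΛ hz)⟩
    by_cases hI : Irr Θ T
    · by_cases hcl : (0 : Y) ∈ cl Θ T
      · refine (hno ⟨insert 0 T, Set.insert_subset h0 hT,
          ⟨Set.insert_nonempty _ _, fun P Q k l hP hQ h => ?_⟩, Set.mem_insert _ _,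
          fun h => hΛ ((Set.subset_insert _ _).trans h)⟩).elim
        rcases hI.2 P Q k l hP hQ fun z hz => h z (Set.mem_insert_of_mem _ hz) with h1 | h1
        · exact Or.inl (Set.forall_mem_insert.2 ⟨hcl P k hP h1, h1⟩)
        · exact Or.inr (Set.forall_mem_insert.2 ⟨hcl Q l hQ h1, h1⟩)
      · simp only [cl, Set.mem_ofPred_eq] at hcl
        push Not at hcl
        obtain ⟨U, k, hU, h1, h2⟩ := hcl
        exact ⟨U, k, hU, h2, fun z hz => Or.inr (h1 z hz)⟩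
    · have hne : T.Nonempty := by
        rcases T.eq_empty_or_nonempty with rfl | h
        · exact (hΛ (Set.empty_subset _)).elim
        · exact h
      simp only [Irr, hne, true_and, not_forall, not_or] at hI
      obtain ⟨P, Q, k, l, -, -, h1, h2, h3⟩ := hI
      obtain ⟨U, a, hU, h4, h5⟩ := ih _ (idl_lt Θ (P := P) (by simpa using h2))
        ((Set.sep_subset _ _).trans hT)
      obtain ⟨U', a', hU', h6, h7⟩ := ih _ (idl_lt Θ (P := Q) (by simpa using h3))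
        ((Set.sep_subset _ _).trans hT)
      refine ⟨U * U', a + a', hU.mul hU', by simp [h4, h6], fun z hz => ?_⟩
      rcases mul_eq_zero.1 (h1 z hz) with h | h
      · exact (h5 z ⟨hz, h⟩).imp_right fun h' => by simp [h']
      · exact (h7 z ⟨hz, h⟩).imp_right fun h' => by simp [h']
  exact key S subset_rfl

lemma chain {Θ : Y → ι → ℂ} (hne : ∀ z, Θ z ≠ 0) {d : ℕ} (hH : HilB Θ d) (V : ℕ → Set Y)
    (hV : ∀ i ≤ d + 1, Irr Θ (V i)) (hm : ∀ i ≤ d, V i ⊆ V (i + 1))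
    (hs : ∀ i ≤ d, ¬ V (i + 1) ⊆ cl Θ (V i)) : False := by
  obtain ⟨C, hC⟩ := hH
  have many_le : ∀ {V : Set Y} {m n : ℕ}, Many Θ V m n → (n : ℝ) ≤ C * ((m : ℝ) + 1) ^ d := by
    rintro V m n ⟨κ, _, P, rfl, hP, hP'⟩
    refine hC m κ P hP (Fintype.linearIndependent_iff.2 fun a ha => hP' a fun z _ => ?_)
    simpa using congrFun ha z
  have h1 : ∀ i, ∃ k : ℕ, i ≤ d → ∃ Q : MvPolynomial ι ℂ, Q.IsHomogeneous k ∧
      (∀ z ∈ V i, ev Θ Q z = 0) ∧ ∃ z ∈ V (i + 1), ev Θ Q z ≠ 0 := by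
    intro i
    by_cases hi : i ≤ d
    · obtain ⟨z, hz, h⟩ := Set.not_subset.1 (hs i hi)
      simp only [cl, Set.mem_ofPred_eq] at h
      push Not at h
      obtain ⟨Q, k, hQ, h2, h3⟩ := h
      exact ⟨k, fun _ => ⟨Q, hQ, h2, z, hz, h3⟩⟩
    · exact ⟨0, fun h => (hi h).elim⟩
  choose k hk using h1
  obtain ⟨q, hq⟩ : ∃ q, ∀ i ≤ d, k i ≤ q :=
    ⟨(Finset.range (d + 1)).sup k, fun i hi => Finset.le_sup (Finset.mem_range.2 (by omega))⟩
  have h2 : ∀ i ≤ d, ∃ Q : MvPolynomial ι ℂ, Q.IsHomogeneous q ∧ (∀ z ∈ V i, ev Θ Q z = 0) ∧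
      ¬ ∀ z ∈ V (i + 1), ev Θ Q z = 0 := by
    intro i hi
    obtain ⟨Q, hQ, h3, z, hz, h4⟩ := hk i hi
    obtain ⟨R, hR, h5⟩ := exists_form hne z (q - k i)
    refine ⟨Q * R, ?_, fun w hw => by simp [h3 w hw], fun h => ?_⟩
    · have := hQ.mul hR
      rwa [Nat.add_sub_cancel' (hq i hi)] at this
    · exact mul_ne_zero h4 h5 (by simpa using h z hz)
  have h3 : ∀ r ≤ d + 1, ∀ s, Many Θ (V r) (s * q) ((s + r).choose r) := by
    intro r
    induction r with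
    | zero => exact fun hr s => by simpa using many_one hne (hV 0 hr).1 (s * q)
    | succ r ih =>
      intro hr s
      obtain ⟨Q, hQ, h4, h5⟩ := h2 r (by omega)
      induction s with
      | zero => simpa using many_one hne (hV _ hr).1 0
      | succ s ihs =>
        have h6 := ih (by omega) (s + 1)
        rw [add_mul, one_mul] at h6 ⊢
        have h7 := many_step (hm r (by omega)) (hV _ hr) hQ h4 h5 ihs h6
        have h8 : (s + 1 + (r + 1)).choose (r + 1) =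
            (s + (r + 1)).choose (r + 1) + (s + 1 + r).choose r := by
          rw [show s + 1 + (r + 1) = (s + 1 + r) + 1 by ring, Nat.choose_succ_succ',
            show s + (r + 1) = s + 1 + r by ring, add_comm]
        rwa [h8]
  obtain ⟨s, hs'⟩ := exists_nat_gt (|C| * ((q : ℝ) + 1) ^ d * (d + 1).factorial)
  have h4 := many_le (h3 (d + 1) le_rfl s)
  have h5 := Nat.pow_le_choose (α := ℝ) (d + 1) (s + (d + 1))
  rw [show s + (d + 1) + 1 - (d + 1) = s + 1 by omega] at h5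
  have hf : (0 : ℝ) < (d + 1).factorial := by exact_mod_cast Nat.factorial_pos _
  have hs0 : (0 : ℝ) ≤ s := Nat.cast_nonneg s
  have hq0 : (0 : ℝ) ≤ q := Nat.cast_nonneg q
  have h6 : (((s * q : ℕ) : ℝ) + 1) ^ d ≤ ((q : ℝ) + 1) ^ d * ((s : ℝ) + 1) ^ d := by
    rw [← mul_pow]
    refine pow_le_pow_left₀ (by positivity) ?_ d
    push_cast
    nlinarith
  have h7 : C * (((s * q : ℕ) : ℝ) + 1) ^ d ≤ |C| * (((q : ℝ) + 1) ^ d * ((s : ℝ) + 1) ^ d) :=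
    mul_le_mul (le_abs_self C) h6 (by positivity) (abs_nonneg C)
  have h8 := (div_le_iff₀ hf).1 (h5.trans (h4.trans h7))
  push_cast at h8
  have h9 : (0 : ℝ) < ((s : ℝ) + 1) ^ d := by positivity
  rw [pow_succ] at h8
  nlinarith

lemma stab [Add Y] {Θ : Y → ι → ℂ} (hT : Transl Θ) (V : Set Y) (h : Y)
    (hV : ∀ v ∈ V, v + h ∈ cl Θ V) (z : Y) (hz : z ∈ cl Θ V) : z + h ∈ cl Θ V := by
  intro P k hP hPV
  by_contra hne
  obtain ⟨P', k', hP', h1, h2⟩ := hT P k hP h z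
  exact h2 hne (hz P' k' hP' fun v hv => h1 v (hV v hv P k hP hPV))

end ZarAux

theorem zar : ZarS := fun _ _ _ _ _ Θ hΘ hne hT =>
  { univ := ZarAux.irr_univ hΘ
    add := fun _ _ hV hH => ZarAux.irr_add hT hV hH
    dich := fun Z _ h0 => ZarAux.dichotomy Θ Z h0
    chain := fun _ hH V h1 h2 h3 => ZarAux.chain hne hH V h1 h2 h3
    stab := fun V h hV z hz => ZarAux.stab hT V h hV z hz }

end Pool.Agent.Lib.MP_caab05_ag.ZE
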