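import Mathlib
import Pool.Agent.Lib.MP_caab05_ag.ZE.Add
import Pool.Agent.Lib.MP_caab05_ag.ZE.Appr
import Pool.Agent.Lib.MP_caab05_ag.ZE.Bas
import Pool.Agent.Lib.MP_caab05_ag.ZE.Chart
import Pool.Agent.Lib.MP_caab05_ag.ZE.Cnt
import Pool.Agent.Lib.MP_caab05_ag.ZE.Desc
import Pool.Agent.Lib.MP_caab05_ag.ZE.Eqs
import Pool.Agent.Lib.MP_caab05_ag.ZE.Grp
import Pool.Agent.Lib.MP_caab05_ag.ZE.Hil
import Pool.Agent.Lib.MP_caab05_ag.ZE.Hil0
import Pool.Agent.Lib.MP_caab05_ag.ZE.Iso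
import Pool.Agent.Lib.MP_caab05_ag.ZE.Lan
import Pool.Agent.Lib.MP_caab05_ag.ZE.Lead
import Pool.Agent.Lib.MP_caab05_ag.ZE.Line
import Pool.Agent.Lib.MP_caab05_ag.ZE.Loc
import Pool.Agent.Lib.MP_caab05_ag.ZE.Main
import Pool.Agent.Lib.MP_caab05_ag.ZE.Null
import Pool.Agent.Lib.MP_caab05_ag.ZE.Null1
import Pool.Agent.Lib.MP_caab05_ag.ZE.Stab
import Pool.Agent.Lib.MP_caab05_ag.ZE.Top
import Pool.Agent.Lib.MP_caab05_ag.ZE.Tr
import Pool.Agent.Lib.MP_caab05_ag.ZE.Zar
import Pool.Agent.Lib.MP_caab05_ag.ZE.Ze2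

/-! The multiplicity estimate on vector extensions, without hypotheses. -/

namespace Pool.Agent.Lib.MP_caab05_ag.ZE

theorem bas' : BasS := bas locS
theorem add' : AddS := addS locS bas'
theorem tr' : TrS := tr locS bas' add'
theorem lan' : LanS := lanS locS bas' add'
theorem hil' : HilS := hil hil0 bas'
theorem top' : TopS := top top0 lead bas'
theorem desc' : DescS := desc locS bas' add'
theorem stab' : StabS := stab zar bas' tr' (line bas') grp
theorem chart' : ChartS := chart bas' add'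
theorem iso' : IsoS := iso hil' chart' (null bas' (null1 bas' chart')) (cnt appr)
theorem zes' : ZES := zes zar locS bas' tr' hil' stab' (eqs tr') iso' lead desc' top'
theorem ze2' : ZE2S := ze2 zes' lan' bas' locS

end Pool.Agent.Lib.MP_caab05_ag.ZE
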