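import Mathlib
import Pool.Agent.Lib.MP_caab05_ag.ZE.Stmt

/-! The multiplicity of an isolated zero: the final count. -/

namespace Pool.Agent.Lib.MP_caab05_ag.ZE

open MvPolynomial Filter Topology Asymptotics Complex
open Pool.Agent.Lib.MP_caab05_ag.LT (E AbVar Pol)

theorem iso (hh : HilS) (hc : ChartS) (hn : NullS) (hk : CntS) : IsoS := by
  intro d M A e
  obtain ⟨C, hC1, hC⟩ := hh d M A
  refine ⟨⌈C⌉₊ * (2 * (d + e) + 3) ^ d * (d + e + 1) ^ e, fun σ W T D 𝒢 hI => ?_⟩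
  obtain ⟨s₁, hs⟩ := hn d M e A σ W T D 𝒢 hI
  have hch := hc d M e A σ
  obtain ⟨κ, _, P, hcard, hP⟩ := hk (Sp d e) (Ic e M) (aff A σ) hch.dif hch.imm W T (s₁ + 1)
  have hfr : Module.finrank ℂ (Sp d e) = d + e := by simp [Sp, E, Module.finrank_prod]
  rw [hfr] at hcard hP
  choose F hF hPF using fun α : κ => hs ((d + e) * (s₁ + 1) + 1) (P α)
  have hli : LinearIndependent ℂ F := by
    refine Fintype.linearIndependent_iff.2 fun c hc' => ?_
    have h0 := hP c fun u hu v => by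
      have h1 := IsBigO.sum (s := Finset.univ) fun α _ => (hPF α u hu v).const_mul_left (c α)
      refine h1.congr_left fun τ => ?_
      have h2 := congrFun hc' (gam T u v τ)
      simp only [Finset.sum_apply, Pi.smul_apply, smul_eq_mul, Pi.zero_apply] at h2
      simp only [Finset.sum_apply, mul_sub, Finset.sum_sub_distrib, ← mul_div_assoc,
        ← Finset.sum_div, h2, zero_div,
        sub_zero]
      rfl
    exact fun i => congrFun h0 i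
  have h1 := hC e σ _ _ κ F hF hli
  rw [hcard] at h1
  have h2 : s₁ + 2 * ((d + e) * (s₁ + 1) + 1) + 1 ≤ (s₁ + 1) * (2 * (d + e) + 3) := by nlinarith
  have h3 : s₁ + D * ((d + e) * (s₁ + 1) + 1) + 1 ≤ (s₁ + 1) * ((d + e + 1) * (D + 1)) := by
    nlinarith [Nat.zero_le (D * s₁), Nat.zero_le ((d + e) * (s₁ + 1))]
  have h4 : (s₁ + 1) ^ (d + e) * (T + 1) ^ Module.finrank ℂ W ≤
      ⌈C⌉₊ * (s₁ + 2 * ((d + e) * (s₁ + 1) + 1) + 1) ^ d *
        (s₁ + D * ((d + e) * (s₁ + 1) + 1) + 1) ^ e := by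
    have h5 : C * (((s₁ + 2 * ((d + e) * (s₁ + 1) + 1) : ℕ) : ℝ) + 1) ^ d *
        (((s₁ + D * ((d + e) * (s₁ + 1) + 1) : ℕ) : ℝ) + 1) ^ e ≤
        (⌈C⌉₊ : ℝ) * (((s₁ + 2 * ((d + e) * (s₁ + 1) + 1) : ℕ) : ℝ) + 1) ^ d *
        (((s₁ + D * ((d + e) * (s₁ + 1) + 1) : ℕ) : ℝ) + 1) ^ e := by
      gcongr
      exact Nat.le_ceil C
    exact_mod_cast h1.trans h5
  have h5 : ⌈C⌉₊ * (s₁ + 2 * ((d + e) * (s₁ + 1) + 1) + 1) ^ d *
        (s₁ + D * ((d + e) * (s₁ + 1) + 1) + 1) ^ e ≤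
      (s₁ + 1) ^ (d + e) * (⌈C⌉₊ * (2 * (d + e) + 3) ^ d * (d + e + 1) ^ e * (D + 1) ^ e) := by
    calc _ ≤ ⌈C⌉₊ * ((s₁ + 1) * (2 * (d + e) + 3)) ^ d *
          ((s₁ + 1) * ((d + e + 1) * (D + 1))) ^ e := by gcongr
      _ = _ := by rw [mul_pow, mul_pow, mul_pow, pow_add]; ring
  exact Nat.le_of_mul_le_mul_left (h4.trans h5) (by positivity)

end Pool.Agent.Lib.MP_caab05_ag.ZE
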