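import Mathlib
import Pool.Agent.Lib.MP_caab05_ag.ZE.Stmt

/-! Specialisation of the multiplicity estimate to the universal extension. -/

namespace Pool.Agent.Lib.MP_caab05_ag.ZE

open MvPolynomial Filter Topology Asymptotics Complex
open Pool.Agent.Lib.MP_caab05_ag.LT (E AbVar Pol)

namespace Ze2Aux

theorem dir_eq {d : ℕ} (t : E d) : dir (fun j : Fin d => (Pi.single j 1 : E d)) t = t := by
  ext i
  simp [dir, Finset.sum_apply, Pi.single_apply]

theorem lift_eq {d M : ℕ} (A : VX d M) :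
    lift A (fun j : Fin d => (Pi.single j 1 : E d)) = fun x => (x, A.H x) := by
  funext x
  simp [lift]

end Ze2Aux

theorem ze2 (h : ZES) (hl : LanS) (hb : BasS) (hc : LocS) : ZE2S := by
  intro d M A
  obtain ⟨C, hC⟩ := h d M A d
  refine ⟨C, fun W D h1 h2 h3 f hf => hC (fun j => Pi.single j 1) W D f
    ⟨h1, h2, by rwa [Ze2Aux.lift_eq]⟩ ?_⟩
  have B := hb d M d A fun j => Pi.single j 1
  induction hf using Submodule.span_induction with
  | mem f hf =>
    obtain ⟨c, j, s, hj, rfl⟩ := hf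
    have h4 := hl d M d A (fun j => Pi.single j 1) c j s
    have e : lan A (fun j => Pi.single j 1) c j s = fun z => iteratedDeriv j
        (fun τ : ℂ => A.θ (z.1 + τ • s) c * cexp (-(z.2 ⬝ᵥ τ • s))) 0 := by
      funext z
      simp only [lan, Psi, Ze2Aux.dir_eq]
    rw [e] at h4
    exact ⟨B.qmono _ _ _ _ hj h4.1, h4.2⟩
  | zero => exact ⟨B.qzero _ _, fun z => (hc.loc _ _ _ z).zero _⟩
  | add f g _ _ hf hg =>
    exact ⟨B.qadd _ _ _ _ hf.1 hg.1, fun z => (hc.loc _ _ _ z).add _ _ _ (hf.2 z) (hg.2 z)⟩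
  | smul a f _ hf =>
    exact ⟨B.qsmul _ _ a _ hf.1, fun z => (hc.loc _ _ _ z).smul _ a _ (hf.2 z)⟩

end Pool.Agent.Lib.MP_caab05_ag.ZE
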